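import Mathlib
import Pool.Agent.Helper79_TOR.Defs
import Pool.Agent.Helper59_TOR.Std

/-! TOW (tower of holed surfaces), definitions and the input from the Birman block.
See /team-store/TOR_helper76_br.md, sections 5 to 8. -/

set_option autoImplicit false

namespace Pool.Agent.TOW

open FreeGroup Pool.Agent.TST Pool.Agent.TOR.H59

/-- the embedding of the letters, one more letter `none` (the new hole x) -/
abbrev sm (α : Type) : α ↪ Option α := Function.Embedding.some

/-- F → F * <x> -/
abbrev inc {α : Type} : FreeGroup α →* FreeGroup (Option α) := FreeGroup.map (sm α)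

/-- the new hole x -/
abbrev xx (α : Type) : FreeGroup (Option α) := FreeGroup.of none

/-- cap : F * <x> → F, x ↦ 1 -/
def cp {α : Type} : FreeGroup (Option α) →* FreeGroup α :=
  FreeGroup.lift (fun o => o.elim 1 FreeGroup.of)

/-- push map for the surface word z: P : F → Aut(F * <x>) -/
structure Bir {α : Type} (z : FreeGroup α) (P : FreeGroup α →* MulAut (FreeGroup (Option α))) :
    Prop where
  fix : ∀ g, P g (inc z * xx α) = inc z * xx α
  cap : ∀ g u, cp (P g u) = cp u
  con : ∀ g, ∃ c, P g (xx α) = c * xx α * c⁻¹ ∧ cp c = g⁻¹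
  eqv : ∀ φ : MulAut (FreeGroup α), φ z = z → ∀ g,
    upE (sm α) φ * P g * (upE (sm α) φ)⁻¹ = P (φ g)

/-- exact value of the push along h -/
def Exa {α : Type} (P : FreeGroup α →* MulAut (FreeGroup (Option α))) (h : FreeGroup α) : Prop :=
  P h (xx α) = (inc h)⁻¹ * xx α * inc h

/-- uniqueness -/
def UEX {α : Type} (z : FreeGroup α) : Prop := ∀ E : MulAut (FreeGroup (Option α)),
  E (inc z * xx α) = inc z * xx α → (∀ u, cp (E u) = cp u) → E (xx α) = xx α → E = 1

/-- INPUT of the tower (helper98, helper18): the Birman map of the standard surface -/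
def BIRM : Prop := ∀ n : ℕ, 0 < n → UEX (zeta n) ∧
  ∃ P : FreeGroup (Fin 2 × Fin n) →* MulAut (FreeGroup (Option (Fin 2 × Fin n))),
    Bir (zeta n) P ∧ ∀ i, Exa P (FreeGroup.of (1, i))

end Pool.Agent.TOW
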