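import Mathlib
import Pool.Agent.Helper76_TOR.TwS

/-! TOW: frames and the basic block push. -/

set_option autoImplicit false

namespace Pool.Agent.TOW

open FreeGroup Pool.Agent.TST

/-- a frame: two letters a, b, the set S of moved letters, words Y (in S), R, Z (in the rest) -/
structure Fr (α : Type) where
  a : α
  b : α
  S : α → Bool
  Y : FreeGroup α
  R : FreeGroup α
  Z : FreeGroup α

variable {α : Type}

/-- the subgroup generated by the letters with property p -/
def lt (p : α → Prop) : Subgroup (FreeGroup α) :=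
  Subgroup.closure {g | ∃ l, p l ∧ g = FreeGroup.of l}

theorem of_mem_lt {p : α → Prop} {l : α} (h : p l) : FreeGroup.of l ∈ lt p :=
  Subgroup.subset_closure ⟨l, h, rfl⟩

theorem lt_ind {p : α → Prop} {G : Type} [Group G] {f g : FreeGroup α →* G}
    (h : ∀ l, p l → f (FreeGroup.of l) = g (FreeGroup.of l)) {u : FreeGroup α} (hu : u ∈ lt p) :
    f u = g u := by
  refine Subgroup.closure_induction (p := fun u _ => f u = g u) ?_ ?_ ?_ ?_ hu
  · rintro _ ⟨l, hl, rfl⟩
    exact h l hl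
  · rw [_root_.map_one, _root_.map_one]
  · intro x y _ _ hx hy
    rw [_root_.map_mul, _root_.map_mul, hx, hy]
  · intro x _ hx
    rw [_root_.map_inv, _root_.map_inv, hx]

structure Fr.Ok (D : Fr α) : Prop where
  ab : D.a ≠ D.b
  Sa : D.S D.a = false
  Sb : D.S D.b = false
  hY : D.Y ∈ lt (fun l => D.S l = true)
  hR : D.R ∈ lt (fun l => D.S l = false ∧ l ≠ D.a ∧ l ≠ D.b)
  hZ : D.Z ∈ lt (fun l => D.S l = false ∧ l ≠ D.a ∧ l ≠ D.b)

namespace Fr

variable (D : Fr α)

/-- standard form of the boundary word -/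
def om0 : FreeGroup α := D.Z * of D.a * D.Y * of D.b * (of D.a)⁻¹ * D.R * (of D.b)⁻¹

open Classical in
/-- the block push, as a homomorphism -/
noncomputable def WH : FreeGroup α →* FreeGroup α :=
  FreeGroup.lift fun l => if l = D.a then of D.a * (of D.b)⁻¹ * D.Y⁻¹ * of D.b
    else if D.S l = true then (of D.b)⁻¹ * of l * of D.b else of l

open Classical in
/-- the inverse -/
noncomputable def WI : FreeGroup α →* FreeGroup α :=
  FreeGroup.lift fun l => if l = D.a then of D.a * D.Y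
    else if D.S l = true then of D.b * of l * (of D.b)⁻¹ else of l

variable {D}

theorem WH_a : D.WH (of D.a) = of D.a * (of D.b)⁻¹ * D.Y⁻¹ * of D.b := by
  rw [WH, lift_apply_of, if_pos rfl]

theorem WI_a : D.WI (of D.a) = of D.a * D.Y := by
  rw [WI, lift_apply_of, if_pos rfl]

theorem WH_S (h : D.Ok) {l : α} (hl : D.S l = true) :
    D.WH (of l) = (of D.b)⁻¹ * of l * of D.b := by
  have h1 : l ≠ D.a := fun e => by rw [e, h.Sa] at hl; exact Bool.false_ne_true hl
  rw [WH, lift_apply_of, if_neg h1, if_pos hl]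

theorem WI_S (h : D.Ok) {l : α} (hl : D.S l = true) :
    D.WI (of l) = of D.b * of l * (of D.b)⁻¹ := by
  have h1 : l ≠ D.a := fun e => by rw [e, h.Sa] at hl; exact Bool.false_ne_true hl
  rw [WI, lift_apply_of, if_neg h1, if_pos hl]

theorem WH_r {l : α} (hl : D.S l = false) (h1 : l ≠ D.a) : D.WH (of l) = of l := by
  rw [WH, lift_apply_of, if_neg h1, if_neg (by rw [hl]; exact Bool.false_ne_true)]

theorem WI_r {l : α} (hl : D.S l = false) (h1 : l ≠ D.a) : D.WI (of l) = of l := by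
  rw [WI, lift_apply_of, if_neg h1, if_neg (by rw [hl]; exact Bool.false_ne_true)]

theorem WH_b (h : D.Ok) : D.WH (of D.b) = of D.b := WH_r h.Sb h.ab.symm

theorem WI_b (h : D.Ok) : D.WI (of D.b) = of D.b := WI_r h.Sb h.ab.symm

theorem WH_rest {u : FreeGroup α} (hu : u ∈ lt (fun l => D.S l = false ∧ l ≠ D.a ∧ l ≠ D.b)) :
    D.WH u = u :=
  lt_ind (f := D.WH) (g := MonoidHom.id _) (fun _ hl => WH_r hl.1 hl.2.1) hu

theorem WI_rest {u : FreeGroup α} (hu : u ∈ lt (fun l => D.S l = false ∧ l ≠ D.a ∧ l ≠ D.b)) :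
    D.WI u = u :=
  lt_ind (f := D.WI) (g := MonoidHom.id _) (fun _ hl => WI_r hl.1 hl.2.1) hu

theorem WH_moved (h : D.Ok) {u : FreeGroup α} (hu : u ∈ lt (fun l => D.S l = true)) :
    D.WH u = (of D.b)⁻¹ * u * of D.b := by
  have := lt_ind (f := D.WH) (g := (MulAut.conj (of D.b)⁻¹).toMonoidHom)
    (fun l hl => by
      rw [WH_S h hl]
      show _ = (of D.b)⁻¹ * of l * (of D.b)⁻¹⁻¹
      rw [inv_inv]) hu
  rw [this]
  show (of D.b)⁻¹ * u * (of D.b)⁻¹⁻¹ = _
  rw [inv_inv]

theorem WI_moved (h : D.Ok) {u : FreeGroup α} (hu : u ∈ lt (fun l => D.S l = true)) :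
    D.WI u = of D.b * u * (of D.b)⁻¹ :=
  lt_ind (f := D.WI) (g := (MulAut.conj (of D.b)).toMonoidHom)
    (fun l hl => by
      rw [WI_S h hl]
      rfl) hu

/-- cases for the letters -/
theorem cases (D : Fr α) (l : α) : l = D.a ∨ D.S l = true ∨ (D.S l = false ∧ l ≠ D.a) := by
  by_cases h1 : l = D.a
  · exact Or.inl h1
  · rcases h2 : D.S l
    · exact Or.inr (Or.inr ⟨rfl, h1⟩)
    · exact Or.inr (Or.inl rfl)

theorem WI_WH (h : D.Ok) : D.WI.comp D.WH = MonoidHom.id _ := by
  refine fx fun l => ?_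
  rw [MonoidHom.comp_apply, MonoidHom.id_apply]
  rcases D.cases l with rfl | hl | ⟨hl, h1⟩
  · rw [WH_a]
    simp only [_root_.map_mul, _root_.map_inv, WI_a, WI_b h, WI_moved h h.hY]
    group
  · rw [WH_S h hl]
    simp only [_root_.map_mul, _root_.map_inv, WI_b h, WI_S h hl]
    group
  · rw [WH_r hl h1, WI_r hl h1]

theorem WH_WI (h : D.Ok) : D.WH.comp D.WI = MonoidHom.id _ := by
  refine fx fun l => ?_
  rw [MonoidHom.comp_apply, MonoidHom.id_apply]
  rcases D.cases l with rfl | hl | ⟨hl, h1⟩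
  · rw [WI_a]
    simp only [_root_.map_mul, WH_a, WH_moved h h.hY]
    group
  · rw [WI_S h hl]
    simp only [_root_.map_mul, _root_.map_inv, WH_b h, WH_S h hl]
    group
  · rw [WI_r hl h1, WH_r hl h1]

/-- the block push -/
noncomputable def W (D : Fr α) (h : D.Ok) : MulAut (FreeGroup α) :=
  MonoidHom.toMulEquiv D.WH D.WI (WI_WH h) (WH_WI h)

theorem W_apply (h : D.Ok) (u : FreeGroup α) : D.W h u = D.WH u := rfl

theorem W_om0 (h : D.Ok) : D.W h D.om0 = D.om0 := by
  rw [W_apply, om0]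
  simp only [_root_.map_mul, _root_.map_inv, WH_rest h.hZ, WH_rest h.hR, WH_a, WH_b h,
    WH_moved h h.hY]
  group

end Fr

end Pool.Agent.TOW
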