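import Mathlib
import Pool.Agent.Helper76_TOR.TwF

/-! TOW: block pushes, from one level to the next. -/

set_option autoImplicit false

namespace Pool.Agent.TOW

open FreeGroup Pool.Agent.TST

section gen

variable {α η : Type}

theorem inc_of (a : α) : inc (FreeGroup.of a) = FreeGroup.of (some a) := FreeGroup.map.of

theorem cp_inc (u : FreeGroup α) : cp (inc u) = u := by
  have : (cp (α := α)).comp inc = MonoidHom.id _ := fx fun a => by
    rw [MonoidHom.comp_apply, inc_of, cp, lift_apply_of]
    rfl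
  exact DFunLike.congr_fun this u

theorem cp_x : cp (xx α) = 1 := by
  rw [cp, lift_apply_of]
  rfl

theorem cp_some (a : α) : cp (FreeGroup.of (some a)) = FreeGroup.of a := by
  rw [cp, lift_apply_of]
  rfl

theorem up_inc (φ : MulAut (FreeGroup α)) (u : FreeGroup α) :
    upE (sm α) φ (inc u) = inc (φ u) := upE_map (sm α) φ u

theorem up_x (φ : MulAut (FreeGroup α)) : upE (sm α) φ (xx α) = xx α :=
  upE_new (sm α) φ none fun i hi => Option.some_ne_none i hi

theorem cp_up (φ : MulAut (FreeGroup α)) (u : FreeGroup (Option α)) :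
    cp (upE (sm α) φ u) = φ (cp u) := by
  have : (cp (α := α)).comp (upE (sm α) φ).toMonoidHom = φ.toMonoidHom.comp cp := fx fun o => by
    rcases o with _ | a
    · show cp (upE (sm α) φ (xx α)) = φ (cp (xx α))
      rw [up_x, cp_x, _root_.map_one]
    · show cp (upE (sm α) φ (FreeGroup.of (some a))) = φ (cp (FreeGroup.of (some a)))
      rw [← inc_of, up_inc, cp_inc, cp_inc]
  exact DFunLike.congr_fun this u

/-- automorphisms which agree on the letters -/
theorem aut_ext {φ ψ : MulAut (FreeGroup α)} (h : ∀ a, φ (FreeGroup.of a) = ψ (FreeGroup.of a)) :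
    φ = ψ := by
  refine MulEquiv.ext fun u => ?_
  have : φ.toMonoidHom = ψ.toMonoidHom := fx h
  exact DFunLike.congr_fun this u

/-- pure mapping classes of the holed surface with holes hl and boundary word w -/
def Md (hl : η → α) (w : FreeGroup α) : Subgroup (MulAut (FreeGroup α)) where
  carrier := {φ | φ w = w ∧ ∀ h, ∃ c, φ (FreeGroup.of (hl h)) = c * FreeGroup.of (hl h) * c⁻¹}
  one_mem' := ⟨rfl, fun h => ⟨1, by simp⟩⟩
  mul_mem' := by
    rintro φ ψ ⟨h1, h2⟩ ⟨h3, h4⟩
    refine ⟨by rw [MulAut.mul_apply, h3, h1], fun h => ?_⟩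
    obtain ⟨c, hc⟩ := h2 h
    obtain ⟨d, hd⟩ := h4 h
    refine ⟨φ d * c, ?_⟩
    rw [MulAut.mul_apply, hd, _root_.map_mul, _root_.map_mul, _root_.map_inv, hc]
    group
  inv_mem' := by
    rintro φ ⟨h1, h2⟩
    refine ⟨?_, fun h => ?_⟩
    · conv_lhs => rw [← h1]
      exact MulAut.inv_apply_self _ _ _
    · obtain ⟨c, hc⟩ := h2 h
      refine ⟨(φ⁻¹ c)⁻¹, ?_⟩
      have h3 : FreeGroup.of (hl h) = φ⁻¹ c * φ⁻¹ (FreeGroup.of (hl h)) * (φ⁻¹ c)⁻¹ := by
        rw [← _root_.map_inv, ← _root_.map_mul, ← _root_.map_mul, ← hc]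
        exact (MulAut.inv_apply_self _ _ _).symm
      conv_rhs => rw [h3]
      group

theorem up_Md {hl : η → α} {w : FreeGroup α} {φ : MulAut (FreeGroup α)} (hφ : φ ∈ Md hl w) :
    upE (sm α) φ ∈ Md (Option.map hl) (inc w * xx α) := by
  refine ⟨by rw [_root_.map_mul, up_inc, up_x, hφ.1], ?_⟩
  rintro (_ | h)
  · exact ⟨1, by
      show upE (sm α) φ (xx α) = _
      rw [up_x]
      show xx α = 1 * xx α * 1⁻¹
      simp⟩
  · obtain ⟨c, hc⟩ := hφ.2 h
    refine ⟨inc c, ?_⟩
    show upE (sm α) φ (FreeGroup.of (some (hl h))) = _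
    rw [← inc_of, up_inc, hc, _root_.map_mul, _root_.map_mul, _root_.map_inv]
    rfl

end gen

/-! ### the frames of the next level -/

namespace Fr

variable {α : Type} (D : Fr α)

/-- the new hole is not moved -/
def keep : Fr (Option α) where
  a := some D.a
  b := some D.b
  S := fun o => o.elim false D.S
  Y := inc D.Y
  R := inc D.R * xx α
  Z := inc D.Z

/-- the new hole is moved -/
def add : Fr (Option α) where
  a := some D.a
  b := some D.b
  S := fun o => o.elim true D.S
  Y := inc D.Y * xx α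
  R := inc D.R
  Z := inc D.Z

variable {D}

theorem inc_lt {p : α → Prop} {q : Option α → Prop} (h : ∀ l, p l → q (some l)) {u : FreeGroup α}
    (hu : u ∈ lt p) : inc u ∈ lt q := by
  refine Subgroup.closure_induction (p := fun u _ => inc u ∈ lt q) ?_ ?_ ?_ ?_ hu
  · rintro _ ⟨l, hl, rfl⟩
    rw [inc_of]
    exact of_mem_lt (h l hl)
  · rw [_root_.map_one]
    exact one_mem _
  · intro x y _ _ hx hy
    rw [_root_.map_mul]
    exact mul_mem hx hy
  · intro x _ hx
    rw [_root_.map_inv]
    exact inv_mem hx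

theorem keep_ok (h : D.Ok) : D.keep.Ok where
  ab := fun e => h.ab (Option.some.inj e)
  Sa := h.Sa
  Sb := h.Sb
  hY := inc_lt (fun _ hl => hl) h.hY
  hR := mul_mem (inc_lt (fun _ hl => ⟨hl.1, fun e => hl.2.1 (Option.some.inj e),
    fun e => hl.2.2 (Option.some.inj e)⟩) h.hR)
    (of_mem_lt ⟨rfl, (Option.some_ne_none _).symm, (Option.some_ne_none _).symm⟩)
  hZ := inc_lt (fun _ hl => ⟨hl.1, fun e => hl.2.1 (Option.some.inj e),
    fun e => hl.2.2 (Option.some.inj e)⟩) h.hZ

theorem add_ok (h : D.Ok) : D.add.Ok where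
  ab := fun e => h.ab (Option.some.inj e)
  Sa := h.Sa
  Sb := h.Sb
  hY := mul_mem (inc_lt (fun _ hl => hl) h.hY) (of_mem_lt rfl)
  hR := inc_lt (fun _ hl => ⟨hl.1, fun e => hl.2.1 (Option.some.inj e),
    fun e => hl.2.2 (Option.some.inj e)⟩) h.hR
  hZ := inc_lt (fun _ hl => ⟨hl.1, fun e => hl.2.1 (Option.some.inj e),
    fun e => hl.2.2 (Option.some.inj e)⟩) h.hZ

variable (D)

open Classical in
/-- κ (keep) -/
noncomputable def kH : FreeGroup (Option α) →* FreeGroup (Option α) :=
  FreeGroup.lift fun o => if o = some D.a then of (some D.a) * xx α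
    else if o = some D.b ∨ D.keep.S o = true then (xx α)⁻¹ * of o * xx α else of o

open Classical in
noncomputable def kI : FreeGroup (Option α) →* FreeGroup (Option α) :=
  FreeGroup.lift fun o => if o = some D.a then of (some D.a) * (xx α)⁻¹
    else if o = some D.b ∨ D.keep.S o = true then xx α * of o * (xx α)⁻¹ else of o

open Classical in
/-- κ' (add) -/
noncomputable def pH : FreeGroup (Option α) →* FreeGroup (Option α) :=
  FreeGroup.lift fun o => if o = some D.b then (xx α)⁻¹ * of (some D.b) else of o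

open Classical in
noncomputable def pI : FreeGroup (Option α) →* FreeGroup (Option α) :=
  FreeGroup.lift fun o => if o = some D.b then xx α * of (some D.b) else of o

variable {D}

theorem kH_a : D.kH (of (some D.a)) = of (some D.a) * xx α := by
  rw [kH, lift_apply_of, if_pos rfl]

theorem kI_a : D.kI (of (some D.a)) = of (some D.a) * (xx α)⁻¹ := by
  rw [kI, lift_apply_of, if_pos rfl]

theorem kH_m (h : D.Ok) {o : Option α} (ho : o = some D.b ∨ D.keep.S o = true) :
    D.kH (of o) = (xx α)⁻¹ * of o * xx α := by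
  have h1 : o ≠ some D.a := by
    rintro rfl
    rcases ho with ho | ho
    · exact h.ab (Option.some.inj ho)
    · exact Bool.false_ne_true (h.Sa.symm.trans ho)
  rw [kH, lift_apply_of, if_neg h1, if_pos ho]

theorem kI_m (h : D.Ok) {o : Option α} (ho : o = some D.b ∨ D.keep.S o = true) :
    D.kI (of o) = xx α * of o * (xx α)⁻¹ := by
  have h1 : o ≠ some D.a := by
    rintro rfl
    rcases ho with ho | ho
    · exact h.ab (Option.some.inj ho)
    · exact Bool.false_ne_true (h.Sa.symm.trans ho)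
  rw [kI, lift_apply_of, if_neg h1, if_pos ho]

theorem kH_r {o : Option α} (h1 : o ≠ some D.a) (ho : ¬ (o = some D.b ∨ D.keep.S o = true)) :
    D.kH (of o) = of o := by
  rw [kH, lift_apply_of, if_neg h1, if_neg ho]

theorem kI_r {o : Option α} (h1 : o ≠ some D.a) (ho : ¬ (o = some D.b ∨ D.keep.S o = true)) :
    D.kI (of o) = of o := by
  rw [kI, lift_apply_of, if_neg h1, if_neg ho]

theorem kH_x : D.kH (xx α) = xx α := by
  refine kH_r (Option.some_ne_none _).symm ?_
  rintro (h | h)
  · exact Option.some_ne_none _ h.symm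
  · exact Bool.false_ne_true h

theorem kI_x : D.kI (xx α) = xx α := by
  refine kI_r (Option.some_ne_none _).symm ?_
  rintro (h | h)
  · exact Option.some_ne_none _ h.symm
  · exact Bool.false_ne_true h

theorem kI_kH (h : D.Ok) : D.kI.comp D.kH = MonoidHom.id _ := by
  refine fx fun o => ?_
  rw [MonoidHom.comp_apply, MonoidHom.id_apply]
  by_cases h1 : o = some D.a
  · subst h1
    rw [kH_a, _root_.map_mul, kI_a, kI_x]
    group
  by_cases h2 : o = some D.b ∨ D.keep.S o = true
  · rw [kH_m h h2]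
    simp only [_root_.map_mul, _root_.map_inv, kI_x, kI_m h h2]
    group
  · rw [kH_r h1 h2, kI_r h1 h2]

theorem kH_kI (h : D.Ok) : D.kH.comp D.kI = MonoidHom.id _ := by
  refine fx fun o => ?_
  rw [MonoidHom.comp_apply, MonoidHom.id_apply]
  by_cases h1 : o = some D.a
  · subst h1
    rw [kI_a]
    simp only [_root_.map_mul, _root_.map_inv, kH_a, kH_x]
    group
  by_cases h2 : o = some D.b ∨ D.keep.S o = true
  · rw [kI_m h h2]
    simp only [_root_.map_mul, _root_.map_inv, kH_x, kH_m h h2]
    group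
  · rw [kI_r h1 h2, kH_r h1 h2]

noncomputable def kA (D : Fr α) (h : D.Ok) : MulAut (FreeGroup (Option α)) :=
  MonoidHom.toMulEquiv D.kH D.kI (kI_kH h) (kH_kI h)

theorem kA_apply (h : D.Ok) (u : FreeGroup (Option α)) : D.kA h u = D.kH u := rfl

theorem kH_keepS (h : D.Ok) {u : FreeGroup (Option α)}
    (hu : u ∈ lt (fun o => D.keep.S o = true)) : D.kH u = (xx α)⁻¹ * u * xx α := by
  have := lt_ind (f := D.kH) (g := (MulAut.conj (xx α)⁻¹).toMonoidHom)
    (fun l hl => by
      rw [kH_m h (Or.inr hl)]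
      show _ = (xx α)⁻¹ * of l * (xx α)⁻¹⁻¹
      rw [inv_inv]) hu
  rw [this]
  show (xx α)⁻¹ * u * (xx α)⁻¹⁻¹ = _
  rw [inv_inv]

theorem kH_rest {u : FreeGroup (Option α)} (hu : u ∈ lt (fun o => D.keep.S o = false ∧
    o ≠ D.keep.a ∧ o ≠ D.keep.b)) : D.kH u = u :=
  lt_ind (f := D.kH) (g := MonoidHom.id _) (fun l hl => kH_r hl.2.1 (by
    rintro (h | h)
    · exact hl.2.2 h
    · rw [hl.1] at h
      exact Bool.false_ne_true h)) hu

theorem kA_om0 (h : D.Ok) : D.kA h D.keep.om0 = inc D.om0 * xx α := by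
  rw [kA_apply, om0]
  simp only [_root_.map_mul, _root_.map_inv, kH_rest (keep_ok h).hZ, kH_rest (keep_ok h).hR,
    kH_keepS h (keep_ok h).hY]
  have e1 : D.kH (of D.keep.a) = of (some D.a) * xx α := kH_a
  have e2 : D.kH (of D.keep.b) = (xx α)⁻¹ * of (some D.b) * xx α := kH_m h (Or.inl rfl)
  rw [e1, e2, om0]
  simp only [_root_.map_mul, _root_.map_inv, inc_of]
  show inc D.Z * _ * ((xx α)⁻¹ * inc D.Y * xx α) * _ * _ * (inc D.R * xx α) * _ = _
  group

/-- κ W' = up(W) κ -/
theorem kA_W (h : D.Ok) : D.kA h * D.keep.W (keep_ok h) = upE (sm α) (D.W h) * D.kA h := by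
  refine aut_ext fun o => ?_
  rw [MulAut.mul_apply, MulAut.mul_apply, W_apply, kA_apply, kA_apply]
  have ea : D.keep.a = some D.a := rfl
  have eb : D.keep.b = some D.b := rfl
  have e2 : D.kH (of (some D.b)) = (xx α)⁻¹ * of (some D.b) * xx α := kH_m h (Or.inl rfl)
  have u1 : ∀ l : α, upE (sm α) (D.W h) (of (some l)) = inc (D.WH (of l)) := fun l => by
    rw [← inc_of, up_inc]
    rfl
  have ub : upE (sm α) (D.W h) (of (some D.b)) = of (some D.b) := by
    rw [u1, WH_b h, inc_of]
  rcases o with _ | l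
  · have h1 : D.keep.WH (of none) = of none := WH_r rfl (Option.some_ne_none _).symm
    have h2 : D.kH (of none) = of none := kH_x
    rw [h1, h2]
    exact (up_x _).symm
  rcases D.cases l with rfl | hl | ⟨hl, h1⟩
  · have h1 : D.keep.WH (of (some D.a)) =
        of (some D.a) * (of (some D.b))⁻¹ * (inc D.Y)⁻¹ * of (some D.b) := WH_a
    rw [h1]
    simp only [_root_.map_mul, _root_.map_inv, kH_a, e2, u1, WH_a,
      up_x, inc_of]
    have h3 : D.kH (inc D.Y) = (xx α)⁻¹ * inc D.Y * xx α := kH_keepS h (keep_ok h).hY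
    rw [h3]
    group
  · have hk : D.keep.S (some l) = true := hl
    have h1 : D.keep.WH (of (some l)) = (of (some D.b))⁻¹ * of (some l) * of (some D.b) :=
      WH_S (keep_ok h) hk
    rw [h1]
    simp only [_root_.map_mul, _root_.map_inv, e2, kH_m h (Or.inr hk), u1, WH_S h hl, up_x, inc_of]
    group
  · have hk : D.keep.S (some l) = false := hl
    have h2 : some l ≠ D.keep.a := fun e => h1 (Option.some.inj e)
    rw [WH_r hk h2]
    by_cases hb : l = D.b
    · subst hb
      rw [e2]
      simp only [_root_.map_mul, _root_.map_inv, ub, up_x]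
    · have h3 : D.kH (of (some l)) = of (some l) := kH_r h2 (by
        rintro (e | e)
        · exact hb (Option.some.inj e)
        · rw [hk] at e
          exact Bool.false_ne_true e)
      rw [h3, u1, WH_r hl h1, inc_of]

/-! ### add -/

theorem pH_b : D.pH (of (some D.b)) = (xx α)⁻¹ * of (some D.b) := by
  rw [pH, lift_apply_of, if_pos rfl]

theorem pI_b : D.pI (of (some D.b)) = xx α * of (some D.b) := by
  rw [pI, lift_apply_of, if_pos rfl]

theorem pH_r {o : Option α} (h1 : o ≠ some D.b) : D.pH (of o) = of o := by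
  rw [pH, lift_apply_of, if_neg h1]

theorem pI_r {o : Option α} (h1 : o ≠ some D.b) : D.pI (of o) = of o := by
  rw [pI, lift_apply_of, if_neg h1]

theorem pH_x : D.pH (xx α) = xx α := pH_r (Option.some_ne_none _).symm

theorem pI_x : D.pI (xx α) = xx α := pI_r (Option.some_ne_none _).symm

theorem pI_pH : D.pI.comp D.pH = MonoidHom.id _ := by
  refine fx fun o => ?_
  rw [MonoidHom.comp_apply, MonoidHom.id_apply]
  by_cases h1 : o = some D.b
  · subst h1
    rw [pH_b]
    simp only [_root_.map_mul, _root_.map_inv, pI_b, pI_x]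
    group
  · rw [pH_r h1, pI_r h1]

theorem pH_pI : D.pH.comp D.pI = MonoidHom.id _ := by
  refine fx fun o => ?_
  rw [MonoidHom.comp_apply, MonoidHom.id_apply]
  by_cases h1 : o = some D.b
  · subst h1
    rw [pI_b]
    simp only [_root_.map_mul, pH_b, pH_x]
    group
  · rw [pI_r h1, pH_r h1]

noncomputable def pA (D : Fr α) : MulAut (FreeGroup (Option α)) :=
  MonoidHom.toMulEquiv D.pH D.pI pI_pH pH_pI

theorem pA_apply (u : FreeGroup (Option α)) : D.pA u = D.pH u := rfl

theorem pH_lt {p : Option α → Prop} (hp : ¬ p (some D.b)) {u : FreeGroup (Option α)}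
    (hu : u ∈ lt p) : D.pH u = u :=
  lt_ind (f := D.pH) (g := MonoidHom.id _) (fun l hl => pH_r (by
    rintro rfl
    exact hp hl)) hu

theorem pA_om0 (h : D.Ok) : D.pA D.add.om0 = inc D.om0 * xx α := by
  rw [pA_apply, om0]
  have hS : ¬ (D.add.S (some D.b) = true) := by
    show ¬ (D.S D.b = true)
    rw [h.Sb]
    exact Bool.false_ne_true
  have hR : ¬ (D.add.S (some D.b) = false ∧ some D.b ≠ D.add.a ∧ some D.b ≠ D.add.b) :=
    fun h' => h'.2.2 rfl
  simp only [_root_.map_mul, _root_.map_inv, pH_lt hR (add_ok h).hZ, pH_lt hR (add_ok h).hR,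
    pH_lt hS (add_ok h).hY]
  have e1 : D.pH (of D.add.a) = of (some D.a) := pH_r (fun e => h.ab (Option.some.inj e))
  have e2 : D.pH (of D.add.b) = (xx α)⁻¹ * of (some D.b) := pH_b
  rw [e1, e2, om0]
  simp only [_root_.map_mul, _root_.map_inv, inc_of]
  show inc D.Z * _ * (inc D.Y * xx α) * _ * _ * inc D.R * _ = _
  group

theorem cp_pH (u : FreeGroup (Option α)) : cp (D.pH u) = cp u := by
  have : (cp (α := α)).comp D.pH = cp := fx fun o => by
    rw [MonoidHom.comp_apply]
    by_cases h1 : o = some D.b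
    · subst h1
      rw [pH_b, _root_.map_mul, _root_.map_inv, cp_x]
      simp
    · rw [pH_r h1]
  exact DFunLike.congr_fun this u

theorem cp_W (h : D.Ok) (u : FreeGroup (Option α)) :
    cp (D.add.W (add_ok h) u) = D.W h (cp u) := by
  have : (cp (α := α)).comp D.add.WH = D.WH.comp cp := fx fun o => by
    rw [MonoidHom.comp_apply, MonoidHom.comp_apply]
    rcases o with _ | l
    · have h1 : D.add.WH (of none) = (of (some D.b))⁻¹ * of none * of (some D.b) :=
        WH_S (add_ok h) rfl
      have h2 : cp (of (none : Option α)) = 1 := cp_x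
      rw [h1, _root_.map_mul, _root_.map_mul, h2, _root_.map_one, _root_.map_inv]
      group
    rw [cp_some]
    rcases D.cases l with rfl | hl | ⟨hl, h1⟩
    · have h1 : D.add.WH (of (some D.a)) =
          of (some D.a) * (of (some D.b))⁻¹ * (inc D.Y * xx α)⁻¹ * of (some D.b) := WH_a
      rw [h1, WH_a]
      simp only [_root_.map_mul, _root_.map_inv, cp_some, cp_inc, cp_x, mul_one]
    · have h1 : D.add.WH (of (some l)) = (of (some D.b))⁻¹ * of (some l) * of (some D.b) :=
        WH_S (add_ok h) hl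
      rw [h1, WH_S h hl]
      simp only [_root_.map_mul, _root_.map_inv, cp_some]
    · have h2 : some l ≠ D.add.a := fun e => h1 (Option.some.inj e)
      rw [WH_r (D := D.add) (l := some l) hl h2, WH_r hl h1, cp_some]
  exact DFunLike.congr_fun this u

end Fr

end Pool.Agent.TOW
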