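import Mathlib
import Pool.Agent.Helper76_TOR.TwL

/-! TOW: block pushes on a holed surface. -/

set_option autoImplicit false

namespace Pool.Agent.TOW

open FreeGroup Pool.Agent.TST

/-- a block push of the holed surface (hl, w) in adapted coordinates θ -/
structure Lev {α η : Type} (hl : η → α) (w : FreeGroup α) where
  D : Fr α
  ok : D.Ok
  θ : MulAut (FreeGroup α)
  hθ : θ D.om0 = w
  hole : ∀ h, hl h ≠ D.a ∧ hl h ≠ D.b
  cj : ∀ h, ∃ d, θ (FreeGroup.of (hl h)) = d * FreeGroup.of (hl h) * d⁻¹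

namespace Lev

variable {α η : Type} {hl : η → α} {w : FreeGroup α} (L : Lev hl w)

/-- the block push -/
noncomputable def bp : MulAut (FreeGroup α) := L.θ * L.D.W L.ok * L.θ⁻¹

/-- its loop -/
def gam : FreeGroup α := L.θ (FreeGroup.of L.D.b)

theorem bp_θ (u : FreeGroup α) : L.bp (L.θ u) = L.θ (L.D.WH u) := by
  show L.θ (L.D.W L.ok (L.θ⁻¹ (L.θ u))) = _
  rw [MulAut.inv_apply_self]
  rfl

theorem W_hole (h : η) : ∃ v, L.D.WH (FreeGroup.of (hl h)) = v * FreeGroup.of (hl h) * v⁻¹ := by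
  rcases L.D.cases (hl h) with h1 | h1 | ⟨h1, h2⟩
  · exact absurd h1 (L.hole h).1
  · refine ⟨(of L.D.b)⁻¹, ?_⟩
    rw [Fr.WH_S L.ok h1, inv_inv]
  · refine ⟨1, ?_⟩
    rw [Fr.WH_r h1 h2]
    simp

theorem bp_mem : L.bp ∈ Md hl w := by
  refine ⟨?_, fun h => ?_⟩
  · have h0 := Fr.W_om0 L.ok
    rw [Fr.W_apply] at h0
    have h1 := L.bp_θ L.D.om0
    rw [h0] at h1
    exact (congrArg L.bp L.hθ).symm.trans (h1.trans L.hθ)
  · obtain ⟨d, hd⟩ := L.cj h
    obtain ⟨v, hv⟩ := L.W_hole h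
    have h1 : FreeGroup.of (hl h) = d⁻¹ * L.θ (FreeGroup.of (hl h)) * d := by
      rw [hd]; group
    refine ⟨(L.bp d)⁻¹ * L.θ v * d, ?_⟩
    conv_lhs => rw [h1]
    rw [_root_.map_mul, _root_.map_mul, _root_.map_inv, L.bp_θ, hv, _root_.map_mul,
      _root_.map_mul, _root_.map_inv, hd]
    group

/-- next level, new hole not moved -/
noncomputable def keep : Lev (Option.map hl) (inc w * xx α) where
  D := L.D.keep
  ok := Fr.keep_ok L.ok
  θ := upE (sm α) L.θ * L.D.kA L.ok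
  hθ := by
    rw [MulAut.mul_apply, Fr.kA_om0, _root_.map_mul, up_inc, up_x, L.hθ]
  hole := by
    rintro (_ | h)
    · exact ⟨(Option.some_ne_none _).symm, (Option.some_ne_none _).symm⟩
    · exact ⟨fun e => (L.hole h).1 (Option.some.inj e), fun e => (L.hole h).2 (Option.some.inj e)⟩
  cj := by
    rintro (_ | h)
    · refine ⟨1, ?_⟩
      show upE (sm α) L.θ (L.D.kA L.ok (xx α)) = 1 * xx α * 1⁻¹
      rw [Fr.kA_apply, Fr.kH_x, up_x]
      simp
    · obtain ⟨d, hd⟩ := L.cj h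
      show ∃ d, upE (sm α) L.θ (L.D.kH (of (some (hl h)))) = d * of (some (hl h)) * d⁻¹
      have h1 : upE (sm α) L.θ (of (some (hl h))) = inc d * of (some (hl h)) * (inc d)⁻¹ := by
        rw [← inc_of, up_inc, hd, _root_.map_mul, _root_.map_mul, _root_.map_inv]
      by_cases hS : L.D.keep.S (some (hl h)) = true
      · refine ⟨(xx α)⁻¹ * inc d, ?_⟩
        rw [Fr.kH_m L.ok (Or.inr hS)]
        simp only [_root_.map_mul, _root_.map_inv, up_x, h1]
        group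
      · refine ⟨inc d, ?_⟩
        rw [Fr.kH_r (fun e => (L.hole h).1 (Option.some.inj e)) (by
          rintro (e | e)
          · exact (L.hole h).2 (Option.some.inj e)
          · exact hS e), h1]

/-- next level, new hole moved -/
noncomputable def add : Lev (Option.map hl) (inc w * xx α) where
  D := L.D.add
  ok := Fr.add_ok L.ok
  θ := upE (sm α) L.θ * L.D.pA
  hθ := by
    rw [MulAut.mul_apply, Fr.pA_om0 L.ok, _root_.map_mul, up_inc, up_x, L.hθ]
  hole := by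
    rintro (_ | h)
    · exact ⟨(Option.some_ne_none _).symm, (Option.some_ne_none _).symm⟩
    · exact ⟨fun e => (L.hole h).1 (Option.some.inj e), fun e => (L.hole h).2 (Option.some.inj e)⟩
  cj := by
    rintro (_ | h)
    · refine ⟨1, ?_⟩
      show upE (sm α) L.θ (L.D.pA (xx α)) = 1 * xx α * 1⁻¹
      rw [Fr.pA_apply, Fr.pH_x, up_x]
      simp
    · obtain ⟨d, hd⟩ := L.cj h
      refine ⟨inc d, ?_⟩
      show upE (sm α) L.θ (L.D.pH (of (some (hl h)))) = inc d * of (some (hl h)) * (inc d)⁻¹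
      rw [Fr.pH_r (fun e => (L.hole h).2 (Option.some.inj e)), ← inc_of, up_inc, hd,
        _root_.map_mul, _root_.map_mul, _root_.map_inv]

theorem keep_bp : L.keep.bp = upE (sm α) L.bp := by
  have h := Fr.kA_W L.ok
  show (upE (sm α) L.θ * L.D.kA L.ok) * L.D.keep.W (Fr.keep_ok L.ok) *
    (upE (sm α) L.θ * L.D.kA L.ok)⁻¹ = upE (sm α) (L.θ * L.D.W L.ok * L.θ⁻¹)
  rw [_root_.map_mul, _root_.map_mul, _root_.map_inv, mul_assoc (upE (sm α) L.θ), h]
  group

theorem add_cp (u : FreeGroup (Option α)) : cp (L.add.bp u) = L.bp (cp u) := by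
  show cp ((upE (sm α) L.θ * L.D.pA) (L.D.add.W (Fr.add_ok L.ok)
    ((upE (sm α) L.θ * L.D.pA)⁻¹ u))) = L.θ (L.D.W L.ok (L.θ⁻¹ (cp u)))
  rw [MulAut.mul_apply, cp_up, Fr.pA_apply, Fr.cp_pH, Fr.cp_W L.ok]
  congr 2
  have h1 : cp u = L.θ (cp ((upE (sm α) L.θ * L.D.pA)⁻¹ u)) := by
    conv_lhs => rw [← MulAut.apply_inv_self _ (upE (sm α) L.θ * L.D.pA) u]
    rw [MulAut.mul_apply, cp_up, Fr.pA_apply, Fr.cp_pH]
  rw [h1, MulAut.inv_apply_self]

theorem add_x : L.add.bp (xx α) = (inc L.gam)⁻¹ * xx α * inc L.gam := by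
  have h1 : L.add.θ (xx α) = xx α := by
    show upE (sm α) L.θ (L.D.pA (xx α)) = xx α
    rw [Fr.pA_apply, Fr.pH_x, up_x]
  have h2 : L.D.add.WH (xx α) = (of (some L.D.b))⁻¹ * xx α * of (some L.D.b) :=
    Fr.WH_S (Fr.add_ok L.ok) rfl
  have h0 : L.add.bp (xx α) = L.add.θ (L.D.add.WH (xx α)) :=
    (congrArg L.add.bp h1).symm.trans (L.add.bp_θ (xx α))
  refine h0.trans ?_
  show upE (sm α) L.θ (L.D.pA (L.D.add.WH (xx α))) = _
  rw [h2, Fr.pA_apply]
  simp only [_root_.map_mul, _root_.map_inv, Fr.pH_b, Fr.pH_x, up_x]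
  have h3 : upE (sm α) L.θ (of (some L.D.b)) = inc L.gam := by
    rw [← inc_of, up_inc]
    rfl
  rw [h3]
  group

theorem keep_gam : L.keep.gam = (xx α)⁻¹ * inc L.gam * xx α := by
  show upE (sm α) L.θ (L.D.kH (of (some L.D.b))) = _
  rw [Fr.kH_m L.ok (Or.inl rfl)]
  simp only [_root_.map_mul, _root_.map_inv, up_x]
  rw [← inc_of, up_inc]
  rfl

theorem add_gam : L.add.gam = (xx α)⁻¹ * inc L.gam := by
  show upE (sm α) L.θ (L.D.pH (of (some L.D.b))) = _
  rw [Fr.pH_b]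
  simp only [_root_.map_mul, _root_.map_inv, up_x]
  rw [← inc_of, up_inc]
  rfl

/-! ### the adapted basis -/

open Classical in
/-- rank of the letters -/
noncomputable def rk (l : α) : ℕ :=
  if l = L.D.a then 3 else if L.D.S l = true then 2 else if l = L.D.b then 1 else 0

/-- the adapted basis -/
def bs (l : α) : FreeGroup α := L.θ (FreeGroup.of l)

theorem bs_gen : Subgroup.closure (Set.range L.bs) = ⊤ := by
  rw [eq_top_iff]
  intro u _
  have h1 : L.θ⁻¹ u ∈ Subgroup.closure (Set.range (FreeGroup.of : α → FreeGroup α)) := by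
    rw [FreeGroup.closure_range_of]; trivial
  have h2 : L.θ (L.θ⁻¹ u) ∈ (Subgroup.closure (Set.range (FreeGroup.of : α → FreeGroup α))).map
      L.θ.toMonoidHom := ⟨_, h1, rfl⟩
  rw [MulAut.apply_inv_self, MonoidHom.map_closure] at h2
  refine Subgroup.closure_mono ?_ h2
  rintro _ ⟨_, ⟨l, rfl⟩, rfl⟩
  exact ⟨l, rfl⟩

theorem bs_ext {K : Type} [Group K] (f : α → K) : ∃ F : FreeGroup α →* K, ∀ l, F (L.bs l) = f l := by
  refine ⟨(FreeGroup.lift f).comp (L.θ⁻¹ : MulAut (FreeGroup α)).toMonoidHom, fun l => ?_⟩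
  show FreeGroup.lift f (L.θ⁻¹ (L.θ (FreeGroup.of l))) = f l
  rw [MulAut.inv_apply_self, lift_apply_of]

theorem θ_lt {p q : α → Prop} (h : ∀ l, p l → q l) {u : FreeGroup α} (hu : u ∈ lt p) :
    L.θ u ∈ Subgroup.closure {g | ∃ l, q l ∧ g = L.bs l} := by
  have h2 : L.θ u ∈ (lt p).map L.θ.toMonoidHom := ⟨_, hu, rfl⟩
  rw [lt, MonoidHom.map_closure] at h2
  refine Subgroup.closure_mono ?_ h2
  rintro _ ⟨_, ⟨l, hl, rfl⟩, rfl⟩
  exact ⟨l, h l hl, rfl⟩

theorem lt_union {p q : α → Prop} {u v : FreeGroup α} (hu : u ∈ lt p) (hv : v ∈ lt q) :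
    u * v ∈ lt (fun l => p l ∨ q l) :=
  mul_mem (Subgroup.closure_mono (by
    rintro _ ⟨l, hl, rfl⟩
    exact ⟨l, Or.inl hl, rfl⟩) hu) (Subgroup.closure_mono (by
    rintro _ ⟨l, hl, rfl⟩
    exact ⟨l, Or.inr hl, rfl⟩) hv)

theorem rk_b : L.rk L.D.b = 1 := by
  unfold rk
  rw [if_neg L.ok.ab.symm, if_neg (by rw [L.ok.Sb]; exact Bool.false_ne_true), if_pos rfl]

theorem rk_a : L.rk L.D.a = 3 := by
  unfold rk
  rw [if_pos rfl]

theorem rk_S {l : α} (h : L.D.S l = true) : L.rk l = 2 := by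
  unfold rk
  rw [if_neg (fun e => by rw [e, L.ok.Sa] at h; exact Bool.false_ne_true h), if_pos h]

/-- triangularity -/
theorem bp_tri (l : α) : ∃ u v : FreeGroup α,
    u ∈ Subgroup.closure {g | ∃ l', L.rk l' < L.rk l ∧ g = L.bs l'} ∧
    v ∈ Subgroup.closure {g | ∃ l', L.rk l' < L.rk l ∧ g = L.bs l'} ∧
    L.bp (L.bs l) = u * L.bs l * v ∧ (u = 1 ∨ u = L.gam⁻¹) := by
  have e : L.bp (L.bs l) = L.θ (L.D.WH (of l)) := L.bp_θ _
  rcases L.D.cases l with rfl | hl | ⟨hl, h1⟩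
  · refine ⟨1, L.θ ((of L.D.b)⁻¹ * L.D.Y⁻¹ * of L.D.b), one_mem _, ?_, ?_, Or.inl rfl⟩
    · have hm : (of L.D.b)⁻¹ * L.D.Y⁻¹ * of L.D.b ∈ lt (fun l => L.D.S l = true ∨ l = L.D.b) := by
        have hb : of L.D.b ∈ lt (fun l => L.D.S l = true ∨ l = L.D.b) := of_mem_lt (Or.inr rfl)
        have hY : L.D.Y ∈ lt (fun l => L.D.S l = true ∨ l = L.D.b) :=
          Subgroup.closure_mono (by
            rintro _ ⟨l, hl, rfl⟩
            exact ⟨l, Or.inl hl, rfl⟩) L.ok.hY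
        exact mul_mem (mul_mem (inv_mem hb) (inv_mem hY)) hb
      refine L.θ_lt ?_ hm
      rintro l (hl | rfl)
      · rw [L.rk_S hl, L.rk_a]
        norm_num
      · rw [L.rk_b, L.rk_a]
        norm_num
    · rw [e, Fr.WH_a]
      show _ = 1 * L.θ (of L.D.a) * _
      simp only [_root_.map_mul, _root_.map_inv]
      group
  · refine ⟨L.gam⁻¹, L.gam, ?_, ?_, ?_, Or.inr rfl⟩
    · refine inv_mem (Subgroup.subset_closure ⟨L.D.b, ?_, rfl⟩)
      rw [L.rk_S hl, L.rk_b]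
      norm_num
    · refine Subgroup.subset_closure ⟨L.D.b, ?_, rfl⟩
      rw [L.rk_S hl, L.rk_b]
      norm_num
    · rw [e, Fr.WH_S L.ok hl]
      simp only [_root_.map_mul, _root_.map_inv]
      rfl
  · refine ⟨1, 1, one_mem _, one_mem _, ?_, Or.inl rfl⟩
    rw [e, Fr.WH_r hl h1]
    show L.θ (of l) = 1 * L.θ (of l) * 1
    simp

end Lev

end Pool.Agent.TOW
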