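import Mathlib
import Pool.Agent.Helper76_TOR.TwV

/-! TOW: restriction of the push map of the closed-up surface to the holed surface. -/

set_option autoImplicit false

namespace Pool.Agent.TOW

open FreeGroup Pool.Agent.TST

variable {α η : Type}

/-- the closed-up holes y x⁻¹ y⁻¹ -/
def zh (hl : η → α) (h : η) : FreeGroup (α ⊕ η) :=
  of (Sum.inr h) * (of (Sum.inl (hl h)))⁻¹ * (of (Sum.inr h))⁻¹

/-- κ : π⁺ → F⁺ -/
def kap (η : Type) : FreeGroup (Option α) →* FreeGroup (Option (α ⊕ η)) :=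
  FreeGroup.map (Option.map Sum.inl)

theorem kap_inj : Function.Injective (kap (α := α) η) :=
  FreeGroup.map_injective (Option.map_injective Sum.inl_injective)

theorem jn_inj : Function.Injective (jn (ι := α) η) :=
  FreeGroup.map_injective Sum.inl_injective

theorem kap_inc (u : FreeGroup α) : kap η (inc u) = inc (jn η u) := by
  have : (kap η).comp (inc (α := α)) = inc.comp (jn η) := fx fun a => by
    rw [MonoidHom.comp_apply, MonoidHom.comp_apply, inc_of, mof, inc_of, kap, FreeGroup.map.of]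
    rfl
  exact DFunLike.congr_fun this u

theorem kap_x : kap η (xx α) = xx (α ⊕ η) := by
  rw [kap, FreeGroup.map.of]
  rfl

theorem cp_kap (u : FreeGroup (Option α)) : cp (kap η u) = jn η (cp u) := by
  have : (cp (α := α ⊕ η)).comp (kap η) = (jn η).comp cp := fx fun o => by
    rw [MonoidHom.comp_apply, MonoidHom.comp_apply]
    rcases o with _ | a
    · show cp (kap η (xx α)) = jn η (cp (xx α))
      rw [kap_x, cp_x, cp_x, _root_.map_one]
    · rw [← inc_of, kap_inc, cp_inc, cp_inc]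
  exact DFunLike.congr_fun this u

theorem kap_up {φ : MulAut (FreeGroup α)} {Φ : MulAut (FreeGroup (α ⊕ η))}
    (h : ∀ u, Φ (jn η u) = jn η (φ u)) (u : FreeGroup (Option α)) :
    upE (sm (α ⊕ η)) Φ (kap η u) = kap η (upE (sm α) φ u) := by
  have : (upE (sm (α ⊕ η)) Φ).toMonoidHom.comp (kap η) =
      (kap η).comp (upE (sm α) φ).toMonoidHom := fx fun o => by
    show upE (sm (α ⊕ η)) Φ (kap η (of o)) = kap η (upE (sm α) φ (of o))
    rcases o with _ | a
    · show upE (sm (α ⊕ η)) Φ (kap η (xx α)) = kap η (upE (sm α) φ (xx α))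
      rw [kap_x, up_x, up_x, kap_x]
    · rw [← inc_of, kap_inc, up_inc, up_inc, kap_inc, h]
  exact DFunLike.congr_fun this u

/-! ### extension of mapping classes of the holed surface -/

theorem ext_F {hl : η → α} {w : FreeGroup α} {φ : MulAut (FreeGroup α)} (hφ : φ ∈ Md hl w) :
    ∃ Φ : MulAut (FreeGroup (α ⊕ η)), (∀ u, Φ (jn η u) = jn η (φ u)) ∧
      ∀ h, Φ (zh hl h) = zh hl h := by
  choose c hc using hφ.2
  refine ⟨psi φ (fun _ => 1) (fun h => (c h)⁻¹), psi_jn _ _ _, fun h => ?_⟩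
  unfold zh
  have h1 : (of (Sum.inl (hl h)) : FreeGroup (α ⊕ η)) = jn η (of (hl h)) := by rw [mof]
  rw [_root_.map_mul, _root_.map_mul, _root_.map_inv, _root_.map_inv, psi_t, h1, psi_jn, hc]
  simp only [_root_.map_mul, _root_.map_inv, _root_.map_one]
  group

theorem fix_closure {G : Type} [Group G] {s : Set G} {f : G →* G} (h : ∀ x ∈ s, f x = x) {u : G}
    (hu : u ∈ Subgroup.closure s) : f u = u := by
  have := MonoidHom.eqOn_closure (f := f) (g := MonoidHom.id G) (s := s) fun x hx => h x hx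
  exact this hu

/-- relabelling -/
def rl (α η : Type) : Option α ⊕ η ≃ Option (α ⊕ η) where
  toFun := Sum.elim (Option.map Sum.inl) (fun h => some (Sum.inr h))
  invFun o := match o with
    | none => Sum.inl none
    | some (Sum.inl a) => Sum.inl (some a)
    | some (Sum.inr h) => Sum.inr h
  left_inv := by
    rintro ((_ | a) | h) <;> rfl
  right_inv := by
    rintro (_ | (a | h)) <;> rfl

def rlG (α η : Type) : FreeGroup (Option α ⊕ η) ≃* FreeGroup (Option (α ⊕ η)) :=
  FreeGroup.freeGroupCongr (rl α η)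

theorem rlG_of (o : Option α ⊕ η) : rlG α η (of o) = of (rl α η o) :=
  FreeGroup.map.of

theorem rlG_jn (u : FreeGroup (Option α)) : rlG α η (jn η u) = kap η u := by
  have : (rlG α η).toMonoidHom.comp (jn η) = kap η := fx fun o => by
    show rlG α η (jn η (of o)) = kap η (of o)
    rw [mof, rlG_of, kap, FreeGroup.map.of]
    rfl
  exact DFunLike.congr_fun this u

theorem ext_P {hl : η → α} {w : FreeGroup α} {χ : MulAut (FreeGroup (Option α))}
    (hχ : χ ∈ Md (Option.map hl) (inc w * xx α)) (hcap : ∀ u, cp (χ u) = cp u) :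
    ∃ X : MulAut (FreeGroup (Option (α ⊕ η))), (∀ u, X (kap η u) = kap η (χ u)) ∧
      (∀ h, X (inc (zh hl h)) = inc (zh hl h)) ∧ ∀ u, cp (X u) = cp u := by
  have h2 := hχ.2
  have hc : ∀ h : η, ∃ c, χ (of (some (hl h))) = c * of (some (hl h)) * c⁻¹ ∧ cp c = 1 := by
    intro h
    obtain ⟨c, hc⟩ := h2 (some h)
    change χ (of (some (hl h))) = c * of (some (hl h)) * c⁻¹ at hc
    have h3 := hcap (of (some (hl h)))
    rw [hc, _root_.map_mul, _root_.map_mul, _root_.map_inv, cp_some] at h3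
    -- cp c commutes with the hole
    have h4 : inc (cp c) * of (some (hl h)) * (inc (cp c))⁻¹ = of (some (hl h)) := by
      rw [← inc_of, ← _root_.map_inv, ← _root_.map_mul, ← _root_.map_mul, h3]
    have h5 : (inc (cp c))⁻¹ * of (some (hl h)) * inc (cp c) = of (some (hl h)) := by
      conv_lhs => rw [← h4]
      group
    refine ⟨c * (inc (cp c))⁻¹, ?_, ?_⟩
    · rw [hc]
      have : c * (inc (cp c))⁻¹ * of (some (hl h)) * (c * (inc (cp c))⁻¹)⁻¹ =
          c * ((inc (cp c))⁻¹ * of (some (hl h)) * inc (cp c)) * c⁻¹ := by group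
      rw [this, h5]
    · rw [_root_.map_mul, _root_.map_inv, cp_inc, mul_inv_cancel]
  choose c hc1 hc2 using hc
  let Ψ : MulAut (FreeGroup (Option α ⊕ η)) := psi χ (fun _ => 1) (fun h => (c h)⁻¹)
  let X : MulAut (FreeGroup (Option (α ⊕ η))) := ((rlG α η).symm.trans Ψ).trans (rlG α η)
  have hX : ∀ u, X (rlG α η u) = rlG α η (Ψ u) := fun u => by
    show rlG α η (Ψ ((rlG α η).symm (rlG α η u))) = _
    rw [MulEquiv.symm_apply_apply]
  have hy : ∀ h : η, inc (of (Sum.inr h) : FreeGroup (α ⊕ η)) = rlG α η (of (Sum.inr h)) :=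
    fun h => by
      rw [inc_of, rlG_of]
      rfl
  have hXy : ∀ h : η, X (inc (of (Sum.inr h) : FreeGroup (α ⊕ η))) =
      inc (of (Sum.inr h)) * (kap η (c h))⁻¹ := fun h => by
    rw [hy, hX]
    show rlG α η (psi χ (fun _ => 1) (fun h => (c h)⁻¹) (of (Sum.inr h))) = _
    rw [psi_t, _root_.map_mul, _root_.map_mul, rlG_jn, rlG_jn, _root_.map_one, one_mul,
      _root_.map_inv]
  have hXk : ∀ u, X (kap η u) = kap η (χ u) := fun u => by
    rw [← rlG_jn, hX, ← rlG_jn]
    congr 1
    exact psi_jn _ _ _ _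
  have hxh : ∀ h : η, inc (of (Sum.inl (hl h)) : FreeGroup (α ⊕ η)) =
      kap η (of (some (hl h))) := fun h => by
    rw [← inc_of, kap_inc, mof]
    rfl
  refine ⟨X, hXk, fun h => ?_, fun u => ?_⟩
  · unfold zh
    rw [_root_.map_mul, _root_.map_mul, _root_.map_inv, _root_.map_inv, _root_.map_mul,
      _root_.map_mul, _root_.map_inv, _root_.map_inv, hXy, hxh, hXk, hc1, _root_.map_mul,
      _root_.map_mul, _root_.map_inv]
    group
  · have : (cp (α := α ⊕ η)).comp X.toMonoidHom = cp := fx fun o => by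
      show cp (X (of o)) = cp (of o)
      rcases o with _ | (a | h)
      · show cp (X (xx (α ⊕ η))) = cp (xx (α ⊕ η))
        rw [← kap_x, hXk, cp_kap, hcap, ← cp_kap]
      · have e : (of (some (Sum.inl a)) : FreeGroup (Option (α ⊕ η))) = kap η (of (some a)) := by
          rw [show (of (some a) : FreeGroup (Option α)) = inc (of a) from (inc_of a).symm, kap_inc,
            mof, inc_of]
        rw [e, hXk, cp_kap, hcap, ← cp_kap]
      · have e : (of (some (Sum.inr h)) : FreeGroup (Option (α ⊕ η))) = inc (of (Sum.inr h)) := by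
          rw [inc_of]
        rw [e, hXy, _root_.map_mul, _root_.map_inv, cp_kap, hc2, _root_.map_one]
        simp
    exact DFunLike.congr_fun this u

/-- the closed-up surface word -/
theorem ext_z {hl : η → α} {w : FreeGroup α} {zz : FreeGroup (α ⊕ η)}
    (hzz : zz ∈ Subgroup.closure (Set.range (zh hl))) {φ : MulAut (FreeGroup α)}
    (hw : φ w = w) {Φ : MulAut (FreeGroup (α ⊕ η))} (h1 : ∀ u, Φ (jn η u) = jn η (φ u))
    (h2 : ∀ h, Φ (zh hl h) = zh hl h) : Φ (zz * jn η w) = zz * jn η w := by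
  rw [_root_.map_mul, h1, hw]
  congr 1
  exact fix_closure (f := Φ.toMonoidHom) (by
    rintro _ ⟨h, rfl⟩
    exact h2 h) hzz

theorem incz_fix {hl : η → α} {zz : FreeGroup (α ⊕ η)}
    (hzz : zz ∈ Subgroup.closure (Set.range (zh hl)))
    {X : MulAut (FreeGroup (Option (α ⊕ η)))}
    (h2 : ∀ h, X (inc (zh hl h)) = inc (zh hl h)) : X (inc zz) = inc zz := by
  have h3 : inc zz ∈ Subgroup.closure (Set.range (fun h => inc (zh hl h))) := by
    have h4 : inc zz ∈ (Subgroup.closure (Set.range (zh hl))).map inc := ⟨_, hzz, rfl⟩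
    rw [MonoidHom.map_closure] at h4
    refine Subgroup.closure_mono ?_ h4
    rintro _ ⟨_, ⟨h, rfl⟩, rfl⟩
    exact ⟨h, rfl⟩
  exact fix_closure (f := X.toMonoidHom) (by
    rintro _ ⟨h, rfl⟩
    exact h2 h) h3

theorem ext_P_z {hl : η → α} {w : FreeGroup α} {zz : FreeGroup (α ⊕ η)}
    (hzz : zz ∈ Subgroup.closure (Set.range (zh hl))) {χ : MulAut (FreeGroup (Option α))}
    (hw : χ (inc w * xx α) = inc w * xx α)
    {X : MulAut (FreeGroup (Option (α ⊕ η)))} (h1 : ∀ u, X (kap η u) = kap η (χ u))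
    (h2 : ∀ h, X (inc (zh hl h)) = inc (zh hl h)) :
    X (inc (zz * jn η w) * xx (α ⊕ η)) = inc (zz * jn η w) * xx (α ⊕ η) := by
  have e : inc (zz * jn η w) * xx (α ⊕ η) = inc zz * kap η (inc w * xx α) := by
    rw [_root_.map_mul, _root_.map_mul, kap_inc, kap_x, mul_assoc]
  rw [e, _root_.map_mul, h1, hw, incz_fix hzz h2]

/-- uniqueness on the holed surface -/
theorem uniq {hl : η → α} {w : FreeGroup α} {zz : FreeGroup (α ⊕ η)}
    (hzz : zz ∈ Subgroup.closure (Set.range (zh hl))) (hU : UEX (zz * jn η w))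
    {χ : MulAut (FreeGroup (Option α))} (hχ : χ ∈ Md (Option.map hl) (inc w * xx α))
    (hcap : ∀ u, cp (χ u) = cp u) (hx : χ (xx α) = xx α) : χ = 1 := by
  obtain ⟨X, h1, h2, h3⟩ := ext_P hχ hcap
  have hX : X = 1 := hU X (ext_P_z hzz hχ.1 h1 h2) h3 (by rw [← kap_x, h1, hx])
  refine MulEquiv.ext fun u => kap_inj (η := η) ?_
  rw [← h1, hX]
  rfl

end Pool.Agent.TOW
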