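import Mathlib
import Pool.Agent.Helper76_TOR.TwX

/-! TOW: one storey of the tower. -/

set_option autoImplicit false

namespace Pool.Agent.TOW

open FreeGroup Pool.Agent.TST

/-! ### an element commuting with x is trivial after capping -/

section cen

open Classical in
/-- the new letter acts on F × ℤ -/
noncomputable def px (α : Type) : Equiv.Perm (FreeGroup α × ℤ) where
  toFun p := if p.1 = 1 then (p.1, p.2 + 1) else p
  invFun p := if p.1 = 1 then (p.1, p.2 - 1) else p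
  left_inv := by
    rintro ⟨g, n⟩
    by_cases h : g = 1 <;> simp [h]
  right_inv := by
    rintro ⟨g, n⟩
    by_cases h : g = 1 <;> simp [h]

/-- an old element acts on F × ℤ -/
def pa {α : Type} (a : FreeGroup α) : Equiv.Perm (FreeGroup α × ℤ) where
  toFun p := (a * p.1, p.2)
  invFun p := (a⁻¹ * p.1, p.2)
  left_inv := by
    rintro ⟨g, n⟩
    simp
  right_inv := by
    rintro ⟨g, n⟩
    simp

/-- the action of F * <x> -/
noncomputable def pact (α : Type) : FreeGroup (Option α) →* Equiv.Perm (FreeGroup α × ℤ) :=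
  FreeGroup.lift (fun o => o.elim (px α) (fun a => pa (of a)))

theorem pact_x (α : Type) : pact α (xx α) = px α := by
  rw [pact, lift_apply_of]
  rfl

theorem pact_some {α : Type} (a : α) : pact α (of (some a)) = pa (of a) := by
  rw [pact, lift_apply_of]
  rfl

theorem pact_fst {α : Type} (c : FreeGroup (Option α)) :
    ∀ p, (pact α c p).1 = cp c * p.1 := by
  induction c using FreeGroup.induction_on with
  | C1 =>
    intro p
    rw [_root_.map_one, _root_.map_one, one_mul]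
    rfl
  | of o =>
    intro p
    rcases o with _ | a
    · show (pact α (xx α) p).1 = cp (xx α) * p.1
      rw [pact_x, cp_x, one_mul]
      unfold px
      by_cases h : p.1 = 1
      · simp [h]
      · simp [h]
    · rw [pact_some, cp_some]
      rfl
  | inv_of o h =>
    intro p
    have h1 := h ((pact α (of o)).symm p)
    rw [Equiv.apply_symm_apply] at h1
    rw [_root_.map_inv, _root_.map_inv, h1]
    show ((pact α (of o)).symm p).1 = _
    group
  | mul a b ha hb =>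
    intro p
    rw [_root_.map_mul, _root_.map_mul]
    show (pact α a (pact α b p)).1 = _
    rw [ha, hb, mul_assoc]

/-- centraliser of x -/
theorem cen {α : Type} {c : FreeGroup (Option α)} (h : c * xx α * c⁻¹ = xx α) : cp c = 1 := by
  by_contra hc
  have h1 : pact α (xx α) ((1 : FreeGroup α), (0 : ℤ)) = (1, 1) := by
    rw [pact_x]
    unfold px
    simp
  have h2 : pact α (c * xx α * c⁻¹) ((1 : FreeGroup α), (0 : ℤ)) = (1, 0) := by
    have h3 : (pact α c⁻¹ ((1 : FreeGroup α), (0 : ℤ))).1 ≠ 1 := by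
      rw [pact_fst, _root_.map_inv, mul_one]
      simpa using hc
    have h4 : pact α (xx α) (pact α c⁻¹ ((1 : FreeGroup α), (0 : ℤ))) =
        pact α c⁻¹ ((1 : FreeGroup α), (0 : ℤ)) := by
      rw [pact_x]
      unfold px
      exact if_neg h3
    rw [_root_.map_mul, _root_.map_mul]
    show pact α c (pact α (xx α) (pact α c⁻¹ ((1 : FreeGroup α), (0 : ℤ)))) = _
    rw [h4]
    show (pact α c * pact α c⁻¹) ((1 : FreeGroup α), (0 : ℤ)) = _
    rw [← _root_.map_mul, mul_inv_cancel, _root_.map_one]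
    rfl
  rw [h, h1] at h2
  simp at h2

/-- the capped conjugator is well defined -/
theorem cen_eq {α : Type} {c d : FreeGroup (Option α)} (h : c * xx α * c⁻¹ = d * xx α * d⁻¹) :
    cp c = cp d := by
  have h1 : (d⁻¹ * c) * xx α * (d⁻¹ * c)⁻¹ = xx α := by
    have : (d⁻¹ * c) * xx α * (d⁻¹ * c)⁻¹ = d⁻¹ * (c * xx α * c⁻¹) * d := by group
    rw [this, h]
    group
  have h2 := cen h1
  rw [_root_.map_mul, _root_.map_inv, inv_mul_eq_one] at h2
  exact h2.symm

end cen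

variable {α η : Type}

/-- good pairs: ψ is the restriction of the push along γ -/
structure Gp (hl : η → α) (w : FreeGroup α)
    (P : FreeGroup (α ⊕ η) →* MulAut (FreeGroup (Option (α ⊕ η)))) (γ : FreeGroup α)
    (ψ : MulAut (FreeGroup (Option α))) : Prop where
  res : ∀ u, P (jn η γ) (kap η u) = kap η (ψ u)
  md : ψ ∈ Md (Option.map hl) (inc w * xx α)
  con : ∃ c, ψ (xx α) = c * xx α * c⁻¹ ∧ cp c = γ⁻¹

section gp

variable {hl : η → α} {w : FreeGroup α} {z : FreeGroup (α ⊕ η)}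
  {P : FreeGroup (α ⊕ η) →* MulAut (FreeGroup (Option (α ⊕ η)))}

theorem Gp.cap (hP : Bir z P) {γ : FreeGroup α} {ψ : MulAut (FreeGroup (Option α))}
    (h : Gp hl w P γ ψ) (u : FreeGroup (Option α)) : cp (ψ u) = cp u := by
  apply jn_inj (η := η)
  rw [← cp_kap, ← h.res, hP.cap, cp_kap]

theorem Gp.one : Gp hl w P 1 1 where
  res := fun u => by
    rw [_root_.map_one, _root_.map_one]
    rfl
  md := one_mem _
  con := ⟨1, by simp, by simp⟩

theorem Gp.mul (hP : Bir z P) {γ δ : FreeGroup α} {ψ χ : MulAut (FreeGroup (Option α))}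
    (h : Gp hl w P γ ψ) (k : Gp hl w P δ χ) : Gp hl w P (γ * δ) (ψ * χ) where
  res := fun u => by
    rw [_root_.map_mul, _root_.map_mul]
    show P (jn η γ) (P (jn η δ) (kap η u)) = kap η (ψ (χ u))
    rw [k.res, h.res]
  md := mul_mem h.md k.md
  con := by
    obtain ⟨c, hc, hc'⟩ := h.con
    obtain ⟨d, hd, hd'⟩ := k.con
    refine ⟨ψ d * c, ?_, ?_⟩
    · rw [MulAut.mul_apply, hd, _root_.map_mul, _root_.map_mul, _root_.map_inv, hc]
      group
    · rw [_root_.map_mul, h.cap hP, hc', hd', mul_inv_rev]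

theorem Gp.inv (hP : Bir z P) {γ : FreeGroup α} {ψ : MulAut (FreeGroup (Option α))}
    (h : Gp hl w P γ ψ) : Gp hl w P γ⁻¹ ψ⁻¹ where
  res := fun u => by
    rw [_root_.map_inv, _root_.map_inv]
    have h1 := h.res (ψ⁻¹ u)
    rw [MulAut.apply_inv_self] at h1
    rw [← h1, MulAut.inv_apply_self]
  md := inv_mem h.md
  con := by
    obtain ⟨c, hc, hc'⟩ := h.con
    refine ⟨(ψ⁻¹ c)⁻¹, ?_, ?_⟩
    · have h3 : xx α = ψ⁻¹ c * ψ⁻¹ (xx α) * (ψ⁻¹ c)⁻¹ := by
        rw [← _root_.map_inv, ← _root_.map_mul, ← _root_.map_mul, ← hc]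
        exact (MulAut.inv_apply_self _ _ _).symm
      conv_rhs => rw [h3]
      group
    · have h4 := h.cap hP (ψ⁻¹ c)
      rw [MulAut.apply_inv_self] at h4
      rw [_root_.map_inv, ← h4, hc']

theorem Gp.uniq {γ : FreeGroup α} {ψ χ : MulAut (FreeGroup (Option α))} (h : Gp hl w P γ ψ)
    (k : Gp hl w P γ χ) : ψ = χ :=
  MulEquiv.ext fun u => kap_inj (η := η) (by rw [← h.res, k.res])

end gp

section gp2

variable {hl : η → α} {w : FreeGroup α} {zz : FreeGroup (α ⊕ η)}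
  {P : FreeGroup (α ⊕ η) →* MulAut (FreeGroup (Option (α ⊕ η)))}

theorem Gp.conj (hzz : zz ∈ Subgroup.closure (Set.range (zh hl))) (hP : Bir (zz * jn η w) P)
    {γ : FreeGroup α} {ψ : MulAut (FreeGroup (Option α))} (h : Gp hl w P γ ψ)
    {φ : MulAut (FreeGroup α)} (hφ : φ ∈ Md hl w) :
    Gp hl w P (φ γ) (upE (sm α) φ * ψ * (upE (sm α) φ)⁻¹) := by
  obtain ⟨Φ, h1, h2⟩ := ext_F hφ
  have hz : Φ (zz * jn η w) = zz * jn η w := ext_z hzz hφ.1 h1 h2
  have e := hP.eqv Φ hz (jn η γ)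
  rw [h1] at e
  refine ⟨fun u => ?_, mul_mem (mul_mem (up_Md hφ) h.md) (inv_mem (up_Md hφ)), ?_⟩
  · rw [← e]
    show upE (sm (α ⊕ η)) Φ (P (jn η γ) ((upE (sm (α ⊕ η)) Φ)⁻¹ (kap η u))) =
      kap η (upE (sm α) φ (ψ ((upE (sm α) φ)⁻¹ u)))
    have e1 : (upE (sm (α ⊕ η)) Φ)⁻¹ (kap η u) = kap η ((upE (sm α) φ)⁻¹ u) := by
      have := kap_up h1 ((upE (sm α) φ)⁻¹ u)
      rw [MulAut.apply_inv_self] at this
      rw [← this, MulAut.inv_apply_self]
    rw [e1, h.res, kap_up h1]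
  · obtain ⟨c, hc, hc'⟩ := h.con
    refine ⟨upE (sm α) φ c, ?_, ?_⟩
    · have e2 : (upE (sm α) φ)⁻¹ (xx α) = xx α := by
        conv_lhs => rw [← up_x φ]
        exact MulAut.inv_apply_self _ _ _
      show upE (sm α) φ (ψ ((upE (sm α) φ)⁻¹ (xx α))) = _
      rw [e2, hc, _root_.map_mul, _root_.map_mul, _root_.map_inv, up_x]
    · rw [cp_up, hc', _root_.map_inv]

/-- the explicit generator -/
theorem Gp.gen (hzz : zz ∈ Subgroup.closure (Set.range (zh hl))) (hP : Bir (zz * jn η w) P)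
    (hU : UEX (zz * jn η w)) (L : Lev hl w) (hL : L.bp = 1) (hE : Exa P (jn η L.gam)) :
    Gp hl w P L.gam L.add.bp := by
  have hcap : ∀ u, cp (L.add.bp u) = cp u := fun u => by
    rw [L.add_cp, hL]
    rfl
  obtain ⟨X, h1, h2, h3⟩ := ext_P L.add.bp_mem hcap
  have hX : P (jn η L.gam) = X := by
    have : (P (jn η L.gam))⁻¹ * X = 1 := by
      refine hU _ ?_ (fun u => ?_) ?_
      · show (P (jn η L.gam))⁻¹ (X _) = _
        rw [ext_P_z hzz L.add.bp_mem.1 h1 h2]
        conv_lhs => rw [← hP.fix (jn η L.gam)]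
        exact MulAut.inv_apply_self _ _ _
      · show cp ((P (jn η L.gam))⁻¹ (X u)) = _
        rw [← hP.cap (jn η L.gam), MulAut.apply_inv_self, h3]
      · show (P (jn η L.gam))⁻¹ (X (xx (α ⊕ η))) = _
        have h4 : X (xx (α ⊕ η)) = P (jn η L.gam) (xx (α ⊕ η)) := by
          rw [hE, ← kap_x, h1, L.add_x, _root_.map_mul, _root_.map_mul, _root_.map_inv, kap_inc,
            kap_x]
        rw [h4]
        exact MulAut.inv_apply_self _ _ _
    exact inv_mul_eq_one.1 this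
  refine ⟨fun u => by rw [hX, h1], L.add.bp_mem, (inc L.gam)⁻¹, ?_, ?_⟩
  · rw [L.add_x, inv_inv]
  · rw [_root_.map_inv, cp_inc]

end gp2

/-- one storey of the tower -/
structure Sto (hl : η → α) (w h0 : FreeGroup α)
    (lam : FreeGroup α →* MulAut (FreeGroup (Option α))) : Prop where
  md : ∀ γ, lam γ ∈ Md (Option.map hl) (inc w * xx α)
  cap : ∀ γ u, cp (lam γ u) = cp u
  con : ∀ γ, ∃ c, lam γ (xx α) = c * xx α * c⁻¹ ∧ cp c = γ⁻¹
  eqv : ∀ φ ∈ Md hl w, ∀ γ, upE (sm α) φ * lam γ * (upE (sm α) φ)⁻¹ = lam (φ γ)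
  exa : ∀ φ ∈ Md hl w,
    lam (φ h0) (xx α) = (inc (φ h0))⁻¹ * xx α * inc (φ h0)
  uni : ∀ χ ∈ Md (Option.map hl) (inc w * xx α), (∀ u, cp (χ u) = cp u) → χ (xx α) = xx α → χ = 1

theorem storey {hl : η → α} {w : FreeGroup α} {zz : FreeGroup (α ⊕ η)}
    {P : FreeGroup (α ⊕ η) →* MulAut (FreeGroup (Option (α ⊕ η)))}
    (hzz : zz ∈ Subgroup.closure (Set.range (zh hl))) (hU : UEX (zz * jn η w))
    (hP : Bir (zz * jn η w) P) (L : Lev hl w) (hL : L.bp = 1) (hE : Exa P (jn η L.gam))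
    (hgen : Subgroup.closure {γ | ∃ φ ∈ Md hl w, γ = φ L.gam} = ⊤) :
    ∃ lam, Sto hl w L.gam lam := by
  have h0 := Gp.gen hzz hP hU L hL hE
  have hall : ∀ γ, ∃ ψ, Gp hl w P γ ψ := by
    intro γ
    have hγ : γ ∈ Subgroup.closure {γ | ∃ φ ∈ Md hl w, γ = φ L.gam} := by
      rw [hgen]; trivial
    refine Subgroup.closure_induction (p := fun γ _ => ∃ ψ, Gp hl w P γ ψ) ?_ ?_ ?_ ?_ hγ
    · rintro _ ⟨φ, hφ, rfl⟩
      exact ⟨_, h0.conj hzz hP hφ⟩
    · exact ⟨1, Gp.one⟩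
    · rintro x y _ _ ⟨ψ, hψ⟩ ⟨χ, hχ⟩
      exact ⟨_, hψ.mul hP hχ⟩
    · rintro x _ ⟨ψ, hψ⟩
      exact ⟨_, hψ.inv hP⟩
  choose f hf using hall
  let lam : FreeGroup α →* MulAut (FreeGroup (Option α)) :=
    { toFun := f
      map_one' := (hf 1).uniq Gp.one
      map_mul' := fun γ δ => (hf (γ * δ)).uniq ((hf γ).mul hP (hf δ)) }
  have hlam : ∀ γ, Gp hl w P γ (lam γ) := hf
  refine ⟨lam, fun γ => (hlam γ).md, fun γ u => (hlam γ).cap hP u, fun γ => (hlam γ).con,
    fun φ hφ γ => ((hlam γ).conj hzz hP hφ).uniq (hlam (φ γ)), fun φ hφ => ?_,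
    fun χ h1 h2 h3 => uniq hzz hU h1 h2 h3⟩
  have h1 : lam (φ L.gam) = upE (sm α) φ * L.add.bp * (upE (sm α) φ)⁻¹ :=
    (hlam (φ L.gam)).uniq (h0.conj hzz hP hφ)
  have e2 : (upE (sm α) φ)⁻¹ (xx α) = xx α := by
    conv_lhs => rw [← up_x φ]
    exact MulAut.inv_apply_self _ _ _
  rw [h1]
  show upE (sm α) φ (L.add.bp ((upE (sm α) φ)⁻¹ (xx α))) = _
  rw [e2, L.add_x, _root_.map_mul, _root_.map_mul, _root_.map_inv, up_inc, up_x]

namespace Sto

variable {hl : η → α} {w h0 : FreeGroup α} {lam : FreeGroup α →* MulAut (FreeGroup (Option α))}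

theorem inj (s : Sto hl w h0 lam) : Function.Injective lam := by
  rw [injective_iff_map_eq_one]
  intro γ hγ
  obtain ⟨c, hc, hc'⟩ := s.con γ
  rw [hγ] at hc
  have h1 : cp c = 1 := cen hc.symm
  rw [h1] at hc'
  exact inv_eq_one.1 hc'.symm

theorem add_bp (s : Sto hl w h0 lam) (L : Lev hl w) (hg : ∃ φ ∈ Md hl w, L.gam = φ h0) :
    L.add.bp = lam L.gam * upE (sm α) L.bp := by
  obtain ⟨φ, hφ, hγ⟩ := hg
  have h1 : lam L.gam (xx α) = (inc L.gam)⁻¹ * xx α * inc L.gam := by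
    have := s.exa φ hφ
    rwa [← hγ] at this
  set B := lam L.gam * upE (sm α) L.bp with hB
  have hBm : B ∈ Md (Option.map hl) (inc w * xx α) := mul_mem (s.md _) (up_Md L.bp_mem)
  have hBc : ∀ u, cp (B u) = L.bp (cp u) := fun u => by
    show cp (lam L.gam (upE (sm α) L.bp u)) = _
    rw [s.cap, cp_up]
  have hBx : B (xx α) = L.add.bp (xx α) := by
    show lam L.gam (upE (sm α) L.bp (xx α)) = _
    rw [up_x, h1, L.add_x]
  have h2 : B⁻¹ * L.add.bp = 1 := by
    refine s.uni _ (mul_mem (inv_mem hBm) L.add.bp_mem) (fun u => ?_) ?_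
    · apply L.bp.injective
      show L.bp (cp (B⁻¹ (L.add.bp u))) = L.bp (cp u)
      rw [← hBc, MulAut.apply_inv_self, L.add_cp]
    · show B⁻¹ (L.add.bp (xx α)) = _
      rw [← hBx]
      exact MulAut.inv_apply_self _ _ _
  exact (inv_mul_eq_one.1 h2).symm

end Sto

end Pool.Agent.TOW
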