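import Mathlib
import Pool.Agent.Helper76_TOR.TwP

/-! TOW: orbits of the loops, generation. -/

set_option autoImplicit false

namespace Pool.Agent.TOW

open FreeGroup Pool.Agent.TST

variable {α η : Type}

/-! ### dragging the new hole around the boundary -/

def tH (w : FreeGroup α) : FreeGroup (Option α) →* FreeGroup (Option α) :=
  FreeGroup.lift fun o => o.elim ((inc w)⁻¹ * xx α * inc w) (fun a => of (some a))

def tI (w : FreeGroup α) : FreeGroup (Option α) →* FreeGroup (Option α) :=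
  FreeGroup.lift fun o => o.elim (inc w * xx α * (inc w)⁻¹) (fun a => of (some a))

theorem tH_x (w : FreeGroup α) : tH w (xx α) = (inc w)⁻¹ * xx α * inc w := by
  rw [tH, lift_apply_of]
  rfl

theorem tI_x (w : FreeGroup α) : tI w (xx α) = inc w * xx α * (inc w)⁻¹ := by
  rw [tI, lift_apply_of]
  rfl

theorem tH_inc (w u : FreeGroup α) : tH w (inc u) = inc u := by
  have : (tH w).comp inc = inc := fx fun a => by
    rw [MonoidHom.comp_apply, inc_of, tH, lift_apply_of]
    rfl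
  exact DFunLike.congr_fun this u

theorem tI_inc (w u : FreeGroup α) : tI w (inc u) = inc u := by
  have : (tI w).comp inc = inc := fx fun a => by
    rw [MonoidHom.comp_apply, inc_of, tI, lift_apply_of]
    rfl
  exact DFunLike.congr_fun this u

theorem tI_tH (w : FreeGroup α) : (tI w).comp (tH w) = MonoidHom.id _ := by
  refine fx fun o => ?_
  rw [MonoidHom.comp_apply, MonoidHom.id_apply]
  rcases o with _ | a
  · show tI w (tH w (xx α)) = xx α
    rw [tH_x, _root_.map_mul, _root_.map_mul, _root_.map_inv, tI_inc, tI_x]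
    group
  · rw [← inc_of, tH_inc, tI_inc]

theorem tH_tI (w : FreeGroup α) : (tH w).comp (tI w) = MonoidHom.id _ := by
  refine fx fun o => ?_
  rw [MonoidHom.comp_apply, MonoidHom.id_apply]
  rcases o with _ | a
  · show tH w (tI w (xx α)) = xx α
    rw [tI_x, _root_.map_mul, _root_.map_mul, _root_.map_inv, tH_inc, tH_x]
    group
  · rw [← inc_of, tI_inc, tH_inc]

/-- σ : g ↦ x⁻¹ g x on the old part -/
def sg (w : FreeGroup α) : MulAut (FreeGroup (Option α)) :=
  MulAut.conj (xx α)⁻¹ * MonoidHom.toMulEquiv (tH w) (tI w) (tI_tH w) (tH_tI w)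

theorem sg_apply (w : FreeGroup α) (u : FreeGroup (Option α)) :
    sg w u = (xx α)⁻¹ * tH w u * xx α := by
  show (xx α)⁻¹ * tH w u * (xx α)⁻¹⁻¹ = _
  rw [inv_inv]

theorem sg_inc (w u : FreeGroup α) : sg w (inc u) = (xx α)⁻¹ * inc u * xx α := by
  rw [sg_apply, tH_inc]

theorem sg_mem (hl : η → α) (w : FreeGroup α) : sg w ∈ Md (Option.map hl) (inc w * xx α) := by
  refine ⟨?_, ?_⟩
  · rw [sg_apply, _root_.map_mul, tH_inc, tH_x]
    group
  · rintro (_ | h)
    · refine ⟨(xx α)⁻¹ * (inc w)⁻¹, ?_⟩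
      show sg w (xx α) = _ * xx α * _
      rw [sg_apply, tH_x]
      group
    · refine ⟨(xx α)⁻¹, ?_⟩
      show sg w (of (some (hl h))) = (xx α)⁻¹ * of (some (hl h)) * (xx α)⁻¹⁻¹
      rw [← inc_of, sg_inc, inv_inv]

/-! ### dragging the new hole around the loop a -/

namespace Fr

variable (D : Fr α)

/-- e = b R⁻¹ a b⁻¹ -/
def me : FreeGroup (Option α) :=
  of (some D.b) * (inc D.R)⁻¹ * of (some D.a) * (of (some D.b))⁻¹

/-- c = x⁻¹ b R⁻¹ a b⁻¹ -/
def mc : FreeGroup (Option α) := (xx α)⁻¹ * D.me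

open Classical in
noncomputable def mH : FreeGroup (Option α) →* FreeGroup (Option α) :=
  FreeGroup.lift fun o => if o = none then D.mc * xx α * D.mc⁻¹
    else if o = some D.b then (xx α)⁻¹ * of (some D.b) else of o

open Classical in
noncomputable def mI : FreeGroup (Option α) →* FreeGroup (Option α) :=
  FreeGroup.lift fun o => if o = none then D.me⁻¹ * xx α * D.me
    else if o = some D.b then D.me⁻¹ * xx α * D.me * of (some D.b) else of o

variable {D}

theorem mH_x : D.mH (xx α) = D.mc * xx α * D.mc⁻¹ := by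
  rw [mH, lift_apply_of, if_pos rfl]

theorem mI_x : D.mI (xx α) = D.me⁻¹ * xx α * D.me := by
  rw [mI, lift_apply_of, if_pos rfl]

theorem mH_b : D.mH (of (some D.b)) = (xx α)⁻¹ * of (some D.b) := by
  rw [mH, lift_apply_of, if_neg (Option.some_ne_none _), if_pos rfl]

theorem mI_b : D.mI (of (some D.b)) = D.me⁻¹ * xx α * D.me * of (some D.b) := by
  rw [mI, lift_apply_of, if_neg (Option.some_ne_none _), if_pos rfl]

theorem mH_r {a : α} (h : a ≠ D.b) : D.mH (of (some a)) = of (some a) := by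
  rw [mH, lift_apply_of, if_neg (Option.some_ne_none _), if_neg fun e => h (Option.some.inj e)]

theorem mI_r {a : α} (h : a ≠ D.b) : D.mI (of (some a)) = of (some a) := by
  rw [mI, lift_apply_of, if_neg (Option.some_ne_none _), if_neg fun e => h (Option.some.inj e)]

theorem mH_lt {p : α → Prop} (hp : ¬ p D.b) {u : FreeGroup α} (hu : u ∈ lt p) :
    D.mH (inc u) = inc u :=
  lt_ind (f := D.mH.comp inc) (g := inc) (fun l hl => by
    rw [MonoidHom.comp_apply, inc_of, mH_r fun e => hp (e ▸ hl)]) hu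

theorem mI_lt {p : α → Prop} (hp : ¬ p D.b) {u : FreeGroup α} (hu : u ∈ lt p) :
    D.mI (inc u) = inc u :=
  lt_ind (f := D.mI.comp inc) (g := inc) (fun l hl => by
    rw [MonoidHom.comp_apply, inc_of, mI_r fun e => hp (e ▸ hl)]) hu

theorem mH_R (h : D.Ok) : D.mH (inc D.R) = inc D.R := mH_lt (fun hb => hb.2.2 rfl) h.hR

theorem mI_R (h : D.Ok) : D.mI (inc D.R) = inc D.R := mI_lt (fun hb => hb.2.2 rfl) h.hR

theorem mH_me (h : D.Ok) : D.mH D.me = D.mc * xx α := by
  rw [me]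
  simp only [_root_.map_mul, _root_.map_inv, mH_b, mH_R h, mH_r h.ab]
  rw [mc, me]
  group

theorem mI_me (h : D.Ok) : D.mI D.me =
    D.me⁻¹ * xx α * D.me * D.me * (D.me⁻¹ * xx α * D.me)⁻¹ := by
  have : D.mI D.me = D.mI (of (some D.b)) * (D.mI (inc D.R))⁻¹ * D.mI (of (some D.a)) *
      (D.mI (of (some D.b)))⁻¹ := by
    conv_lhs => rw [me]
    simp only [_root_.map_mul, _root_.map_inv]
  rw [this, mI_b, mI_R h, mI_r h.ab]
  have h2 : of (some D.b) * (inc D.R)⁻¹ * of (some D.a) * (of (some D.b))⁻¹ = D.me := rfl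
  have h3 : D.me⁻¹ * xx α * D.me * of (some D.b) * (inc D.R)⁻¹ * of (some D.a) *
      (D.me⁻¹ * xx α * D.me * of (some D.b))⁻¹ = D.me⁻¹ * xx α * D.me *
      (of (some D.b) * (inc D.R)⁻¹ * of (some D.a) * (of (some D.b))⁻¹) *
      (D.me⁻¹ * xx α * D.me)⁻¹ := by group
  rw [h3, h2]

theorem mI_mH (h : D.Ok) : D.mI.comp D.mH = MonoidHom.id _ := by
  refine fx fun o => ?_
  rw [MonoidHom.comp_apply, MonoidHom.id_apply]
  rcases o with _ | a
  · show D.mI (D.mH (xx α)) = xx α
    rw [mH_x]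
    have h1 : D.mI D.mc = (xx α)⁻¹ * D.me := by
      rw [mc, _root_.map_mul, _root_.map_inv, mI_x, mI_me h]
      group
    rw [_root_.map_mul, _root_.map_mul, _root_.map_inv, h1, mI_x]
    group
  · by_cases ha : a = D.b
    · subst ha
      rw [mH_b, _root_.map_mul, _root_.map_inv, mI_x, mI_b]
      group
    · rw [mH_r ha, mI_r ha]

theorem mH_mI (h : D.Ok) : D.mH.comp D.mI = MonoidHom.id _ := by
  refine fx fun o => ?_
  rw [MonoidHom.comp_apply, MonoidHom.id_apply]
  have h1 : D.mH (D.me⁻¹ * xx α * D.me) = xx α := by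
    rw [_root_.map_mul, _root_.map_mul, _root_.map_inv, mH_me h, mH_x]
    group
  rcases o with _ | a
  · show D.mH (D.mI (xx α)) = xx α
    rw [mI_x, h1]
  · by_cases ha : a = D.b
    · subst ha
      rw [mI_b, _root_.map_mul, h1, mH_b]
      group
    · rw [mI_r ha, mH_r ha]

noncomputable def mA (D : Fr α) (h : D.Ok) : MulAut (FreeGroup (Option α)) :=
  MonoidHom.toMulEquiv D.mH D.mI (mI_mH h) (mH_mI h)

theorem mA_apply (h : D.Ok) (u : FreeGroup (Option α)) : D.mA h u = D.mH u := rfl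

theorem mA_om (h : D.Ok) : D.mA h (inc D.om0 * xx α) = inc D.om0 * xx α := by
  have h1 : D.mH (inc D.Z) = inc D.Z := mH_lt (fun hb => hb.2.2 rfl) h.hZ
  have h2 : D.mH (inc D.Y) = inc D.Y := mH_lt (fun hb => by
    rw [h.Sb] at hb
    exact Bool.false_ne_true hb) h.hY
  rw [mA_apply, om0]
  simp only [_root_.map_mul, _root_.map_inv, inc_of, h1, h2, mH_R h, mH_b, mH_r h.ab, mH_x]
  rw [mc, me]
  group

end Fr

/-! ### orbits -/

/-- the orbit of a loop -/
def Orb (hl : η → α) (w h0 : FreeGroup α) : Set (FreeGroup α) := {γ | ∃ φ ∈ Md hl w, γ = φ h0}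

variable {hl : η → α} {w h0 : FreeGroup α}

theorem orb_self : h0 ∈ Orb hl w h0 := ⟨1, one_mem _, rfl⟩

theorem orb_ap {γ : FreeGroup α} (h : γ ∈ Orb hl w h0) {φ : MulAut (FreeGroup α)}
    (hφ : φ ∈ Md hl w) : φ γ ∈ Orb hl w h0 := by
  obtain ⟨ψ, hψ, rfl⟩ := h
  exact ⟨φ * ψ, mul_mem hφ hψ, rfl⟩

theorem orb_keep {γ : FreeGroup α} (h : γ ∈ Orb hl w h0) :
    (xx α)⁻¹ * inc γ * xx α ∈
      Orb (Option.map hl) (inc w * xx α) ((xx α)⁻¹ * inc h0 * xx α) := by
  obtain ⟨φ, hφ, rfl⟩ := h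
  refine ⟨upE (sm α) φ, up_Md hφ, ?_⟩
  rw [_root_.map_mul, _root_.map_mul, _root_.map_inv, up_x, up_inc]

theorem orb_inc {γ : FreeGroup α} (h : γ ∈ Orb hl w h0) :
    inc γ ∈ Orb (Option.map hl) (inc w * xx α) ((xx α)⁻¹ * inc h0 * xx α) := by
  have h1 := orb_ap (orb_keep h) (inv_mem (sg_mem hl w))
  have h2 : (sg w)⁻¹ ((xx α)⁻¹ * inc γ * xx α) = inc γ := by
    rw [← sg_inc w γ]
    exact MulAut.inv_apply_self _ _ _
  rwa [h2] at h1

theorem orb_add (L : Lev hl w) (h : L.gam ∈ Orb hl w h0) :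
    (xx α)⁻¹ * inc L.gam ∈
      Orb (Option.map hl) (inc w * xx α) ((xx α)⁻¹ * inc h0 * xx α) := by
  have hθb : upE (sm α) L.θ (of (some L.D.b)) = inc L.gam := by
    rw [← inc_of, up_inc]
    rfl
  have hμ : upE (sm α) L.θ * L.D.mA L.ok * (upE (sm α) L.θ)⁻¹ ∈
      Md (Option.map hl) (inc w * xx α) := by
    have hw : upE (sm α) L.θ (inc L.D.om0 * xx α) = inc w * xx α := by
      rw [_root_.map_mul, up_inc, up_x, L.hθ]
    have hw' : (upE (sm α) L.θ)⁻¹ (inc w * xx α) = inc L.D.om0 * xx α := by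
      rw [← hw]
      exact MulAut.inv_apply_self _ _ _
    refine ⟨?_, ?_⟩
    · show upE (sm α) L.θ (L.D.mA L.ok ((upE (sm α) L.θ)⁻¹ (inc w * xx α))) = _
      rw [hw', Fr.mA_om, hw]
    · have key : ∀ v : FreeGroup (Option α),
          (∃ d, upE (sm α) L.θ v = d * v * d⁻¹) → (∃ d, L.D.mH v = d * v * d⁻¹) →
          ∃ c, (upE (sm α) L.θ * L.D.mA L.ok * (upE (sm α) L.θ)⁻¹) v = c * v * c⁻¹ := by
        rintro v ⟨d, hd⟩ ⟨e, he⟩
        have h1 : v = d⁻¹ * upE (sm α) L.θ v * d := by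
          rw [hd]; group
        refine ⟨((upE (sm α) L.θ * L.D.mA L.ok * (upE (sm α) L.θ)⁻¹) d)⁻¹ *
          upE (sm α) L.θ e * d, ?_⟩
        conv_lhs => rw [h1]
        have h2 : (upE (sm α) L.θ * L.D.mA L.ok * (upE (sm α) L.θ)⁻¹) (upE (sm α) L.θ v) =
            upE (sm α) L.θ e * (d * v * d⁻¹) * (upE (sm α) L.θ e)⁻¹ := by
          show upE (sm α) L.θ (L.D.mA L.ok ((upE (sm α) L.θ)⁻¹ (upE (sm α) L.θ v))) = _
          rw [MulAut.inv_apply_self, Fr.mA_apply, he, _root_.map_mul, _root_.map_mul,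
            _root_.map_inv, hd]
        rw [_root_.map_mul, _root_.map_mul, _root_.map_inv, h2]
        group
      rintro (_ | h)
      · refine key (xx α) ⟨1, ?_⟩ ⟨L.D.mc, Fr.mH_x⟩
        rw [up_x]; simp
      · refine key (of (some (hl h))) ?_ ⟨1, ?_⟩
        · obtain ⟨d, hd⟩ := L.cj h
          refine ⟨inc d, ?_⟩
          rw [← inc_of, up_inc, hd, _root_.map_mul, _root_.map_mul, _root_.map_inv]
        · rw [Fr.mH_r (L.hole h).2]
          simp
  have h1 := orb_ap (orb_inc h) hμ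
  have h2 : (upE (sm α) L.θ * L.D.mA L.ok * (upE (sm α) L.θ)⁻¹) (inc L.gam) =
      (xx α)⁻¹ * inc L.gam := by
    rw [← hθb]
    show upE (sm α) L.θ (L.D.mA L.ok ((upE (sm α) L.θ)⁻¹ (upE (sm α) L.θ _))) = _
    rw [MulAut.inv_apply_self, Fr.mA_apply, Fr.mH_b, _root_.map_mul, _root_.map_inv, up_x, hθb]
  rwa [h2] at h1

/-- generation on the next level -/
theorem gen_step (L : Lev hl w) (hL : L.gam = h0)
    (hg : Subgroup.closure (Orb hl w h0) = ⊤) :
    Subgroup.closure (Orb (Option.map hl) (inc w * xx α) ((xx α)⁻¹ * inc h0 * xx α)) = ⊤ := by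
  set C := Subgroup.closure (Orb (Option.map hl) (inc w * xx α) ((xx α)⁻¹ * inc h0 * xx α))
    with hC
  have h1 : ∀ u : FreeGroup α, inc u ∈ C := by
    intro u
    have hu : u ∈ Subgroup.closure (Orb hl w h0) := by rw [hg]; trivial
    refine Subgroup.closure_induction (p := fun u _ => inc u ∈ C) ?_ ?_ ?_ ?_ hu
    · intro γ hγ
      exact Subgroup.subset_closure (orb_inc hγ)
    · rw [_root_.map_one]; exact one_mem _
    · intro x y _ _ hx hy
      rw [_root_.map_mul]; exact mul_mem hx hy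
    · intro x _ hx
      rw [_root_.map_inv]; exact inv_mem hx
  have h2 : xx α ∈ C := by
    have h3 : (xx α)⁻¹ * inc L.gam ∈ C :=
      Subgroup.subset_closure (orb_add L (by rw [hL]; exact orb_self))
    have h4 := mul_mem h3 (inv_mem (h1 L.gam))
    rw [mul_inv_cancel_right] at h4
    exact (Subgroup.inv_mem_iff _).1 h4
  rw [eq_top_iff]
  intro u _
  induction u using FreeGroup.induction_on with
  | C1 => exact one_mem _
  | of o =>
    rcases o with _ | a
    · exact h2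
    · have := h1 (of a)
      rwa [inc_of] at this
  | inv_of o h => exact inv_mem (h trivial)
  | mul x y hx hy => exact mul_mem (hx trivial) (hy trivial)

end Pool.Agent.TOW
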