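import Mathlib
import Pool.Agent.Helper76_TOR.TwG
import Pool.Agent.Helper18_TNF.Stmts
import Pool.Agent.Helper41_TOR.Nt

/-! TOW: the tower, definitions and interfaces (HOMQ, FRM, THE, LIN, GEN0, TOWQ). -/

set_option autoImplicit false

namespace Pool.Agent.TOW

open FreeGroup Pool.Agent.TST Pool.Agent.TOR Pool.Agent.TOR.H59 Pool.Agent.TOR96
open Pool.Agent.TOR.H29 Pool.Agent.TOR.SA Pool.Agent.TNF

/-! ### letters, holes, boundary words -/

/-- letters of the surface of genus g + 1 with j holes -/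
def Lt (g : ℕ) : ℕ → Type
  | 0 => Fin 2 × Fin (g + 1)
  | j + 1 => Option (Lt g j)

/-- holes -/
def Ho : ℕ → Type
  | 0 => Empty
  | j + 1 => Option (Ho j)

/-- the letter of a hole -/
def hj (g : ℕ) : ∀ j, Ho j → Lt g j
  | 0 => fun h => Empty.elim h
  | j + 1 => fun h => Option.map (hj g j) h

/-- boundary word ω_j = ζ x_1 .. x_j -/
noncomputable def om (g : ℕ) : ∀ j, FreeGroup (Lt g j)
  | 0 => zeta (g + 1)
  | j + 1 => (inc (om g j) * xx (Lt g j) : FreeGroup (Option (Lt g j)))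

/-- product of the holes -/
noncomputable def rho (g : ℕ) : ∀ j, FreeGroup (Lt g j)
  | 0 => 1
  | j + 1 => (inc (rho g j) * xx (Lt g j) : FreeGroup (Option (Lt g j)))

/-- the base surface -/
noncomputable def io (g : ℕ) : ∀ j, FreeGroup (Fin 2 × Fin (g + 1)) →* FreeGroup (Lt g j)
  | 0 => MonoidHom.id _
  | j + 1 => ((inc (α := Lt g j)).comp (io g j) :
      FreeGroup (Fin 2 × Fin (g + 1)) →* FreeGroup (Option (Lt g j)))

/-- the letter b -/
def bj (g : ℕ) : ∀ j, Lt g j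
  | 0 => ((1 : Fin 2), Fin.last g)
  | j + 1 => some (bj g j)

/-- extension of mapping classes of the base surface, holes fixed -/
noncomputable def uj (g : ℕ) : ∀ j, MulAut (FreeGroup (Fin 2 × Fin (g + 1))) →*
    MulAut (FreeGroup (Lt g j))
  | 0 => MonoidHom.id _
  | j + 1 => ((upE (sm (Lt g j))).comp (uj g j) :
      MulAut (FreeGroup (Fin 2 × Fin (g + 1))) →* MulAut (FreeGroup (Option (Lt g j))))

/-- relabelling of the closed-up surfaces -/
def em {α η : Type} : FreeGroup (α ⊕ η) →* FreeGroup (Option α ⊕ Option η) :=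
  FreeGroup.map (Sum.map some some)

/-- boundary word of the closed-up surface: ζ'_0 = ζ, ζ'_(j+1) = y x⁻¹ y⁻¹ ζ'_j x -/
noncomputable def zc (g : ℕ) : ∀ j, FreeGroup (Lt g j ⊕ Ho j)
  | 0 => jn (Ho 0) (zeta (g + 1))
  | j + 1 => (of (Sum.inr none) * (of (Sum.inl none))⁻¹ * (of (Sum.inr none))⁻¹ * em (zc g j) *
      of (Sum.inl none) : FreeGroup (Option (Lt g j) ⊕ Option (Ho j)))

/-- the newest hole has the number 0 -/
def hk : ∀ j, Fin j → Ho j
  | 0 => fun i => i.elim0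
  | j + 1 => fun i => Fin.cases (motive := fun _ => Option (Ho j)) none (fun i => some (hk j i)) i

/-! ### exponents and the groups Tor, SS -/

section ex

variable {α η : Type}

open Classical in
/-- exponent of the letter l -/
noncomputable def xp (l : α) : FreeGroup α →* Multiplicative ℤ :=
  FreeGroup.lift fun a => if a = l then Multiplicative.ofAdd 1 else 1

/-- exponent of the letter l -/
noncomputable def ep (l : α) (u : FreeGroup α) : ℤ := Multiplicative.toAdd (xp l u)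

theorem ep_mul (l : α) (u v : FreeGroup α) : ep l (u * v) = ep l u + ep l v := by
  unfold ep; rw [_root_.map_mul]; rfl

theorem ep_inv (l : α) (u : FreeGroup α) : ep l u⁻¹ = -ep l u := by
  unfold ep; rw [_root_.map_inv]; rfl

theorem ep_one (l : α) : ep l (1 : FreeGroup α) = 0 := by
  unfold ep; rw [_root_.map_one]; rfl

theorem ep_self (l : α) : ep l (of l) = 1 := by
  unfold ep xp
  rw [lift_apply_of, if_pos rfl]
  rfl

theorem ep_ne {l a : α} (h : a ≠ l) : ep l (of a) = 0 := by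
  unfold ep xp
  rw [lift_apply_of, if_neg h]
  rfl

theorem ep_conj (l : α) (c u : FreeGroup α) : ep l (c * u * c⁻¹) = ep l u := by
  rw [ep_mul, ep_mul, ep_inv]; ring

/-- class with finite support -/
noncomputable def cfs : FreeGroup α →* Multiplicative (α →₀ ℤ) :=
  FreeGroup.lift fun a => Multiplicative.ofAdd (Finsupp.single a 1)

theorem cfs_ep (l : α) (u : FreeGroup α) : (Multiplicative.toAdd (cfs u)) l = ep l u := by
  classical
  have : ((Finsupp.applyAddHom l : (α →₀ ℤ) →+ ℤ).toMultiplicative).comp cfs = xp l := fx fun a => by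
    rw [MonoidHom.comp_apply, cfs, xp, lift_apply_of, lift_apply_of]
    show Multiplicative.ofAdd ((Finsupp.single a (1 : ℤ)) l) = _
    by_cases h : a = l
    · subst h
      rw [if_pos rfl, Finsupp.single_eq_same]
    · rw [if_neg h, Finsupp.single_eq_of_ne (Ne.symm h)]
      rfl
  exact congrArg Multiplicative.toAdd (DFunLike.congr_fun this u)

/-- the exponents determine the class -/
theorem cls {G : Type} [CommGroup G] (f : FreeGroup α →* G) {a b : FreeGroup α}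
    (h : ∀ l, ep l a = ep l b) : f a = f b := by
  let g : (α →₀ ℤ) →+ Additive G :=
    Finsupp.liftAddHom fun a => zmultiplesHom (Additive G) (Additive.ofMul (f (of a)))
  have h1 : f = (AddMonoidHom.toMultiplicativeLeft g).comp cfs := fx fun a => by
    rw [MonoidHom.comp_apply, cfs, lift_apply_of]
    show f (of a) = Additive.toMul (g (Finsupp.single a 1))
    rw [Finsupp.liftAddHom_apply_single]
    simp
  have h2 : cfs a = cfs b := by
    apply Multiplicative.toAdd.injective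
    refine Finsupp.ext fun l => ?_
    rw [cfs_ep, cfs_ep, h]
  rw [h1, MonoidHom.comp_apply, MonoidHom.comp_apply, h2]

theorem ep_cls (φ : MulAut (FreeGroup α)) {a b : FreeGroup α} (h : ∀ l, ep l a = ep l b) (l : α) :
    ep l (φ a) = ep l (φ b) :=
  congrArg Multiplicative.toAdd (cls ((xp l).comp φ.toMonoidHom) h)

/-- mapping classes acting trivially on the homology of the base surface -/
def Tor (hl : η → α) (w : FreeGroup α) : Subgroup (MulAut (FreeGroup α)) where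
  carrier := {φ | φ ∈ Md hl w ∧ ∀ l, (∀ h, hl h ≠ l) → ∀ u, ep l (φ u) = ep l u}
  one_mem' := ⟨one_mem _, fun _ _ _ => rfl⟩
  mul_mem' := by
    rintro φ ψ ⟨h1, h2⟩ ⟨h3, h4⟩
    exact ⟨mul_mem h1 h3, fun l hl u => by rw [MulAut.mul_apply, h2 l hl, h4 l hl]⟩
  inv_mem' := by
    rintro φ ⟨h1, h2⟩
    refine ⟨inv_mem h1, fun l hl u => ?_⟩
    have := h2 l hl (φ⁻¹ u)
    rw [MulAut.apply_inv_self] at this
    exact this.symm

/-- φ(x_h) = c x_h c⁻¹ with the class of c equal to n_h [b] modulo the holes -/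
def Cn (hl : η → α) (b : α) (φ : MulAut (FreeGroup α)) (n : η → ℤ) : Prop :=
  ∀ h, ∃ c, φ (of (hl h)) = c * of (hl h) * c⁻¹ ∧
    ∀ l, (∀ h', hl h' ≠ l) → ep l c = n h * ep l (of b)

theorem Cn.one (hl : η → α) (b : α) : Cn hl b 1 0 := fun h =>
  ⟨1, by rw [one_mul, inv_one, mul_one]; rfl, fun l _ => by rw [ep_one]; simp⟩

theorem Cn.mul {hl : η → α} {w : FreeGroup α} {b : α} {φ ψ : MulAut (FreeGroup α)} {n m : η → ℤ}
    (hφ : φ ∈ Tor hl w) (h1 : Cn hl b φ n) (h2 : Cn hl b ψ m) : Cn hl b (φ * ψ) (n + m) := by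
  intro h
  obtain ⟨c, hc, hc'⟩ := h1 h
  obtain ⟨d, hd, hd'⟩ := h2 h
  refine ⟨φ d * c, ?_, fun l hl => ?_⟩
  · rw [MulAut.mul_apply, hd, _root_.map_mul, _root_.map_mul, _root_.map_inv, hc]
    group
  · rw [ep_mul, hφ.2 l hl, hc' l hl, hd' l hl, Pi.add_apply]
    ring

theorem Cn.inv {hl : η → α} {w : FreeGroup α} {b : α} {φ : MulAut (FreeGroup α)} {n : η → ℤ}
    (hφ : φ ∈ Tor hl w) (h1 : Cn hl b φ n) : Cn hl b φ⁻¹ (-n) := by
  intro h
  obtain ⟨c, hc, hc'⟩ := h1 h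
  refine ⟨(φ⁻¹ c)⁻¹, ?_, fun l hl => ?_⟩
  · have h3 : of (hl h) = φ⁻¹ c * φ⁻¹ (of (hl h)) * (φ⁻¹ c)⁻¹ := by
      rw [← _root_.map_inv, ← _root_.map_mul, ← _root_.map_mul, ← hc]
      exact (MulAut.inv_apply_self _ _ _).symm
    conv_rhs => rw [h3]
    group
  · rw [ep_inv, ((Tor _ w).inv_mem hφ).2 l hl, hc' l hl, Pi.neg_apply]
    ring

/-- the group G^L: acts trivially on the homology of the base surface, fixes the class of b, the
feet are dragged along multiples of b -/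
def SS (hl : η → α) (w : FreeGroup α) (b : α) : Subgroup (MulAut (FreeGroup α)) where
  carrier := {φ | φ ∈ Tor hl w ∧ (∀ l, ep l (φ (of b)) = ep l (of b)) ∧ ∃ n, Cn hl b φ n}
  one_mem' := ⟨one_mem _, fun _ => rfl, 0, Cn.one hl b⟩
  mul_mem' := by
    rintro φ ψ ⟨h1, h2, n, h3⟩ ⟨k1, k2, m, k3⟩
    refine ⟨mul_mem h1 k1, fun l => ?_, n + m, Cn.mul h1 h3 k3⟩
    rw [MulAut.mul_apply, ep_cls φ k2, h2]
  inv_mem' := by
    rintro φ ⟨h1, h2, n, h3⟩
    refine ⟨inv_mem h1, fun l => ?_, -n, Cn.inv h1 h3⟩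
    rw [← ep_cls φ⁻¹ h2, MulAut.inv_apply_self]

end ex

/-! ### interfaces -/

/-- FRM (8b): framing -/
def FRM : Prop := ∀ (α η : Type) (_ : Finite α) (hl : η → α) (_ : Function.Injective hl)
  (w : FreeGroup α) (b : α) (_ : ∀ h, hl h ≠ b),
  ∃ s : SS hl w b →* MulAut (FreeGroup (α ⊕ η)), ∀ φ : SS hl w b,
    (∀ u, s φ (jn η u) = jn η ((φ : MulAut (FreeGroup α)) u)) ∧
    (∀ h c, (φ : MulAut (FreeGroup α)) (of (hl h)) = c * of (hl h) * c⁻¹ → ep (hl h) c = 0 →
      s φ (of (Sum.inr h)) = of (Sum.inr h) * (jn η c)⁻¹)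

/-- THE: the closed-up surface is the standard surface -/
def THE : Prop := ∀ g j : ℕ,
  ∃ Θ : FreeGroup (Fin 2 × Fin (j + (g + 1))) ≃* FreeGroup (Lt g j ⊕ Ho j),
    Θ (zeta (j + (g + 1))) = zc g j ∧
    (∀ l, Θ (of (hiE j (g + 1) l)) = jn (Ho j) ((rho g j)⁻¹ * io g j (of l) * rho g j)) ∧
    (∀ k : Fin j, ∃ c ∈ Subgroup.closure (Set.range fun h =>
        (of (Sum.inl (hj g j h)) : FreeGroup (Lt g j ⊕ Ho j))),
      Θ (of (1, Fin.castAdd (g + 1) k)) =
        c * (of (Sum.inl (hj g j (hk j k))) : FreeGroup (Lt g j ⊕ Ho j))⁻¹ * c⁻¹) ∧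
    (∀ k : Fin j, ∃ c ∈ Subgroup.closure (Set.range fun h =>
        (of (Sum.inl (hj g j h)) : FreeGroup (Lt g j ⊕ Ho j))),
      Θ (of (0, Fin.castAdd (g + 1) k)) =
        c * (of (Sum.inr (hk j k)) : FreeGroup (Lt g j ⊕ Ho j)) * c⁻¹)

/-- LIN: linear algebra, uses only the invariance of the intersection form -/
def LIN : Prop := ∀ (K g : ℕ) (φ : St (K + (g + 1))) (n : Fin K → ℤ),
  (∀ i, ev (app φ (of (1, Fin.castAdd (g + 1) i))) = cf K g i) →
  (∀ i, ∃ m : Fin K → ℤ, ev (app φ (of (0, Fin.castAdd (g + 1) i))) =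
    xf K g i + n i • vn K g + ∑ j, m j • cf K g j) →
  (∀ l, ∃ m : Fin K → ℤ, ev (app φ (of (hiE K (g + 1) l))) =
    (Pi.single (hiE K (g + 1) l) 1 : Hh (K + (g + 1))) + ∑ j, m j • cf K g j) →
  ∃ sig, IsE K g n sig φ

/-- HOMQ (8c): the homomorphism to the standard mapping class group and its homology action -/
def HOMQ : Prop := ∀ K g : ℕ, ∃ s : SS (hj g K) (om g K) (bj g K) →* St (K + (g + 1)),
  (∀ (φ : SS (hj g K) (om g K) (bj g K)) (n : Ho K → ℤ),
    Cn (hj g K) (bj g K) (φ : MulAut (FreeGroup (Lt g K))) n →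
    ∃ sig, IsE K g (fun i => -n (hk K i)) sig (s φ)) ∧
  ∀ (φ : IT (g + 1)) (h : uj g K ((φ : St (g + 1)) : MulAut (FF (g + 1))) ∈
    SS (hj g K) (om g K) (bj g K)), s ⟨_, h⟩ = up K (g + 1) φ

/-- GEN0: the loops in the orbit of b generate the base surface group -/
def GEN0 : Prop := ∀ g : ℕ, Subgroup.closure (Orb (hj g 0) (om g 0) (of (bj g 0))) = ⊤

/-- TOWQ: output of the tower -/
def TOWQ : Prop := ∀ K g : ℕ, ∃ (Gt : Type) (_ : Group Gt) (S : Subgroup Gt)
  (s : S →* St (K + (g + 1))) (ι : IT (g + 1) →* S) (W : Set Gt) (ε : ℤ), (ε = 1 ∨ ε = -1) ∧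
  IsTower Gt K W ∧ (∀ x : IT (g + 1), s (ι x) = up K (g + 1) x) ∧
  (∀ t : S, ∃ lam sig, IsE K g lam sig (s t)) ∧
  ∀ w ∈ W, ∀ h : Gt, ∃ t : S, (t : Gt) = h * w * h⁻¹ ∧ ∃ I : Finset (Fin K), I.Nonempty ∧
    ∃ sig, IsE K g (fun i => if i ∈ I then ε else 0) sig (s t)

end Pool.Agent.TOW
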