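import Mathlib
import Pool.Agent.Helper76_TOR.TwQ

/-! TOW: homology classes: block pushes and conjugation. -/

set_option autoImplicit false

namespace Pool.Agent.TOW

open FreeGroup Pool.Agent.TST

variable {α η : Type}

/-- a homomorphism vanishes on u if it vanishes on all letters with nonzero exponent -/
theorem hom_zero {G : Type} [CommGroup G] (f : FreeGroup α →* G) {u : FreeGroup α}
    (h : ∀ a, ep a u = 0 ∨ f (of a) = 1) : f u = 1 := by
  let g : (α →₀ ℤ) →+ Additive G :=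
    Finsupp.liftAddHom fun a => zmultiplesHom (Additive G) (Additive.ofMul (f (of a)))
  have h1 : f = (AddMonoidHom.toMultiplicativeLeft g).comp cfs := fx fun a => by
    rw [MonoidHom.comp_apply, cfs, lift_apply_of]
    show f (of a) = Additive.toMul (g (Finsupp.single a 1))
    rw [Finsupp.liftAddHom_apply_single]
    simp
  rw [h1, MonoidHom.comp_apply]
  show Additive.toMul (g (Multiplicative.toAdd (cfs u))) = 1
  have h2 : g (Multiplicative.toAdd (cfs u)) = 0 := by
    show Finsupp.liftAddHom _ _ = _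
    rw [Finsupp.liftAddHom_apply]
    refine Finset.sum_eq_zero fun a _ => ?_
    show zmultiplesHom (Additive G) (Additive.ofMul (f (of a)))
      ((Multiplicative.toAdd (cfs u)) a) = 0
    rw [cfs_ep]
    rcases h a with h | h
    · rw [h]; simp
    · rw [h]; simp
  rw [h2]
  rfl

/-- equal modulo the classes of the holes -/
def Mo (hl : η → α) (u v : FreeGroup α) : Prop := ∀ l, (∀ h, hl h ≠ l) → ep l u = ep l v

theorem mo_pres {hl : η → α} {ψ : MulAut (FreeGroup α)}
    (hψ : ∀ h, ∃ c, ψ (of (hl h)) = c * of (hl h) * c⁻¹) {u v : FreeGroup α} (huv : Mo hl u v) :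
    Mo hl (ψ u) (ψ v) := by
  intro l hl'
  have h0 : ((xp l).comp ψ.toMonoidHom) (u * v⁻¹) = 1 := by
    refine hom_zero _ fun a => ?_
    by_cases ha : ∃ h, hl h = a
    · right
      obtain ⟨h, rfl⟩ := ha
      obtain ⟨c, hc⟩ := hψ h
      apply Multiplicative.toAdd.injective
      show ep l (ψ (of (hl h))) = 0
      rw [hc, ep_conj, ep_ne (hl' h)]
    · left
      push Not at ha
      rw [ep_mul, ep_inv, huv a ha]
      ring
  have h1 : ep l (ψ (u * v⁻¹)) = 0 := congrArg Multiplicative.toAdd h0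
  rw [_root_.map_mul, _root_.map_inv, ep_mul, ep_inv] at h1
  linarith

theorem conj_inv {hl : η → α} {ψ : MulAut (FreeGroup α)}
    (hψ : ∀ h, ∃ c, ψ (of (hl h)) = c * of (hl h) * c⁻¹) :
    ∀ h, ∃ c, ψ⁻¹ (of (hl h)) = c * of (hl h) * c⁻¹ := by
  intro h
  obtain ⟨c, hc⟩ := hψ h
  refine ⟨(ψ⁻¹ c)⁻¹, ?_⟩
  have h3 : of (hl h) = ψ⁻¹ c * ψ⁻¹ (of (hl h)) * (ψ⁻¹ c)⁻¹ := by
    rw [← _root_.map_inv, ← _root_.map_mul, ← _root_.map_mul, ← hc]
    exact (MulAut.inv_apply_self _ _ _).symm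
  conv_rhs => rw [h3]
  group

/-- an endomorphism which conjugates the holes and fixes the class of b fixes all classes in
[b] Z + holes -/
theorem fix_cls {hl : η → α} {b : α} {φ : FreeGroup α →* FreeGroup α}
    (hφ : ∀ h, ∃ c, φ (of (hl h)) = c * of (hl h) * c⁻¹)
    (hb : ∀ l, ep l (φ (of b)) = ep l (of b)) {u : FreeGroup α}
    (hu : ∀ l, (∀ h, hl h ≠ l) → l ≠ b → ep l u = 0) (l : α) : ep l (φ u) = ep l u := by
  have h0 : (((xp l).comp φ) / xp l) u = 1 := by
    refine hom_zero _ fun a => ?_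
    by_cases ha : ∃ h, hl h = a
    · right
      obtain ⟨h, rfl⟩ := ha
      obtain ⟨c, hc⟩ := hφ h
      rw [MonoidHom.div_apply, div_eq_one]
      apply Multiplicative.toAdd.injective
      show ep l (φ (of (hl h))) = ep l (of (hl h))
      rw [hc, ep_conj]
    · by_cases hab : a = b
      · right
        subst hab
        rw [MonoidHom.div_apply, div_eq_one]
        apply Multiplicative.toAdd.injective
        exact hb l
      · left
        push Not at ha
        exact hu a ha hab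
  rw [MonoidHom.div_apply, div_eq_one] at h0
  exact congrArg Multiplicative.toAdd h0

/-! ### block pushes -/

namespace Lev

variable {hl : η → α} {w : FreeGroup α} (L : Lev hl w)

theorem W_mo (f1 : ∀ l, L.D.S l = true → ∃ h, hl h = l) (u : FreeGroup α) :
    Mo hl (L.D.WH u) u := by
  intro l hl'
  have hY : ep l L.D.Y = 0 := by
    have : (xp l) L.D.Y = (1 : FreeGroup α →* Multiplicative ℤ) L.D.Y :=
      lt_ind (fun a ha => by
        obtain ⟨h, rfl⟩ := f1 a ha
        apply Multiplicative.toAdd.injective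
        exact ep_ne (hl' h)) L.ok.hY
    exact congrArg Multiplicative.toAdd this
  have : (xp l).comp L.D.WH = xp l := fx fun a => by
    apply Multiplicative.toAdd.injective
    show ep l (L.D.WH (of a)) = ep l (of a)
    rcases L.D.cases a with rfl | ha | ⟨ha, h1⟩
    · rw [Fr.WH_a, ep_mul, ep_mul, ep_mul, ep_inv, ep_inv, hY]
      ring
    · rw [Fr.WH_S L.ok ha, ep_mul, ep_mul, ep_inv]
      ring
    · rw [Fr.WH_r ha h1]
  exact congrArg Multiplicative.toAdd (DFunLike.congr_fun this u)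

theorem bp_mo (f1 : ∀ l, L.D.S l = true → ∃ h, hl h = l) (u : FreeGroup α) :
    Mo hl (L.bp u) u := by
  have h1 := mo_pres L.cj (L.W_mo f1 (L.θ⁻¹ u))
  rw [← L.bp_θ, MulAut.apply_inv_self] at h1
  exact h1

theorem bp_tor (f1 : ∀ l, L.D.S l = true → ∃ h, hl h = l) : L.bp ∈ Tor hl w :=
  ⟨L.bp_mem, fun l hl' u => L.bp_mo f1 u l hl'⟩

theorem bp_b {b : α} (hb : L.D.b = b)
    (f2 : ∀ l, (∀ h, hl h ≠ l) → ep l L.gam = ep l (of b)) (l : α) :
    ep l (L.bp (of b)) = ep l (of b) := by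
  have h1 : Mo hl (L.θ⁻¹ (of b)) (of b) := by
    have h2 : Mo hl (of b) L.gam := fun l hl' => (f2 l hl').symm
    have h3 := mo_pres (conj_inv L.cj) h2
    have h4 : L.θ⁻¹ L.gam = of b := by
      rw [gam, MulAut.inv_apply_self, hb]
    rwa [h4] at h3
  have h5 : ∀ l, ep l (L.D.WH (L.θ⁻¹ (of b))) = ep l (L.θ⁻¹ (of b)) := by
    refine fix_cls L.W_hole (b := b) (fun l => ?_) (fun l h6 h7 => ?_)
    · rw [← hb, Fr.WH_b L.ok]
    · rw [h1 l h6, ep_ne (Ne.symm h7)]
  have h6 := ep_cls L.θ h5 l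
  rwa [← L.bp_θ, MulAut.apply_inv_self] at h6

theorem bp_cn {b : α} (f1 : ∀ l, L.D.S l = true → ∃ h, hl h = l)
    (f2 : ∀ l, (∀ h, hl h ≠ l) → ep l L.gam = ep l (of b)) :
    Cn hl b L.bp (fun h => if L.D.S (hl h) = true then -1 else 0) := by
  intro h
  obtain ⟨d, hd⟩ := L.cj h
  have hv : ∃ v, L.D.WH (of (hl h)) = v * of (hl h) * v⁻¹ ∧ ∀ l, (∀ h', hl h' ≠ l) →
      ep l (L.θ v) = (if L.D.S (hl h) = true then -1 else 0) * ep l (of b) := by
    rcases L.D.cases (hl h) with h1 | h1 | ⟨h1, h2⟩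
    · exact absurd h1 (L.hole h).1
    · refine ⟨(of L.D.b)⁻¹, ?_, fun l hl' => ?_⟩
      · rw [Fr.WH_S L.ok h1, inv_inv]
      · rw [if_pos h1, _root_.map_inv, ep_inv]
        have : ep l (L.θ (of L.D.b)) = ep l (of b) := f2 l hl'
        rw [this]
        ring
    · refine ⟨1, ?_, fun l _ => ?_⟩
      · rw [Fr.WH_r h1 h2]; simp
      · rw [if_neg (by rw [h1]; exact Bool.false_ne_true), _root_.map_one, ep_one]
        ring
  obtain ⟨v, hv1, hv2⟩ := hv
  refine ⟨(L.bp d)⁻¹ * L.θ v * d, ?_, fun l hl' => ?_⟩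
  · have h1 : of (hl h) = d⁻¹ * L.θ (of (hl h)) * d := by
      rw [hd]; group
    conv_lhs => rw [h1]
    rw [_root_.map_mul, _root_.map_mul, _root_.map_inv, L.bp_θ, hv1, _root_.map_mul,
      _root_.map_mul, _root_.map_inv, hd]
    group
  · rw [ep_mul, ep_mul, ep_inv, L.bp_mo f1 d l hl', hv2 l hl']
    ring

end Lev

/-! ### conjugation -/

theorem cnj {hl : η → α} {w : FreeGroup α} {b : α} {φ ψ : MulAut (FreeGroup α)} {n : η → ℤ}
    (hψ : ψ ∈ Tor hl w) (hφ : φ ∈ Tor hl w) (hb : ∀ l, ep l (φ (of b)) = ep l (of b))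
    (hn : Cn hl b φ n) :
    ψ * φ * ψ⁻¹ ∈ SS hl w b ∧ Cn hl b (ψ * φ * ψ⁻¹) n := by
  have h1 : ψ * φ * ψ⁻¹ ∈ Tor hl w := mul_mem (mul_mem hψ hφ) (inv_mem hψ)
  have h2 : Cn hl b (ψ * φ * ψ⁻¹) n := by
    intro h
    obtain ⟨e, he⟩ := hψ.1.2 h
    obtain ⟨c, hc, hc'⟩ := hn h
    refine ⟨((ψ * φ * ψ⁻¹) e)⁻¹ * ψ c * e, ?_, fun l hl' => ?_⟩
    · have h3 : of (hl h) = e⁻¹ * ψ (of (hl h)) * e := by
        rw [he]; group
      conv_lhs => rw [h3]
      rw [_root_.map_mul, _root_.map_mul, _root_.map_inv]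
      have h4 : (ψ * φ * ψ⁻¹) (ψ (of (hl h))) = ψ c * (e * of (hl h) * e⁻¹) * (ψ c)⁻¹ := by
        show ψ (φ (ψ⁻¹ (ψ (of (hl h))))) = _
        rw [MulAut.inv_apply_self, hc, _root_.map_mul, _root_.map_mul, _root_.map_inv, he]
      rw [h4]
      group
    · rw [ep_mul, ep_mul, ep_inv, h1.2 l hl', hψ.2 l hl', hc' l hl']
      ring
  refine ⟨⟨h1, fun l => ?_, n, h2⟩, h2⟩
  have h3 : ∀ l, ep l (φ (ψ⁻¹ (of b))) = ep l (ψ⁻¹ (of b)) := by
    have := fix_cls (φ := φ.toMonoidHom) hφ.1.2 (b := b) hb (u := ψ⁻¹ (of b))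
      (fun l h4 h5 => by
        rw [((Tor hl w).inv_mem hψ).2 l h4, ep_ne (Ne.symm h5)])
    exact this
  have h4 := ep_cls ψ h3 l
  rw [MulAut.apply_inv_self] at h4
  exact h4

/-! ### from one level to the next -/

theorem ep_cp (a : α) (u : FreeGroup (Option α)) : ep (some a) u = ep a (cp u) := by
  have : xp (some a) = (xp a).comp cp := fx fun o => by
    apply Multiplicative.toAdd.injective
    show ep (some a) (of o) = ep a (cp (of o))
    rcases o with _ | c
    · rw [ep_ne (Option.some_ne_none a).symm]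
      show (0 : ℤ) = ep a (cp (xx α))
      rw [cp_x, ep_one]
    · rw [cp_some]
      by_cases h : c = a
      · subst h; rw [ep_self, ep_self]
      · rw [ep_ne h, ep_ne fun e => h (Option.some.inj e)]
  exact congrArg Multiplicative.toAdd (DFunLike.congr_fun this u)

theorem ep_none_inc (u : FreeGroup α) : ep none (inc u : FreeGroup (Option α)) = 0 := by
  have : (xp (none : Option α)).comp inc = 1 := fx fun a => by
    apply Multiplicative.toAdd.injective
    rw [MonoidHom.comp_apply, inc_of]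
    exact ep_ne (Option.some_ne_none a)
  exact congrArg Multiplicative.toAdd (DFunLike.congr_fun this u)

theorem ep_some_inc (a : α) (u : FreeGroup α) : ep (some a) (inc u) = ep a u := by
  rw [ep_cp, cp_inc]

theorem up_tor {hl : η → α} {w : FreeGroup α} {φ : MulAut (FreeGroup α)} (h : φ ∈ Tor hl w) :
    upE (sm α) φ ∈ Tor (Option.map hl) (inc w * xx α) := by
  refine ⟨up_Md h.1, ?_⟩
  rintro (_ | a) ha u
  · exact absurd rfl (ha none)
  · rw [ep_cp, cp_up, h.2 a fun h' e => ha (some h') (congrArg some e), ← ep_cp]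

theorem lam_tor {hl : η → α} {w h0 : FreeGroup α}
    {lam : FreeGroup α →* MulAut (FreeGroup (Option α))} (s : Sto hl w h0 lam)
    (γ : FreeGroup α) : lam γ ∈ Tor (Option.map hl) (inc w * xx α) := by
  refine ⟨s.md γ, ?_⟩
  rintro (_ | a) ha u
  · exact absurd rfl (ha none)
  · rw [ep_cp, s.cap, ← ep_cp]

end Pool.Agent.TOW
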