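import Mathlib
import Pool.Agent.Helper76_TOR.TwQ
import Pool.Agent.Helper98_TOR.Birm
import Pool.Agent.Helper96_TOR.Trv

/-! TOW: transport of the Birman map to the closed-up surfaces; all storeys. -/

set_option autoImplicit false

namespace Pool.Agent.TOW

open FreeGroup Pool.Agent.TST Pool.Agent.TOR Pool.Agent.TOR.H59 Pool.Agent.TOR96

/-! ### transport -/

section tr

variable {β γ δ : Type}

/-- extension of a homomorphism by x ↦ x -/
def oH (f : FreeGroup β →* FreeGroup γ) : FreeGroup (Option β) →* FreeGroup (Option γ) :=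
  FreeGroup.lift fun o => o.elim (xx γ) (fun b => inc (f (of b)))

theorem oH_x (f : FreeGroup β →* FreeGroup γ) : oH f (xx β) = xx γ := by
  rw [oH, lift_apply_of]
  rfl

theorem oH_inc (f : FreeGroup β →* FreeGroup γ) (u : FreeGroup β) : oH f (inc u) = inc (f u) := by
  have : (oH f).comp inc = inc.comp f := fx fun a => by
    rw [MonoidHom.comp_apply, MonoidHom.comp_apply, inc_of, oH, lift_apply_of]
    rfl
  exact DFunLike.congr_fun this u

theorem oH_comp (f : FreeGroup β →* FreeGroup γ) (k : FreeGroup γ →* FreeGroup β)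
    (h : ∀ u, k (f u) = u) : (oH k).comp (oH f) = MonoidHom.id _ := by
  refine fx fun o => ?_
  rw [MonoidHom.comp_apply, MonoidHom.id_apply]
  rcases o with _ | a
  · show oH k (oH f (xx β)) = xx β
    rw [oH_x, oH_x]
  · rw [← inc_of, oH_inc, oH_inc, h]

/-- extension of an isomorphism by x ↦ x -/
def oE (Θ : FreeGroup β ≃* FreeGroup γ) : FreeGroup (Option β) ≃* FreeGroup (Option γ) :=
  MonoidHom.toMulEquiv (oH Θ.toMonoidHom) (oH Θ.symm.toMonoidHom)
    (oH_comp _ _ fun u => Θ.symm_apply_apply u) (oH_comp _ _ fun u => Θ.apply_symm_apply u)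

theorem oE_x (Θ : FreeGroup β ≃* FreeGroup γ) : oE Θ (xx β) = xx γ := oH_x Θ.toMonoidHom

theorem oE_inc (Θ : FreeGroup β ≃* FreeGroup γ) (u : FreeGroup β) :
    oE Θ (inc u) = inc (Θ u) := oH_inc Θ.toMonoidHom u

theorem oE_symm_x (Θ : FreeGroup β ≃* FreeGroup γ) : (oE Θ).symm (xx γ) = xx β := by
  rw [← oE_x Θ, MulEquiv.symm_apply_apply]

theorem oE_symm_inc (Θ : FreeGroup β ≃* FreeGroup γ) (u : FreeGroup γ) :
    (oE Θ).symm (inc u) = inc (Θ.symm u) := by
  rw [MulEquiv.symm_apply_eq, oE_inc, MulEquiv.apply_symm_apply]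

theorem cp_oE (Θ : FreeGroup β ≃* FreeGroup γ) (u : FreeGroup (Option β)) :
    cp (oE Θ u) = Θ (cp u) := by
  have : (cp (α := γ)).comp (oE Θ).toMonoidHom = Θ.toMonoidHom.comp cp := fx fun o => by
    show cp (oE Θ (of o)) = Θ (cp (of o))
    rcases o with _ | a
    · show cp (oE Θ (xx β)) = Θ (cp (xx β))
      rw [oE_x, cp_x, cp_x, _root_.map_one]
    · rw [← inc_of, oE_inc, cp_inc, cp_inc]
  exact DFunLike.congr_fun this u

theorem cp_oE_symm (Θ : FreeGroup β ≃* FreeGroup γ) (u : FreeGroup (Option γ)) :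
    cp ((oE Θ).symm u) = Θ.symm (cp u) := by
  rw [← MulEquiv.symm_apply_eq, MulEquiv.symm_symm, ← cp_oE, MulEquiv.apply_symm_apply]

theorem UEX.tr (Θ : FreeGroup β ≃* FreeGroup γ) {z : FreeGroup β} (h : UEX z) : UEX (Θ z) := by
  intro E h1 h2 h3
  have h4 := h (MulAut.congr (oE Θ).symm E) ?_ ?_ ?_
  · refine MulEquiv.ext fun u => ?_
    have h5 := DFunLike.congr_fun h4 ((oE Θ).symm u)
    have h6 : (oE Θ).symm (E (oE Θ ((oE Θ).symm u))) = (oE Θ).symm u := h5
    rw [MulEquiv.apply_symm_apply] at h6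
    exact (oE Θ).symm.injective h6
  · show (oE Θ).symm (E (oE Θ (inc z * xx β))) = _
    rw [_root_.map_mul (oE Θ), oE_inc, oE_x, h1, _root_.map_mul, oE_symm_inc, oE_symm_x,
      MulEquiv.symm_apply_apply]
  · intro u
    show cp ((oE Θ).symm (E (oE Θ u))) = _
    rw [cp_oE_symm, h2, cp_oE, MulEquiv.symm_apply_apply]
  · show (oE Θ).symm (E (oE Θ (xx β))) = _
    rw [oE_x, h3, oE_symm_x]

/-- transported push map -/
def trP (Θ : FreeGroup β ≃* FreeGroup γ) (P : FreeGroup β →* MulAut (FreeGroup (Option β))) :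
    FreeGroup γ →* MulAut (FreeGroup (Option γ)) :=
  ((MulAut.congr (oE Θ)).toMonoidHom.comp P).comp Θ.symm.toMonoidHom

theorem trP_apply (Θ : FreeGroup β ≃* FreeGroup γ)
    (P : FreeGroup β →* MulAut (FreeGroup (Option β))) (g : FreeGroup γ)
    (u : FreeGroup (Option γ)) : trP Θ P g u = oE Θ (P (Θ.symm g) ((oE Θ).symm u)) := rfl

theorem up_tr (Θ : FreeGroup β ≃* FreeGroup γ) (φ : MulAut (FreeGroup γ))
    (u : FreeGroup (Option γ)) : upE (sm γ) φ u =
      oE Θ (upE (sm β) (MulAut.congr Θ.symm φ) ((oE Θ).symm u)) := by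
  have : (upE (sm γ) φ).toMonoidHom = ((oE Θ).toMonoidHom.comp
      (upE (sm β) (MulAut.congr Θ.symm φ)).toMonoidHom).comp (oE Θ).symm.toMonoidHom :=
    fx fun o => by
      show upE (sm γ) φ (of o) =
        oE Θ (upE (sm β) (MulAut.congr Θ.symm φ) ((oE Θ).symm (of o)))
      rcases o with _ | a
      · show upE (sm γ) φ (xx γ) =
          oE Θ (upE (sm β) (MulAut.congr Θ.symm φ) ((oE Θ).symm (xx γ)))
        rw [up_x, oE_symm_x, up_x, oE_x]
      · rw [← inc_of, up_inc, oE_symm_inc, up_inc, oE_inc]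
        show _ = inc (Θ (Θ.symm (φ (Θ (Θ.symm (of a))))))
        rw [MulEquiv.apply_symm_apply, MulEquiv.apply_symm_apply]
  exact DFunLike.congr_fun this u

theorem Bir.tr (Θ : FreeGroup β ≃* FreeGroup γ) {z : FreeGroup β}
    {P : FreeGroup β →* MulAut (FreeGroup (Option β))} (h : Bir z P) : Bir (Θ z) (trP Θ P) where
  fix := fun g => by
    rw [trP_apply, _root_.map_mul, oE_symm_inc, oE_symm_x, MulEquiv.symm_apply_apply, h.fix,
      _root_.map_mul, oE_inc, oE_x]
  cap := fun g u => by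
    rw [trP_apply, cp_oE, h.cap, ← cp_oE, MulEquiv.apply_symm_apply]
  con := fun g => by
    obtain ⟨c, hc, hc'⟩ := h.con (Θ.symm g)
    refine ⟨oE Θ c, ?_, ?_⟩
    · rw [trP_apply, oE_symm_x, hc, _root_.map_mul, _root_.map_mul, _root_.map_inv, oE_x]
    · rw [cp_oE, hc', _root_.map_inv, MulEquiv.apply_symm_apply]
  eqv := fun φ hφ g => by
    have h1 : (MulAut.congr Θ.symm φ) z = z := by
      show Θ.symm (φ (Θ z)) = z
      rw [hφ, MulEquiv.symm_apply_apply]
    have h2 := h.eqv _ h1 (Θ.symm g)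
    have e1 : upE (sm γ) φ = MulAut.congr (oE Θ) (upE (sm β) (MulAut.congr Θ.symm φ)) :=
      MulEquiv.ext fun u => up_tr Θ φ u
    have e2 : trP Θ P g = MulAut.congr (oE Θ) (P (Θ.symm g)) := rfl
    have e3 : trP Θ P (φ g) = MulAut.congr (oE Θ) (P (MulAut.congr Θ.symm φ (Θ.symm g))) := by
      show MulAut.congr (oE Θ) (P (Θ.symm (φ g))) =
        MulAut.congr (oE Θ) (P (Θ.symm (φ (Θ (Θ.symm g)))))
      rw [MulEquiv.apply_symm_apply]
    rw [e1, e2, e3, ← _root_.map_inv, ← _root_.map_mul, ← _root_.map_mul, h2]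

theorem Exa.tr (Θ : FreeGroup β ≃* FreeGroup γ)
    {P : FreeGroup β →* MulAut (FreeGroup (Option β))} {h : FreeGroup β} (hE : Exa P h) :
    Exa (trP Θ P) (Θ h) := by
  unfold Exa at *
  rw [trP_apply, oE_symm_x, MulEquiv.symm_apply_apply, hE, _root_.map_mul, _root_.map_mul,
    _root_.map_inv, oE_inc, oE_x]

end tr

/-! ### the closed-up word -/

theorem em_jn {α η : Type} (u : FreeGroup α) :
    em (jn η u) = jn (Option η) (inc u : FreeGroup (Option α)) := by
  have : (em (α := α) (η := η)).comp (jn η) = (jn (Option η)).comp inc := fx fun a => by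
    rw [MonoidHom.comp_apply, MonoidHom.comp_apply, inc_of, mof, mof, em, FreeGroup.map.of]
    rfl
  exact DFunLike.congr_fun this u

theorem em_zh {α η : Type} (hl : η → α) (h : η) :
    em (zh hl h) = zh (Option.map hl) (some h) := by
  unfold zh em
  simp only [_root_.map_mul, _root_.map_inv, FreeGroup.map.of]
  rfl

theorem em_zz {α η : Type} {hl : η → α} {zz : FreeGroup (α ⊕ η)}
    (h : zz ∈ Subgroup.closure (Set.range (zh hl))) :
    em zz ∈ Subgroup.closure (Set.range (zh (Option.map hl))) := by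
  have h4 : em zz ∈ (Subgroup.closure (Set.range (zh hl))).map em := ⟨_, h, rfl⟩
  rw [MonoidHom.map_closure] at h4
  refine Subgroup.closure_mono ?_ h4
  rintro _ ⟨_, ⟨h, rfl⟩, rfl⟩
  exact ⟨some h, (em_zh hl h).symm⟩

theorem zc_eq (g : ℕ) : ∀ j, ∃ zz ∈ Subgroup.closure (Set.range (zh (hj g j))),
    zc g j = zz * jn (Ho j) (om g j)
  | 0 => ⟨1, one_mem _, by rw [one_mul]; rfl⟩
  | j + 1 => by
    obtain ⟨zz, h1, h2⟩ := zc_eq g j
    have hm : (zh (Option.map (hj g j)) none * em zz :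
        FreeGroup (Option (Lt g j) ⊕ Option (Ho j))) ∈
        Subgroup.closure (Set.range (zh (Option.map (hj g j)))) :=
      mul_mem (Subgroup.subset_closure ⟨none, rfl⟩) (em_zz h1)
    refine ⟨(zh (Option.map (hj g j)) none * em zz :
      FreeGroup (Option (Lt g j) ⊕ Option (Ho j))), hm, ?_⟩
    show (of (Sum.inr none) * (of (Sum.inl none))⁻¹ * (of (Sum.inr none))⁻¹ * em (zc g j) *
      of (Sum.inl none) : FreeGroup (Option (Lt g j) ⊕ Option (Ho j))) = _
    rw [h2, _root_.map_mul, em_jn]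
    have e : jn (Ho (j + 1)) (om g (j + 1)) =
        (jn (Option (Ho j)) (inc (om g j)) * of (Sum.inl none) :
          FreeGroup (Option (Lt g j) ⊕ Option (Ho j))) := by
      show jn (Option (Ho j)) (inc (om g j) * xx (Lt g j)) = _
      rw [_root_.map_mul]
      congr 1
    rw [e]
    have key : ∀ {G : Type} [Group G] (a b c d : G), a * (b * c) * d = a * b * (c * d) := by
      intros
      group
    exact key _ _ _ _

/-! ### levels -/

/-- the loop h_j = ρ⁻¹ b ρ -/
noncomputable def hh (g j : ℕ) : FreeGroup (Lt g j) :=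
  (rho g j)⁻¹ * io g j (of ((1 : Fin 2), Fin.last g)) * rho g j

theorem hh_zero (g : ℕ) : hh g 0 = of (bj g 0) := by
  show (1 : FreeGroup (Fin 2 × Fin (g + 1)))⁻¹ * of ((1 : Fin 2), Fin.last g) * 1 = _
  rw [inv_one, one_mul, mul_one]
  rfl

theorem hh_succ (g j : ℕ) : hh g (j + 1) =
    ((xx (Lt g j))⁻¹ * inc (hh g j) * xx (Lt g j) : FreeGroup (Option (Lt g j))) := by
  show ((inc (rho g j) * xx (Lt g j))⁻¹ * inc (io g j (of ((1 : Fin 2), Fin.last g))) *
    (inc (rho g j) * xx (Lt g j)) : FreeGroup (Option (Lt g j))) = _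
  unfold hh
  simp only [_root_.map_mul, _root_.map_inv]
  group

theorem map_mem_lt {α β : Type} {p : β → Prop} (f : α → β) (h : ∀ l, p (f l)) (u : FreeGroup α) :
    FreeGroup.map f u ∈ lt p := by
  induction u using FreeGroup.induction_on with
  | C1 => rw [_root_.map_one]; exact one_mem _
  | of l => rw [FreeGroup.map.of]; exact of_mem_lt (h l)
  | inv_of l h => rw [_root_.map_inv]; exact inv_mem h
  | mul x y hx hy => rw [_root_.map_mul]; exact mul_mem hx hy

/-- the frame of the base surface -/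
noncomputable def D0 (g : ℕ) : Fr (Fin 2 × Fin (g + 1)) where
  a := (0, Fin.last g)
  b := (1, Fin.last g)
  S := fun _ => false
  Y := 1
  R := 1
  Z := FreeGroup.map (loE g 1) (zeta g)

theorem D0_ok (g : ℕ) : (D0 g).Ok where
  ab := fun e => by
    have h : (0 : Fin 2) = 1 := congrArg Prod.fst e
    exact absurd h (by decide)
  Sa := rfl
  Sb := rfl
  hY := one_mem _
  hR := one_mem _
  hZ := by
    refine map_mem_lt _ (fun l => ⟨rfl, fun e => ?_, fun e => ?_⟩) _
    · have h2 := congrArg (fun x => (Prod.snd x : Fin (g + 1)).val) e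
      have h3 : (Fin.castAdd 1 l.2).val = g := h2
      rw [Fin.val_castAdd] at h3
      omega
    · have h2 := congrArg (fun x => (Prod.snd x : Fin (g + 1)).val) e
      have h3 : (Fin.castAdd 1 l.2).val = g := h2
      rw [Fin.val_castAdd] at h3
      omega

theorem D0_om (g : ℕ) : (D0 g).om0 = zeta (g + 1) := by
  rw [zeta_add, zeta_one]
  simp only [_root_.map_mul, _root_.map_inv, FreeGroup.map.of]
  have e : ∀ e : Fin 2, hiE g 1 (e, 0) = (e, Fin.last g) := fun e => rfl
  rw [e, e]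
  unfold Fr.om0 D0
  group

/-- the level with no moved hole -/
noncomputable def L0 (g : ℕ) : Lev (hj g 0) (om g 0) where
  D := D0 g
  ok := D0_ok g
  θ := 1
  hθ := D0_om g
  hole := fun h => Empty.elim h
  cj := fun h => Empty.elim h

theorem bp_one {α η : Type} {hl : η → α} {w : FreeGroup α} (L : Lev hl w)
    (hY : L.D.Y = 1) (hS : ∀ l, L.D.S l = false) : L.bp = 1 := by
  have : L.D.W L.ok = 1 := by
    refine aut_ext fun l => ?_
    rw [Fr.W_apply]
    by_cases h : l = L.D.a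
    · subst h
      rw [Fr.WH_a, hY]
      show _ = of L.D.a
      group
    · rw [Fr.WH_r (hS l) h]
      rfl
  unfold Lev.bp
  rw [this, mul_one, mul_inv_cancel]

/-- storeys -/
theorem storeys (hB : BIRM) (hT : THE) (hG : GEN0) (g : ℕ) : ∀ j,
    Subgroup.closure (Orb (hj g j) (om g j) (hh g j)) = ⊤ ∧
    (∃ L : Lev (hj g j) (om g j), L.gam = hh g j ∧ L.bp = 1 ∧ L.D.Y = 1 ∧
      ∀ l, L.D.S l = false) ∧
    ∃ lam, Sto (hj g j) (om g j) (hh g j) lam := by
  have key : ∀ j, Subgroup.closure (Orb (hj g j) (om g j) (hh g j)) = ⊤ →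
      (∃ L : Lev (hj g j) (om g j), L.gam = hh g j ∧ L.bp = 1 ∧ L.D.Y = 1 ∧
        ∀ l, L.D.S l = false) → ∃ lam, Sto (hj g j) (om g j) (hh g j) lam := by
    rintro j h1 ⟨L, h2, h3, _, _⟩
    obtain ⟨hU, P, hP, hE⟩ := hB (j + (g + 1)) (by omega)
    obtain ⟨Θ, t1, t2, -, -⟩ := hT g j
    obtain ⟨zz, z1, z2⟩ := zc_eq g j
    have hU' := UEX.tr Θ hU
    have hP' := Bir.tr Θ hP
    rw [t1, z2] at hU' hP'
    have hE' : Exa (trP Θ P) (jn (Ho j) L.gam) := by
      rw [h2]
      have := Exa.tr Θ (hE (Fin.natAdd j (Fin.last g)))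
      have e : (of ((1 : Fin 2), Fin.natAdd j (Fin.last g)) :
          FreeGroup (Fin 2 × Fin (j + (g + 1)))) = of (hiE j (g + 1) (1, Fin.last g)) := rfl
      rw [e, t2] at this
      exact this
    rw [← h2]
    refine storey z1 hU' hP' L h3 hE' ?_
    rw [h2]
    exact h1
  intro j
  induction j with
  | zero =>
    have h1 : Subgroup.closure (Orb (hj g 0) (om g 0) (hh g 0)) = ⊤ := by
      rw [hh_zero]
      exact hG g
    have h2 : ∃ L : Lev (hj g 0) (om g 0), L.gam = hh g 0 ∧ L.bp = 1 ∧ L.D.Y = 1 ∧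
        ∀ l, L.D.S l = false := by
      refine ⟨L0 g, ?_, bp_one _ rfl (fun _ => rfl), rfl, fun _ => rfl⟩
      rw [hh_zero]
      rfl
    exact ⟨h1, h2, key 0 h1 h2⟩
  | succ j ih =>
    obtain ⟨h1, ⟨L, l1, l2, l3, l4⟩, -⟩ := ih
    have k1 : Subgroup.closure (Orb (hj g (j + 1)) (om g (j + 1)) (hh g (j + 1))) = ⊤ := by
      rw [hh_succ]
      exact gen_step L l1 h1
    have k2 : ∃ L : Lev (hj g (j + 1)) (om g (j + 1)), L.gam = hh g (j + 1) ∧ L.bp = 1 ∧
        L.D.Y = 1 ∧ ∀ l, L.D.S l = false := by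
      have e1 : L.keep.D.Y = 1 := by
        show inc L.D.Y = 1
        rw [l3, _root_.map_one]
      have e2 : ∀ l, L.keep.D.S l = false := by
        rintro (_ | l)
        · rfl
        · exact l4 l
      refine ⟨L.keep, ?_, bp_one _ e1 e2, e1, e2⟩
      rw [hh_succ, ← l1]
      exact L.keep_gam
    exact ⟨k1, k2, key (j + 1) k1 k2⟩

end Pool.Agent.TOW
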