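import Mathlib
import Pool.Agent.Helper76_TOR.TwT
import Pool.Agent.Helper76_TOR.TwH

/-! TOW: the tower of groups, TOWQ. -/

set_option autoImplicit false

namespace Pool.Agent.TOW

open FreeGroup Pool.Agent.TST Pool.Agent.TOR Pool.Agent.TOR.H59 Pool.Agent.TOR96
open Pool.Agent.TOR.H29 Pool.Agent.TOR.SA Pool.Agent.TNF

theorem ab_ep {α : Type} {u v : FreeGroup α} (h : Abelianization.of u = Abelianization.of v)
    (l : α) : ep l u = ep l v := by
  have h1 := congrArg (Abelianization.lift (xp l)) h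
  rw [Abelianization.lift_apply_of, Abelianization.lift_apply_of] at h1
  exact congrArg Multiplicative.toAdd h1

/-- a storey of the tower of groups -/
structure Twr (g j : ℕ) where
  Γ : Type
  grp : Group Γ
  a : Γ →* MulAut (FreeGroup (Lt g j))
  mem : ∀ x, a x ∈ Tor (hj g j) (om g j)

attribute [instance] Twr.grp

/-- the base -/
def T0 (g : ℕ) : Twr g 0 where
  Γ := IT (g + 1)
  grp := inferInstance
  a := (St (g + 1)).subtype.comp (IT (g + 1)).subtype
  mem := fun x => by
    refine ⟨⟨(x : St (g + 1)).2, fun h => Empty.elim h⟩, fun l _ u => ?_⟩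
    exact ab_ep (α := Fin 2 × Fin (g + 1)) (x.2 u) l

/-- the next storey -/
noncomputable def Twr.next {g j : ℕ} (T : Twr g j) {h0 : FreeGroup (Lt g j)}
    {lam : FreeGroup (Lt g j) →* MulAut (FreeGroup (Option (Lt g j)))}
    (s : Sto (hj g j) (om g j) h0 lam) : Twr g (j + 1) where
  Γ := FreeGroup (Lt g j) ⋊[T.a] T.Γ
  grp := inferInstance
  a := (SemidirectProduct.lift lam ((upE (sm (Lt g j))).comp T.a) (fun y => by
    refine MonoidHom.ext fun u => ?_
    exact (s.eqv _ (T.mem y).1 u).symm) :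
      FreeGroup (Lt g j) ⋊[T.a] T.Γ →* MulAut (FreeGroup (Option (Lt g j))))
  mem := fun x => by
    show lam x.left * upE (sm (Lt g j)) (T.a x.right) ∈
      Tor (Option.map (hj g j)) (inc (om g j) * xx (Lt g j))
    exact mul_mem (lam_tor s _) (up_tor (T.mem _))

section tw

variable (g : ℕ) (lam : ∀ j, FreeGroup (Lt g j) →* MulAut (FreeGroup (Option (Lt g j))))
  (hs : ∀ j, Sto (hj g j) (om g j) (hh g j) (lam j))

/-- the tower -/
noncomputable def twr : ∀ j, Twr g j
  | 0 => T0 g
  | j + 1 => (twr j).next (hs j)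

abbrev Ga (j : ℕ) : Type := (twr g lam hs j).Γ

noncomputable abbrev aj (j : ℕ) : Ga g lam hs j →* MulAut (FreeGroup (Lt g j)) := (twr g lam hs j).a

noncomputable def muj (j : ℕ) : Ga g lam hs (j + 1) →* Ga g lam hs j :=
  (SemidirectProduct.rightHom :
    FreeGroup (Lt g j) ⋊[aj g lam hs j] Ga g lam hs j →* Ga g lam hs j)

noncomputable def sgj (j : ℕ) : Ga g lam hs j →* Ga g lam hs (j + 1) :=
  (SemidirectProduct.inr :
    Ga g lam hs j →* FreeGroup (Lt g j) ⋊[aj g lam hs j] Ga g lam hs j)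

noncomputable def laj (j : ℕ) : FreeGroup (Lt g j) →* Ga g lam hs (j + 1) :=
  (SemidirectProduct.inl :
    FreeGroup (Lt g j) →* FreeGroup (Lt g j) ⋊[aj g lam hs j] Ga g lam hs j)

theorem mu_sg (j : ℕ) (x : Ga g lam hs j) : muj g lam hs j (sgj g lam hs j x) = x :=
  SemidirectProduct.rightHom_inr x

theorem la_inj (j : ℕ) : Function.Injective (laj g lam hs j) :=
  SemidirectProduct.inl_injective

theorem mu_ker (j : ℕ) (x : Ga g lam hs (j + 1)) :
    muj g lam hs j x = 1 ↔ x ∈ (laj g lam hs j).range := by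
  have h : (SemidirectProduct.inl : FreeGroup (Lt g j) →*
    FreeGroup (Lt g j) ⋊[aj g lam hs j] Ga g lam hs j).range = _ :=
      SemidirectProduct.range_inl_eq_ker_rightHom
  show _ ↔ x ∈ (SemidirectProduct.inl : FreeGroup (Lt g j) →*
    FreeGroup (Lt g j) ⋊[aj g lam hs j] Ga g lam hs j).range
  rw [h]
  exact Iff.rfl

theorem sg_la (j : ℕ) (x : Ga g lam hs j) (p : FreeGroup (Lt g j)) :
    sgj g lam hs j x * laj g lam hs j p * (sgj g lam hs j x)⁻¹ =
      laj g lam hs j (aj g lam hs j x p) := by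
  rw [← _root_.map_inv]
  exact (SemidirectProduct.inl_aut (φ := aj g lam hs j) x p).symm

theorem mu_surj (j : ℕ) : Function.Surjective (muj g lam hs j) :=
  fun x => ⟨_, mu_sg g lam hs j x⟩

theorem a_sg (j : ℕ) (x : Ga g lam hs j) :
    aj g lam hs (j + 1) (sgj g lam hs j x) = upE (sm (Lt g j)) (aj g lam hs j x) := by
  show lam j 1 * upE (sm (Lt g j)) (aj g lam hs j x) = _
  rw [_root_.map_one, one_mul]

theorem a_la (j : ℕ) (p : FreeGroup (Lt g j)) :
    aj g lam hs (j + 1) (laj g lam hs j p) = lam j p := by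
  show lam j p * upE (sm (Lt g j)) (aj g lam hs j 1) = _
  rw [_root_.map_one, _root_.map_one, mul_one]

/-- projections from the top of the tower -/
noncomputable def Mk (K : ℕ) : ∀ (d j : ℕ), j + d = K → Ga g lam hs K →* Ga g lam hs j
  | 0, j, h => by
    have e : j = K := h
    exact e ▸ MonoidHom.id _
  | d + 1, j, h => (muj g lam hs j).comp (Mk K d (j + 1) (by omega))

theorem Mk_surj (K : ℕ) : ∀ (d j : ℕ) (h : j + d = K),
    Function.Surjective (Mk g lam hs K d j h)
  | 0, j, h => by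
    have e : j = K := h
    subst e
    exact fun x => ⟨x, rfl⟩
  | d + 1, j, h => (mu_surj g lam hs j).comp (Mk_surj K d (j + 1) (by omega))

theorem Mk_top (K d : ℕ) (h : K + d = K) (x : Ga g lam hs K) : Mk g lam hs K d K h x = x := by
  obtain rfl : d = 0 := by omega
  rfl

theorem Mk_succ (K d d' j : ℕ) (h : j + d = K) (h' : j + 1 + d' = K) (x : Ga g lam hs K) :
    Mk g lam hs K d j h x = muj g lam hs j (Mk g lam hs K d' (j + 1) h' x) := by
  obtain rfl : d = d' + 1 := by omega
  rfl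

open Classical in
/-- projections, total -/
noncomputable def Mj (K j : ℕ) : Ga g lam hs K →* Ga g lam hs j :=
  if h : j ≤ K then Mk g lam hs K (K - j) j (by omega) else 1

theorem Mj_le {K j : ℕ} (h : j ≤ K) : Mj g lam hs K j = Mk g lam hs K (K - j) j (by omega) := by
  rw [Mj, dif_pos h]

/-- good pairs (level, element) -/
structure Gd (j : ℕ) (L : Lev (hj g j) (om g j)) (w : Ga g lam hs j) : Prop where
  orb : L.gam ∈ Orb (hj g j) (om g j) (hh g j)
  act : aj g lam hs j w = L.bp
  hb : L.D.b = bj g j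
  f1 : ∀ l, L.D.S l = true → ∃ h, hj g j h = l
  f2 : ∀ l, (∀ h, hj g j h ≠ l) → ep l L.gam = ep l (of (bj g j))

variable {g lam hs}

theorem Gd.keep {j : ℕ} {L : Lev (hj g j) (om g j)} {w : Ga g lam hs j}
    (G : Gd g lam hs j L w) : Gd g lam hs (j + 1) L.keep (sgj g lam hs j w) where
  orb := by
    rw [hh_succ]
    have h1 := orb_keep G.orb
    rw [← L.keep_gam] at h1
    exact h1
  act := by
    rw [a_sg, G.act]
    exact L.keep_bp.symm
  hb := congrArg some G.hb
  f1 := by
    rintro (_ | l) h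
    · exact absurd h Bool.false_ne_true
    · obtain ⟨h', rfl⟩ := G.f1 l h
      exact ⟨some h', rfl⟩
  f2 := by
    rintro (_ | l) h
    · exact absurd rfl (h none)
    · have h1 : L.keep.gam = (xx (Lt g j))⁻¹ * inc L.gam * xx (Lt g j) := L.keep_gam
      have h2 : ep (some l) L.keep.gam = ep l L.gam := by
        rw [h1, ep_cp, _root_.map_mul, _root_.map_mul, _root_.map_inv, cp_x, cp_inc]
        simp
      have h3 : ep (some l) (of (some (bj g j)) : FreeGroup (Option (Lt g j))) =
          ep l (of (bj g j)) := by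
        rw [ep_cp, cp_some]
      refine h2.trans ((G.f2 l fun h' e => h (some h') (congrArg some e)).trans h3.symm)

theorem Gd.add {j : ℕ} {L : Lev (hj g j) (om g j)} {w : Ga g lam hs j}
    (G : Gd g lam hs j L w) :
    Gd g lam hs (j + 1) L.add (laj g lam hs j L.gam * sgj g lam hs j w) where
  orb := by
    rw [hh_succ]
    have h1 := orb_add L G.orb
    rw [← L.add_gam] at h1
    exact h1
  act := by
    rw [_root_.map_mul, a_la, a_sg, G.act]
    exact ((hs j).add_bp L G.orb).symm
  hb := congrArg some G.hb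
  f1 := by
    rintro (_ | l) h
    · exact ⟨none, rfl⟩
    · obtain ⟨h', rfl⟩ := G.f1 l h
      exact ⟨some h', rfl⟩
  f2 := by
    rintro (_ | l) h
    · exact absurd rfl (h none)
    · have h1 : L.add.gam = (xx (Lt g j))⁻¹ * inc L.gam := L.add_gam
      have h2 : ep (some l) L.add.gam = ep l L.gam := by
        rw [h1, ep_cp, _root_.map_mul, _root_.map_inv, cp_x, cp_inc]
        simp
      have h3 : ep (some l) (of (some (bj g j)) : FreeGroup (Option (Lt g j))) =
          ep l (of (bj g j)) := by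
        rw [ep_cp, cp_some]
      refine h2.trans ((G.f2 l fun h' e => h (some h') (congrArg some e)).trans h3.symm)

variable (g lam hs)

theorem gd_base : ∀ j, ∃ L : Lev (hj g j) (om g j), Gd g lam hs j L 1
  | 0 => ⟨L0 g, by
      refine ⟨?_, ?_, rfl, fun l h => absurd h Bool.false_ne_true, fun l _ => ?_⟩
      · rw [hh_zero]
        exact orb_self
      · rw [_root_.map_one]
        exact (bp_one _ rfl (fun _ => rfl)).symm
      · rfl⟩
  | j + 1 => by
    obtain ⟨L, hL⟩ := gd_base j
    refine ⟨L.keep, ?_⟩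
    have := hL.keep
    rwa [_root_.map_one] at this

/-- the blocks -/
def Bj (j : ℕ) : Set (Ga g lam hs j) :=
  {w | ∃ L, Gd g lam hs j L w ∧ ∃ h, L.D.S (hj g j h) = true}

end tw

instance finLt (g : ℕ) : ∀ j, Finite (Lt g j)
  | 0 => inferInstanceAs (Finite (Fin 2 × Fin (g + 1)))
  | j + 1 => by
    have := finLt g j
    exact inferInstanceAs (Finite (Option (Lt g j)))

theorem isTower (g : ℕ) (lam : ∀ j, FreeGroup (Lt g j) →* MulAut (FreeGroup (Option (Lt g j))))
    (hs : ∀ j, Sto (hj g j) (om g j) (hh g j) (lam j)) (K : ℕ) :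
    IsTower (Ga g lam hs K) K (Bj g lam hs K) := by
  refine ⟨Ga g lam hs, fun j => FreeGroup (Lt g j), inferInstance, inferInstance,
    Mj g lam hs K, muj g lam hs, sgj g lam hs, laj g lam hs, aj g lam hs, Bj g lam hs,
    ?_, ?_, ?_, ?_, ?_, ?_, ?_, ?_, ?_, ?_⟩
  · intro x y h
    rw [Mj_le g lam hs le_rfl, Mk_top, Mk_top] at h
    exact h
  · intro j hj
    rw [Mj_le g lam hs hj]
    exact Mk_surj g lam hs K _ _ _
  · intro j hj x
    rw [Mj_le g lam hs hj, Mj_le g lam hs hj.le]
    exact (Mk_succ g lam hs K _ _ _ _ _ x).symm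
  · intro j _ x
    exact mu_sg g lam hs j x
  · intro j _
    exact la_inj g lam hs j
  · intro j _ x
    exact mu_ker g lam hs j x
  · intro j _ x p
    exact sg_la g lam hs j x p
  · rintro j _ w ⟨L, G, h, hS⟩
    have k1 : sgj g lam hs j w ∈ Bj g lam hs (j + 1) := ⟨L.keep, G.keep, some h, hS⟩
    have k2 : laj g lam hs j L.gam * sgj g lam hs j w ∈ Bj g lam hs (j + 1) :=
      ⟨L.add, G.add, some h, hS⟩
    refine ⟨k1, Lt g j, inferInstance, L.rk, L.bs, L.bs_gen, fun K _ f => L.bs_ext f,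
      fun l => ?_⟩
    have e : {x | ∃ l', L.rk l' < L.rk l ∧ L.bs l' = x} =
        {x | ∃ l', L.rk l' < L.rk l ∧ x = L.bs l'} := by
      ext x
      constructor
      · rintro ⟨l', h1, h2⟩
        exact ⟨l', h1, h2.symm⟩
      · rintro ⟨l', h1, h2⟩
        exact ⟨l', h1, h2.symm⟩
    rw [e]
    obtain ⟨u, v, hu, hv, h1, h2⟩ := L.bp_tri l
    refine ⟨u, hu, v, hv, ?_, ?_⟩
    · rw [G.act]
      exact h1
    · rcases h2 with rfl | rfl
      · rw [_root_.map_one, inv_one, one_mul]
        exact k1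
      · rw [_root_.map_inv, inv_inv]
        exact k2
  · intro j _
    obtain ⟨L, G⟩ := gd_base g lam hs j
    refine ⟨L.gam, L.add, ?_, none, rfl⟩
    have := G.add
    rwa [_root_.map_one, mul_one] at this
  · intro x hx
    rw [Mj_le g lam hs le_rfl, Mk_top] at hx
    exact hx

/-- the base group inside the tower -/
noncomputable def iot (g : ℕ) (lam : ∀ j, FreeGroup (Lt g j) →* MulAut (FreeGroup (Option (Lt g j))))
    (hs : ∀ j, Sto (hj g j) (om g j) (hh g j) (lam j)) : ∀ j, IT (g + 1) →* Ga g lam hs j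
  | 0 => MonoidHom.id _
  | j + 1 => (sgj g lam hs j).comp (iot g lam hs j)

theorem a_iot (g : ℕ) (lam : ∀ j, FreeGroup (Lt g j) →* MulAut (FreeGroup (Option (Lt g j))))
    (hs : ∀ j, Sto (hj g j) (om g j) (hh g j) (lam j)) (x : IT (g + 1)) : ∀ j,
    aj g lam hs j (iot g lam hs j x) = uj g j ((x : St (g + 1)) : MulAut (FF (g + 1)))
  | 0 => rfl
  | j + 1 => by
    show aj g lam hs (j + 1) (sgj g lam hs j (iot g lam hs j x)) = _
    rw [a_sg, a_iot g lam hs x j]
    rfl

theorem uj_b (g : ℕ) (x : IT (g + 1)) : ∀ j l,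
    ep l (uj g j ((x : St (g + 1)) : MulAut (FF (g + 1))) (of (bj g j))) = ep l (of (bj g j))
  | 0, l => by
    exact ab_ep (α := Fin 2 × Fin (g + 1)) (x.2 (of (bj g 0))) l
  | j + 1, l => by
    have e : (of (bj g (j + 1)) : FreeGroup (Lt g (j + 1))) =
        (inc (of (bj g j)) : FreeGroup (Option (Lt g j))) := (inc_of _).symm
    have e2 : uj g (j + 1) ((x : St (g + 1)) : MulAut (FF (g + 1))) (of (bj g (j + 1))) =
        (inc (uj g j ((x : St (g + 1)) : MulAut (FF (g + 1))) (of (bj g j))) :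
          FreeGroup (Option (Lt g j))) := by
      rw [e]
      exact up_inc _ _
    rw [e2, e]
    rcases l with _ | l
    · exact (ep_none_inc _).trans (ep_none_inc _).symm
    · exact (ep_some_inc l _).trans ((uj_b g x j l).trans (ep_some_inc l _).symm)

theorem uj_cn (g : ℕ) (x : MulAut (FF (g + 1))) : ∀ j h,
    uj g j x (of (hj g j h)) = of (hj g j h)
  | 0, h => Empty.elim h
  | j + 1, none => up_x _
  | j + 1, some h => by
    have e : (of (hj g (j + 1) (some h)) : FreeGroup (Lt g (j + 1))) =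
        (inc (of (hj g j h)) : FreeGroup (Option (Lt g j))) := (inc_of _).symm
    rw [e]
    have e2 : uj g (j + 1) x (inc (of (hj g j h)) : FreeGroup (Option (Lt g j))) =
      (inc (uj g j x (of (hj g j h))) : FreeGroup (Option (Lt g j))) := up_inc _ _
    rw [e2, uj_cn g x j h]

theorem hk_surj : ∀ j (h : Ho j), ∃ i, hk j i = h
  | 0, h => Empty.elim h
  | j + 1, none => ⟨0, rfl⟩
  | j + 1, some h => by
    obtain ⟨i, hi⟩ := hk_surj j h
    exact ⟨i.succ, congrArg some hi⟩

/-- TOWQ -/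
theorem towq (hB : BIRM) (hT : THE) (hG : GEN0) (hH : HOMQ) : TOWQ := by
  intro K g
  choose lam hs using fun j => (storeys hB hT hG g j).2.2
  obtain ⟨s, s1, s2⟩ := hH K g
  let A := aj g lam hs K
  let S : Subgroup (Ga g lam hs K) := (SS (hj g K) (om g K) (bj g K)).comap A
  let r : S →* SS (hj g K) (om g K) (bj g K) :=
    (A.comp S.subtype).codRestrict _ fun t => t.2
  have hι : ∀ x : IT (g + 1), iot g lam hs K x ∈ S := by
    intro x
    show aj g lam hs K (iot g lam hs K x) ∈ SS (hj g K) (om g K) (bj g K)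
    refine ⟨(twr g lam hs K).mem _, fun l => ?_, 0, fun h => ⟨1, ?_, fun l _ => ?_⟩⟩
    · rw [a_iot, uj_b]
    · rw [a_iot, uj_cn]; simp
    · rw [ep_one]; simp
  let ι : IT (g + 1) →* S := (iot g lam hs K).codRestrict S hι
  refine ⟨Ga g lam hs K, inferInstance, S, s.comp r, ι, Bj g lam hs K, 1, Or.inl rfl,
    isTower g lam hs K, fun x => ?_, fun t => ?_, ?_⟩
  · have h1 : uj g K ((x : St (g + 1)) : MulAut (FF (g + 1))) ∈
        SS (hj g K) (om g K) (bj g K) := by
      rw [← a_iot g lam hs x K]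
      exact hι x
    rw [← s2 x h1]
    show s (r (ι x)) = _
    congr 1
    exact Subtype.ext (a_iot g lam hs x K)
  · obtain ⟨n, hn⟩ := (r t).2.2.2
    obtain ⟨sig, hsig⟩ := s1 (r t) n hn
    exact ⟨_, sig, hsig⟩
  · rintro w ⟨L, G, h, hS⟩ y
    have b1 : A w ∈ Tor (hj g K) (om g K) := (twr g lam hs K).mem w
    have b2 : ∀ l, ep l (A w (of (bj g K))) = ep l (of (bj g K)) := by
      intro l
      have e : A w = L.bp := G.act
      rw [e]
      exact L.bp_b G.hb G.f2 l
    have b3 : Cn (hj g K) (bj g K) (A w)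
        (fun h => if L.D.S (hj g K h) = true then -1 else 0) := by
      have e : A w = L.bp := G.act
      rw [e]
      exact L.bp_cn G.f1 G.f2
    obtain ⟨c1, c2⟩ := cnj ((twr g lam hs K).mem y) b1 b2 b3
    have e : A (y * w * y⁻¹) = A y * A w * (A y)⁻¹ := by
      rw [_root_.map_mul, _root_.map_mul, _root_.map_inv]
    have hm : y * w * y⁻¹ ∈ S := by
      show A (y * w * y⁻¹) ∈ SS (hj g K) (om g K) (bj g K)
      rw [e]
      exact c1
    refine ⟨⟨y * w * y⁻¹, hm⟩, rfl, ?_⟩
    have hc : Cn (hj g K) (bj g K)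
        (((r ⟨y * w * y⁻¹, hm⟩ : SS (hj g K) (om g K) (bj g K))) : MulAut (FreeGroup (Lt g K)))
        (fun h => if L.D.S (hj g K h) = true then -1 else 0) := by
      show Cn (hj g K) (bj g K) (A (y * w * y⁻¹)) _
      rw [e]
      exact c2
    obtain ⟨sig, hsig⟩ := s1 _ _ hc
    obtain ⟨i, hi⟩ := hk_surj K h
    refine ⟨Finset.univ.filter fun i => L.D.S (hj g K (hk K i)) = true,
      ⟨i, by rw [Finset.mem_filter]; exact ⟨Finset.mem_univ _, by rw [hi]; exact hS⟩⟩, sig, ?_⟩
    have e3 : (fun i => if i ∈ Finset.univ.filter (fun i => L.D.S (hj g K (hk K i)) = true)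
        then (1 : ℤ) else 0) =
        fun i => -(if L.D.S (hj g K (hk K i)) = true then (-1 : ℤ) else 0) := by
      funext i
      by_cases hi : L.D.S (hj g K (hk K i)) = true
      · rw [if_pos hi, if_pos (by rw [Finset.mem_filter]; exact ⟨Finset.mem_univ _, hi⟩)]
        ring
      · rw [if_neg hi, if_neg (by rw [Finset.mem_filter]; exact fun h => hi h.2)]
        ring
    rw [e3]
    exact hsig

end Pool.Agent.TOW
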