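import Mathlib
import Pool.Agent.Helper58_TOR.Surg

/-! T2-stab, structural part 1: walls (translates of a nested set and their complements), visibility. -/

set_option autoImplicit false

namespace Pool.Agent.TOR.H76

open Pointwise Set Pool.Agent.TOR.H58

section general

variable {F : Type*} [Group F]

/-- a wall system: a family of pairwise nested subsets of F, invariant under left translation and
complement, with finitely many members separating two given points -/
structure WS (W : Set (Set F)) : Prop where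
  smul : ∀ (h : F), ∀ C ∈ W, h • C ∈ W
  compl : ∀ C ∈ W, Cᶜ ∈ W
  nst : ∀ C ∈ W, ∀ B ∈ W, Nst C B
  fin : ∀ p q : F, {C ∈ W | p ∉ C ∧ q ∈ C}.Finite

/-- p sees the wall C from outside -/
def Sees (W : Set (Set F)) (p : F) (C : Set F) : Prop :=
  p ∉ C ∧ ∀ B ∈ W, p ∉ B → C ⊆ B → B = C

/-- the base group of a wall system: elements which are not separated from 1 by a wall,
equivalently the common right stabiliser -/
def RA (W : Set (Set F)) : Subgroup F where
  carrier := {a | ∀ C ∈ W, ∀ x : F, x * a ∈ C ↔ x ∈ C}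
  mul_mem' := by
    intro a b ha hb C hC x
    rw [← mul_assoc]
    exact (hb C hC _).trans (ha C hC x)
  one_mem' := by
    intro C _ x
    rw [mul_one]
  inv_mem' := by
    intro a ha C hC x
    have := ha C hC (x * a⁻¹)
    rw [inv_mul_cancel_right] at this
    exact this.symm

theorem mem_RA {W : Set (Set F)} {a : F} : a ∈ RA W ↔ ∀ C ∈ W, ∀ x : F, x * a ∈ C ↔ x ∈ C :=
  Iff.rfl

theorem mem_smul_iff {h x : F} {C : Set F} : x ∈ h • C ↔ h⁻¹ * x ∈ C := by
  rw [mem_smul_set_iff_inv_smul_mem, smul_eq_mul]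

theorem mul_mem_smul {h x : F} {C : Set F} : h * x ∈ h • C ↔ x ∈ C := by
  rw [mem_smul_iff, inv_mul_cancel_left]

theorem WS.mem_RA_iff {W : Set (Set F)} (hW : WS W) {a : F} :
    a ∈ RA W ↔ ∀ C ∈ W, (1 : F) ∈ C ↔ a ∈ C := by
  constructor
  · intro h C hC
    have := h C hC 1
    rw [one_mul] at this
    exact this.symm
  · intro h C hC x
    have := h (x⁻¹ • C) (hW.smul _ C hC)
    rw [mem_smul_iff, mem_smul_iff, inv_inv, mul_one] at this
    exact this.symm

theorem Sees.smul {W : Set (Set F)} (hW : WS W) {p : F} {C : Set F} (h : Sees W p C) (k : F) :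
    Sees W (k * p) (k • C) := by
  refine ⟨fun hk => h.1 (mul_mem_smul.mp hk), fun B hB hp hCB => ?_⟩
  have h1 := h.2 (k⁻¹ • B) (hW.smul _ B hB) (by
    rw [mem_smul_iff, inv_inv]
    exact hp) (by
    intro x hx
    rw [mem_smul_iff, inv_inv]
    exact hCB (mul_mem_smul.mpr hx))
  rw [← h1, smul_inv_smul]

theorem exists_sees {W : Set (Set F)} (hW : WS W) {p q : F} (h : ∃ C ∈ W, p ∉ C ∧ q ∈ C) :
    ∃ C ∈ W, Sees W p C ∧ q ∈ C := by
  obtain ⟨C, hC⟩ := h
  obtain ⟨B, hB⟩ := (hW.fin p q).exists_maximal ⟨C, hC⟩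
  refine ⟨B, hB.prop.1, ⟨hB.prop.2.1, fun B' hB' hp hs => ?_⟩, hB.prop.2.2⟩
  exact (hB.eq_of_subset ⟨hB', hp, hs hB.prop.2.2⟩ hs).symm

/-- two points which see the same wall are not separated -/
theorem same_side {W : Set (Set F)} (hW : WS W) {C : Set F} (hC : C ∈ W) {p q : F}
    (hp : Sees W p C) (hq : Sees W q C) : ∀ B ∈ W, p ∈ B ↔ q ∈ B := by
  have key : ∀ p q : F, Sees W p C → Sees W q C → ∀ B ∈ W, p ∈ B → q ∈ B := by
    intro p q hp hq B hB hpB
    by_contra hqB
    rcases hW.nst C hC B hB with h | h | h | h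
    · have := hq.2 B hB hqB h
      rw [this] at hpB
      exact hp.1 hpB
    · exact hp.1 (h hpB)
    · have := hp.2 Bᶜ (hW.compl B hB) (fun h' => h' hpB) h
      apply hq.1
      rw [← this]
      exact hqB
    · by_cases hq' : q ∈ C
      · exact hq.1 hq'
      · exact hqB (h hq')
  exact fun B hB => ⟨key p q hp hq B hB, key q p hq hp B hB⟩

/-- an automorphism which permutes the walls transports visibility -/
theorem Sees.map {W : Set (Set F)} {p : F} {C : Set F} (h : Sees W p C)
    (φ : F ≃* F) (hφ : ∀ B : Set F, φ '' B ∈ W ↔ B ∈ W) : Sees W (φ p) (φ '' C) := by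
  refine ⟨fun hk => h.1 ?_, fun B hB hp hCB => ?_⟩
  · obtain ⟨x, hx, hxp⟩ := hk
    rwa [φ.injective hxp] at hx
  · have hB' : φ '' (φ ⁻¹' B) = B := image_preimage_eq B φ.surjective
    have h1 := h.2 (φ ⁻¹' B) (by
      rw [← hφ, hB']
      exact hB) hp (by
      intro x hx
      exact hCB (mem_image_of_mem φ hx))
    rw [← h1, hB']

/-- the cocycle gamma takes values in the base group -/
theorem gamma_mem {W : Set (Set F)} (hW : WS W) {D : Set F} (hD : D ∈ W) (h1 : Sees W 1 D)
    (φ : F ≃* F) (hφ : ∀ B : Set F, φ '' B ∈ W ↔ B ∈ W) {γ : F} (hγ : φ '' D = γ • D) :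
    γ ∈ RA W := by
  rw [hW.mem_RA_iff]
  have h2 := h1.map φ hφ
  rw [map_one, hγ] at h2
  have h3 := h1.smul hW γ
  rw [mul_one] at h3
  exact same_side hW (hW.smul γ D hD) h2 h3

end general

section one

variable {F : Type*} [Group F]

/-- walls of one set -/
def WO (D : Set F) : Set (Set F) := {C | ∃ h : F, C = h • D ∨ C = (h • D)ᶜ}

/-- the translates hD which contain q and not p -/
def Pp (D : Set F) (p q : F) : Set F := {h | p ∉ h • D ∧ q ∈ h • D}

/-- a nested set with finite coboundary, trivial stabiliser, no inversion -/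
structure Cut (D : Set F) : Prop where
  sn : SN F D
  fin : ∀ p q : F, (Pp D p q).Finite
  stab : ∀ h : F, h • D = D → h = 1
  inv : ∀ h : F, h • D ≠ Dᶜ

theorem Cut.smul_inj {D : Set F} (hD : Cut D) {h k : F} (e : h • D = k • D) : h = k := by
  have : (k⁻¹ * h) • D = D := by
    rw [mul_smul, e, inv_smul_smul]
  have := hD.stab _ this
  rw [inv_mul_eq_one] at this
  exact this.symm

theorem Cut.smul_ne {D : Set F} (hD : Cut D) (h k : F) : h • D ≠ (k • D)ᶜ := by
  intro e
  apply hD.inv (k⁻¹ * h)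
  rw [mul_smul, e, ← smul_set_compl, inv_smul_smul]

theorem Cut.ws {D : Set F} (hD : Cut D) : WS (WO D) where
  smul := by
    rintro h C ⟨k, hk | hk⟩
    · exact ⟨h * k, Or.inl (by rw [hk, mul_smul])⟩
    · exact ⟨h * k, Or.inr (by rw [hk, smul_set_compl, mul_smul])⟩
  compl := by
    rintro C ⟨k, hk | hk⟩
    · exact ⟨k, Or.inr (by rw [hk])⟩
    · exact ⟨k, Or.inl (by rw [hk, compl_compl])⟩
  nst := by
    have key : ∀ h k : F, Nst (h • D) (k • D) := by
      intro h k
      have := hD.sn (k⁻¹ * h)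
      rw [← nst_smul k] at this
      rwa [← mul_smul, mul_inv_cancel_left] at this
    rintro C ⟨k, hk | hk⟩ B ⟨l, hl | hl⟩ <;> rw [hk, hl]
    · exact key _ _
    · rw [nst_compl_right]; exact key _ _
    · rw [nst_compl_left]; exact key _ _
    · rw [nst_compl_left, nst_compl_right]; exact key _ _
  fin := by
    intro p q
    apply ((((hD.fin p q).image (fun h => h • D))).union
      ((hD.fin q p).image (fun h => (h • D)ᶜ))).subset
    rintro C ⟨⟨k, hk | hk⟩, hp, hq⟩
    · left
      exact ⟨k, ⟨by rw [← hk]; exact hp, by rw [← hk]; exact hq⟩, hk.symm⟩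
    · right
      rw [hk] at hp hq
      refine ⟨k, ⟨hq, ?_⟩, hk.symm⟩
      by_contra h
      exact hp h

theorem mem_WO_smul (D : Set F) (h : F) : h • D ∈ WO D := ⟨h, Or.inl rfl⟩

theorem mem_WO_compl (D : Set F) (h : F) : (h • D)ᶜ ∈ WO D := ⟨h, Or.inr rfl⟩

theorem mem_WO_self (D : Set F) : D ∈ WO D := ⟨1, Or.inl (one_smul _ _).symm⟩

/-- y is between p and q -/
def Btw (D : Set F) (p y q : F) : Prop := ∀ B ∈ WO D, y ∈ B → p ∈ B ∨ q ∈ B

theorem Btw.symm {D : Set F} {p y q : F} (h : Btw D p y q) : Btw D q y p :=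
  fun B hB hy => (h B hB hy).symm

theorem Btw.eq {D : Set F} {p y q : F} (h : Btw D p y q) : Pp D p q = Pp D p y ∪ Pp D y q := by
  ext k
  constructor
  · rintro ⟨h1, h2⟩
    by_cases hy : y ∈ k • D
    · exact Or.inl ⟨h1, hy⟩
    · exact Or.inr ⟨hy, h2⟩
  · rintro (⟨h1, h2⟩ | ⟨h1, h2⟩)
    · rcases h _ (mem_WO_smul D k) h2 with h3 | h3
      · exact absurd h3 h1
      · exact ⟨h1, h3⟩
    · refine ⟨fun h3 => ?_, h2⟩
      rcases h _ (mem_WO_compl D k) h1 with h4 | h4
      · exact h4 h3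
      · exact h4 h2

theorem Pp_disj (D : Set F) (p y q : F) : Disjoint (Pp D p y) (Pp D y q) := by
  rw [Set.disjoint_left]
  rintro k ⟨_, h2⟩ ⟨h3, _⟩
  exact h3 h2

theorem Btw.ncard {D : Set F} (hD : Cut D) {p y q : F} (h : Btw D p y q) :
    (Pp D p q).ncard = (Pp D p y).ncard + (Pp D y q).ncard := by
  rw [h.eq, Set.ncard_union_eq (Pp_disj D p y q) (hD.fin _ _) (hD.fin _ _)]

theorem ncard_ne_zero_of {D : Set F} (hD : Cut D) {p q k : F} (h : k ∈ Pp D p q) :
    (Pp D p q).ncard ≠ 0 := by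
  rw [Ne, Set.ncard_eq_zero (hD.fin _ _)]
  rintro e
  rw [e] at h
  exact h

theorem eq_empty_of {D : Set F} (hD : Cut D) {p q : F} (h : (Pp D p q).ncard = 0) :
    Pp D p q = ∅ := (Set.ncard_eq_zero (hD.fin _ _)).mp h

/-- if no wall separates p and q then they are on the same side of every wall -/
theorem same_of_empty {D : Set F} {p q : F} (h1 : Pp D p q = ∅) (h2 : Pp D q p = ∅) :
    ∀ C ∈ WO D, p ∈ C ↔ q ∈ C := by
  have key : ∀ k : F, p ∈ k • D ↔ q ∈ k • D := by
    intro k
    constructor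
    · intro hp
      by_contra hq
      have : k ∈ Pp D q p := ⟨hq, hp⟩
      rw [h2] at this
      exact this
    · intro hq
      by_contra hp
      have : k ∈ Pp D p q := ⟨hp, hq⟩
      rw [h1] at this
      exact this
  rintro C ⟨k, hk | hk⟩ <;> rw [hk]
  · exact key k
  · exact not_congr (key k)

/-- the minimality hypothesis -/
def Mini (D : Set F) (p q : F) : Prop :=
  (Pp D p q).ncard ≠ (Pp D q p).ncard ∧ ∀ p' q' : F, (Pp D p' q').ncard ≠ (Pp D q' p').ncard →
    (Pp D p q).ncard + (Pp D q p).ncard ≤ (Pp D p' q').ncard + (Pp D q' p').ncard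

theorem Mini.symm {D : Set F} {p q : F} (h : Mini D p q) : Mini D q p :=
  ⟨h.1.symm, fun p' q' hh => by
    have := h.2 p' q' hh
    omega⟩

theorem mini_key {D : Set F} (hD : Cut D) {p q : F} (hm : Mini D p q) {C : Set F} (hC : C ∈ WO D)
    (hs : Sees (WO D) p C) (hq : q ∈ C) {k : F} (h1 : p ∉ k • C) (h2 : q ∈ k • C) :
    k • C = C := by
  by_contra hne
  have hW := hD.ws
  have hkC : k • C ∈ WO D := hW.smul k C hC
  have hs' : Sees (WO D) (k * p) (k • C) := hs.smul hW k
  have hb : Btw D p (k * p) q := by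
    intro B hB hy
    by_contra hno
    push Not at hno
    rcases hW.nst (k • C) hkC B hB with h | h | h | h
    · exact hno.2 (h h2)
    · exact hs'.1 (h hy)
    · have := hs'.2 Bᶜ (hW.compl B hB) (fun h' => h' hy) h
      apply h1
      rw [← this]
      exact hno.1
    · exact hno.1 (h h1)
  have e1 := hb.ncard hD
  have e2 := hb.symm.ncard hD
  have hsep : (Pp D (k * p) q).ncard + (Pp D q (k * p)).ncard ≠ 0 := by
    obtain ⟨l, hl | hl⟩ := hkC
    · have : l ∈ Pp D (k * p) q := ⟨by rw [← hl]; exact hs'.1, by rw [← hl]; exact h2⟩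
      have := ncard_ne_zero_of hD this
      omega
    · have : l ∈ Pp D q (k * p) := by
        rw [hl] at h2
        refine ⟨h2, ?_⟩
        by_contra h
        apply hs'.1
        rw [hl]
        exact h
      have := ncard_ne_zero_of hD this
      omega
  have hz : (Pp D p (k * p)).ncard + (Pp D (k * p) p).ncard = 0 := by
    by_contra hz
    by_cases hc : (Pp D p (k * p)).ncard = (Pp D (k * p) p).ncard
    · have hc' : (Pp D (k * p) q).ncard ≠ (Pp D q (k * p)).ncard := by
        intro hc'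
        apply hm.1
        omega
      have := hm.2 _ _ hc'
      omega
    · have := hm.2 _ _ hc
      omega
  have hsame := same_of_empty (eq_empty_of hD (by omega : (Pp D p (k * p)).ncard = 0))
    (eq_empty_of hD (by omega : (Pp D (k * p) p).ncard = 0))
  have hy : k * p ∉ C := fun h => hs.1 ((hsame C hC).mpr h)
  rcases hW.nst (k • C) hkC C hC with h | h | h | h
  · exact hne (hs'.2 C hC hy h).symm
  · exact hne (hs.2 _ hkC h1 h)
  · exact h h2 hq
  · exact hs.1 (h h1)

theorem exists_mini {D : Set F} {x y : F} (h : (Pp D x y).ncard ≠ (Pp D y x).ncard) :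
    ∃ p q : F, Mini D p q := by
  classical
  let S : Set ℕ := {n | ∃ p q : F, (Pp D p q).ncard ≠ (Pp D q p).ncard ∧
    n = (Pp D p q).ncard + (Pp D q p).ncard}
  have hS : ∃ n, n ∈ S := ⟨_, x, y, h, rfl⟩
  obtain ⟨p, q, h1, h2⟩ := Nat.find_spec hS
  refine ⟨p, q, h1, fun p' q' h' => ?_⟩
  rw [← h2]
  exact Nat.find_min' hS ⟨p', q', h', rfl⟩

/-- the one set lemma -/
theorem one_set {D : Set F} (hD : Cut D) {x y : F}
    (h : (Pp D x y).ncard ≠ (Pp D y x).ncard) :
    ∃ p q h : F, Pp D p q = {h} ∧ Pp D q p = ∅ := by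
  obtain ⟨p, q, hm⟩ := exists_mini h
  have hW := hD.ws
  -- a wall separating p and q exists
  have hex : ∃ C ∈ WO D, p ∉ C ∧ q ∈ C := by
    by_contra hno
    push Not at hno
    apply hm.1
    have e1 : Pp D p q = ∅ := by
      ext k
      simp only [mem_empty_iff_false, iff_false]
      rintro ⟨h1, h2⟩
      exact hno _ (mem_WO_smul D k) h1 h2
    have e2 : Pp D q p = ∅ := by
      ext k
      simp only [mem_empty_iff_false, iff_false]
      rintro ⟨h1, h2⟩
      exact hno _ (mem_WO_compl D k) (fun h => h h2) h1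
    rw [e1, e2]
  have hex' : ∃ C ∈ WO D, q ∉ C ∧ p ∈ C := by
    obtain ⟨C, hC, h1, h2⟩ := hex
    exact ⟨Cᶜ, hW.compl C hC, fun h => h h2, h1⟩
  obtain ⟨C₁, hC₁, hs₁, hq₁⟩ := exists_sees hW hex
  obtain ⟨C₂, hC₂, hs₂, hp₂⟩ := exists_sees hW hex'
  -- uniqueness
  have U₁ : ∀ k : F, p ∉ k • C₁ → q ∈ k • C₁ → k • C₁ = C₁ := fun k =>
    mini_key hD hm hC₁ hs₁ hq₁
  have U₂ : ∀ k : F, q ∉ k • C₂ → p ∈ k • C₂ → k • C₂ = C₂ := fun k =>
    mini_key hD hm.symm hC₂ hs₂ hp₂
  have P1 : ∀ h₁ : F, C₁ = h₁ • D → Pp D p q = {h₁} := by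
    intro h₁ e
    ext k
    simp only [mem_singleton_iff]
    constructor
    · rintro ⟨h1, h2⟩
      have e2 : (k * h₁⁻¹) • C₁ = k • D := by
        rw [e, ← mul_smul, inv_mul_cancel_right]
      have := U₁ (k * h₁⁻¹) (by rw [e2]; exact h1) (by rw [e2]; exact h2)
      rw [e2, e] at this
      exact hD.smul_inj this
    · rintro rfl
      exact ⟨by rw [← e]; exact hs₁.1, by rw [← e]; exact hq₁⟩
  have N1 : ∀ h₁ : F, C₁ = (h₁ • D)ᶜ → Pp D q p = {h₁} := by
    intro h₁ e
    ext k
    simp only [mem_singleton_iff]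
    constructor
    · rintro ⟨h1, h2⟩
      have e2 : (k * h₁⁻¹) • C₁ = (k • D)ᶜ := by
        rw [e, smul_set_compl, ← mul_smul, inv_mul_cancel_right]
      have := U₁ (k * h₁⁻¹) (by rw [e2]; exact fun h => h h2) (by rw [e2]; exact h1)
      rw [e2, e] at this
      exact hD.smul_inj (compl_injective this)
    · rintro rfl
      rw [e] at hq₁
      refine ⟨hq₁, ?_⟩
      by_contra h
      apply hs₁.1
      rw [e]
      exact h
  have P2 : ∀ h₂ : F, C₂ = h₂ • D → Pp D q p = {h₂} := by
    intro h₂ e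
    ext k
    simp only [mem_singleton_iff]
    constructor
    · rintro ⟨h1, h2⟩
      have e2 : (k * h₂⁻¹) • C₂ = k • D := by
        rw [e, ← mul_smul, inv_mul_cancel_right]
      have := U₂ (k * h₂⁻¹) (by rw [e2]; exact h1) (by rw [e2]; exact h2)
      rw [e2, e] at this
      exact hD.smul_inj this
    · rintro rfl
      exact ⟨by rw [← e]; exact hs₂.1, by rw [← e]; exact hp₂⟩
  have N2 : ∀ h₂ : F, C₂ = (h₂ • D)ᶜ → Pp D p q = {h₂} := by
    intro h₂ e
    ext k
    simp only [mem_singleton_iff]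
    constructor
    · rintro ⟨h1, h2⟩
      have e2 : (k * h₂⁻¹) • C₂ = (k • D)ᶜ := by
        rw [e, smul_set_compl, ← mul_smul, inv_mul_cancel_right]
      have := U₂ (k * h₂⁻¹) (by rw [e2]; exact fun h => h h2) (by rw [e2]; exact h1)
      rw [e2, e] at this
      exact hD.smul_inj (compl_injective this)
    · rintro rfl
      rw [e] at hp₂
      refine ⟨hp₂, ?_⟩
      by_contra h
      apply hs₂.1
      rw [e]
      exact h
  -- if C2 is the complement of C1 there is only one wall
  have one : C₂ = C₁ᶜ → ∀ B ∈ WO D, p ∉ B → q ∈ B → B = C₁ := by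
    intro e B hB hpB hqB
    rcases hW.nst B hB C₁ hC₁ with h | h | h | h
    · have := hs₂.2 Bᶜ (hW.compl B hB) (fun h' => h' hqB) (by
        rw [e]
        exact compl_subset_compl.mpr h)
      rw [e] at this
      exact compl_injective this
    · exact hs₁.2 B hB hpB h
    · exact absurd hq₁ (h hqB)
    · exact absurd (h hpB) hs₁.1
  obtain ⟨h₁, e₁ | e₁⟩ := hC₁ <;> obtain ⟨h₂, e₂ | e₂⟩ := hC₂
  · exact absurd (by rw [P1 h₁ e₁, P2 h₂ e₂, ncard_singleton, ncard_singleton]) hm.1
  · have a := P1 h₁ e₁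
    have b := N2 h₂ e₂
    have hh : h₁ = h₂ := by
      rw [a] at b
      exact singleton_injective b
    refine ⟨p, q, h₁, a, ?_⟩
    have one' := one (by rw [e₂, e₁, hh])
    ext k
    simp only [mem_empty_iff_false, iff_false]
    rintro ⟨h3, h4⟩
    have := one' _ (mem_WO_compl D k) (fun h => h h4) h3
    rw [e₁] at this
    exact hD.smul_ne _ _ this.symm
  · have a := N1 h₁ e₁
    have b := P2 h₂ e₂
    have hh : h₁ = h₂ := by
      rw [a] at b
      exact singleton_injective b
    refine ⟨q, p, h₁, a, ?_⟩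
    have one' := one (by rw [e₂, e₁, hh, compl_compl])
    ext k
    simp only [mem_empty_iff_false, iff_false]
    rintro ⟨h3, h4⟩
    have := one' _ (mem_WO_smul D k) h3 h4
    rw [e₁] at this
    exact hD.smul_ne _ _ this
  · exact absurd (by rw [N1 h₁ e₁, N2 h₂ e₂, ncard_singleton, ncard_singleton]) hm.1

theorem Pp_smul (D : Set F) (k p q : F) : Pp D (k * p) (k * q) = k • Pp D p q := by
  ext h
  rw [mem_smul_iff]
  unfold Pp
  simp only [mem_ofPred_eq, mem_smul_iff]
  simp only [mul_inv_rev, inv_inv, mul_assoc]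

end one

end Pool.Agent.TOR.H76
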