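import Mathlib
import Pool.Agent.Helper76_TOR.Wal

/-! T2-stab, structural part 2: F = A * s for a nonseparating cut. -/

set_option autoImplicit false

namespace Pool.Agent.TOR.H76

open Pointwise Set Pool.Agent.TOR.H58

variable {F : Type*} [Group F]

/-- D is a cut, 1 is outside, s inside, and D is the only translate which separates 1 and s -/
structure Adj (D : Set F) (s : F) : Prop where
  cut : Cut D
  pos : Pp D 1 s = {1}
  neg : Pp D s 1 = ∅

theorem Adj.one_notMem {D : Set F} {s : F} (h : Adj D s) : (1 : F) ∉ D := by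
  have : (1 : F) ∈ Pp D 1 s := by rw [h.pos]; exact mem_singleton _
  have := this.1
  rwa [one_smul] at this

theorem Adj.mem {D : Set F} {s : F} (h : Adj D s) : s ∈ D := by
  have : (1 : F) ∈ Pp D 1 s := by rw [h.pos]; exact mem_singleton _
  have := this.2
  rwa [one_smul] at this

/-- from a nonseparating cut D which is visible from 1: there is s -/
theorem exists_adj {D : Set F} (hD : Cut D) (h1 : Sees (WO D) 1 D)
    {x y : F} (hxy : (Pp D x y).ncard ≠ (Pp D y x).ncard) : ∃ s : F, Adj D s := by
  have hW := hD.ws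
  obtain ⟨p, q, h, e1, e2⟩ := one_set hD hxy
  -- translate so that h = 1
  have key : ∃ t s : F, Pp D t s = {1} ∧ Pp D s t = ∅ := by
    refine ⟨h⁻¹ * p, h⁻¹ * q, ?_, ?_⟩
    · rw [Pp_smul, e1, smul_set_singleton, smul_eq_mul, inv_mul_cancel]
    · rw [Pp_smul, e2, smul_set_empty]
  obtain ⟨t, s, e3, e4⟩ := key
  have m1 : (1 : F) ∈ Pp D t s := by rw [e3]; exact mem_singleton _
  have ht : t ∉ D := by have := m1.1; rwa [one_smul] at this
  have hs : s ∈ D := by have := m1.2; rwa [one_smul] at this
  have hst : Sees (WO D) t D := by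
    refine ⟨ht, fun B hB htB hDB => ?_⟩
    have hsB := hDB hs
    obtain ⟨k, hk | hk⟩ := hB
    · have : k ∈ Pp D t s := ⟨by rw [← hk]; exact htB, by rw [← hk]; exact hsB⟩
      rw [e3, mem_singleton_iff] at this
      rw [hk, this, one_smul]
    · exfalso
      have : k ∈ Pp D s t := by
        rw [hk] at htB hsB
        refine ⟨hsB, ?_⟩
        by_contra h
        exact htB h
      rw [e4] at this
      exact this
  have hsame := same_side hW (mem_WO_self D) h1 hst
  have hk : ∀ k : F, (1 : F) ∈ k • D ↔ t ∈ k • D := fun k => hsame _ (mem_WO_smul D k)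
  refine ⟨s, hD, ?_, ?_⟩
  · rw [← e3]
    ext k
    exact and_congr_left fun _ => not_congr (hk k)
  · rw [← e4]
    ext k
    exact and_congr_right fun _ => hk k

section adj

variable {D : Set F} {s : F} (h : Adj D s)

include h

/-- the only wall between 1 and s -/
theorem Adj.uniq {C : Set F} (hC : C ∈ WO D) (h1 : (1 : F) ∉ C) (h2 : s ∈ C) : C = D := by
  obtain ⟨k, hk | hk⟩ := hC
  · have : k ∈ Pp D 1 s := ⟨by rw [← hk]; exact h1, by rw [← hk]; exact h2⟩
    rw [h.pos, mem_singleton_iff] at this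
    rw [hk, this, one_smul]
  · exfalso
    have : k ∈ Pp D s 1 := by
      rw [hk] at h1 h2
      refine ⟨h2, ?_⟩
      by_contra h'
      exact h1 h'
    rw [h.neg] at this
    exact this

/-- an oriented edge: a outside, b inside of the wall C, nothing else in between -/
def Edge (D : Set F) (a b : F) (C : Set F) : Prop :=
  C ∈ WO D ∧ a ∉ C ∧ b ∈ C ∧ ∀ B ∈ WO D, a ∉ B → b ∈ B → B = C

omit h in
theorem Edge.symm {D : Set F} {a b : F} {C : Set F} (hD : Cut D) (h : Edge D a b C) :
    Edge D b a Cᶜ := by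
  refine ⟨hD.ws.compl C h.1, fun h' => h' h.2.2.1, h.2.1, fun B hB hb ha => ?_⟩
  have := h.2.2.2 Bᶜ (hD.ws.compl B hB) (fun h' => h' ha) hb
  rw [← this, compl_compl]

theorem Adj.edge (k : F) : Edge D k (k * s) (k • D) := by
  refine ⟨mem_WO_smul D k, ?_, ?_, ?_⟩
  · rw [mem_smul_iff, inv_mul_cancel]
    exact h.one_notMem
  · rw [mul_mem_smul]
    exact h.mem
  · intro B hB hk hks
    have := h.uniq (C := k⁻¹ • B) (h.cut.ws.smul _ B hB) (by
      rw [mem_smul_iff, inv_inv, mul_one]
      exact hk) (by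
      rw [mem_smul_iff, inv_inv]
      exact hks)
    rw [← this, smul_inv_smul]

omit h in
/-- a wall which separates p from the outer point of an edge between p and x separates p and x -/
theorem Edge.sep {D : Set F} (hD : Cut D) {a b : F} {C : Set F} (he : Edge D a b C) {p x : F}
    (hp : p ∉ C) (hx : x ∈ C) {B : Set F} (hB : B ∈ WO D) (hpB : p ∉ B) (haB : a ∈ B) :
    x ∈ B := by
  have hW := hD.ws
  rcases hW.nst B hB C he.1 with h | h | h | h
  · exact absurd (h haB) he.2.1
  · exact h hx
  · exfalso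
    have hbB : b ∉ B := fun hb => h hb he.2.2.1
    have := he.2.2.2 Bᶜ (hW.compl B hB) (fun h' => h' haB) hbB
    apply hp
    rw [← this]
    exact hpB
  · exact absurd (h hpB) hp

omit h in
theorem Edge.sep' {D : Set F} (hD : Cut D) {a b : F} {C : Set F} (he : Edge D a b C) {p x : F}
    (hp : p ∉ C) (hx : x ∈ C) {B : Set F} (hB : B ∈ WO D) (hbB : b ∉ B) (hxB : x ∈ B) :
    p ∉ B := by
  have := (he.symm hD).sep hD (p := x) (x := p) (fun h => h hx) hp
    (hD.ws.compl B hB) (fun h => h hxB) hbB
  exact this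

omit h in
/-- walls separating p and q, q inside -/
def Wl (D : Set F) (p q : F) : Set (Set F) := {C | C ∈ WO D ∧ p ∉ C ∧ q ∈ C}

omit h in
theorem Wl_fin {D : Set F} (hD : Cut D) (p q : F) : (Wl D p q).Finite := hD.ws.fin p q

omit h in
theorem Wl_smul {D : Set F} (hD : Cut D) (k p q : F) :
    Wl D (k * p) (k * q) = (fun C => k • C) '' Wl D p q := by
  ext C
  constructor
  · rintro ⟨h1, h2, h3⟩
    refine ⟨k⁻¹ • C, ⟨hD.ws.smul _ C h1, ?_, ?_⟩, smul_inv_smul k C⟩
    · rw [mem_smul_iff, inv_inv]; exact h2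
    · rw [mem_smul_iff, inv_inv]; exact h3
  · rintro ⟨B, ⟨h1, h2, h3⟩, rfl⟩
    exact ⟨hD.ws.smul k B h1, fun h => h2 (mul_mem_smul.mp h), mul_mem_smul.mpr h3⟩

omit h in
theorem Wl_ncard_smul {D : Set F} (hD : Cut D) (k p q : F) :
    (Wl D (k * p) (k * q)).ncard = (Wl D p q).ncard := by
  rw [Wl_smul hD]
  exact ncard_image_of_injective _ (MulAction.injective k)

/-- F is generated by the base group and s -/
theorem Adj.gen (x : F) : x ∈ Subgroup.closure ((RA (WO D) : Set F) ∪ {s}) := by
  have hD := h.cut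
  have hW := hD.ws
  set S := Subgroup.closure ((RA (WO D) : Set F) ∪ {s}) with hS
  have hA : ∀ a ∈ RA (WO D), a ∈ S := fun a ha => Subgroup.subset_closure (Or.inl ha)
  have hs : s ∈ S := Subgroup.subset_closure (Or.inr rfl)
  have main : ∀ n : ℕ, ∀ x : F, (Wl D 1 x).ncard = n → x ∈ S := by
    intro n
    induction n using Nat.strong_induction_on with
    | _ n ih =>
      intro x hx
      by_cases hex : ∃ C ∈ WO D, (1 : F) ∉ C ∧ x ∈ C
      · obtain ⟨C, hC, h1, h2⟩ := hex
        -- the edge
        have hedge : ∃ a b : F, Edge D a b C ∧ a⁻¹ * b ∈ S := by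
          obtain ⟨k, hk | hk⟩ := hC
          · refine ⟨k, k * s, by rw [hk]; exact h.edge k, ?_⟩
            rw [inv_mul_cancel_left]
            exact hs
          · refine ⟨k * s, k, by rw [hk]; exact (h.edge k).symm hD, ?_⟩
            have : (k * s)⁻¹ * k = s⁻¹ := by group
            rw [this]
            exact S.inv_mem hs
        obtain ⟨a, b, he, hab⟩ := hedge
        have hCm : C ∈ Wl D 1 x := ⟨hC, h1, h2⟩
        have l1 : (Wl D 1 a).ncard < (Wl D 1 x).ncard := by
          apply ncard_lt_ncard _ (Wl_fin hD 1 x)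
          refine ⟨fun B hB => ⟨hB.1, hB.2.1, he.sep hD h1 h2 hB.1 hB.2.1 hB.2.2⟩, fun hsub => ?_⟩
          exact he.2.1 (hsub hCm).2.2
        have l2 : (Wl D b x).ncard < (Wl D 1 x).ncard := by
          apply ncard_lt_ncard _ (Wl_fin hD 1 x)
          refine ⟨fun B hB => ⟨hB.1, he.sep' hD h1 h2 hB.1 hB.2.1 hB.2.2, hB.2.2⟩, fun hsub => ?_⟩
          exact (hsub hCm).2.1 he.2.2.1
        have l3 : (Wl D 1 (b⁻¹ * x)).ncard = (Wl D b x).ncard := by
          have := Wl_ncard_smul hD b 1 (b⁻¹ * x)
          rw [mul_one, mul_inv_cancel_left] at this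
          exact this.symm
        have m1 := ih _ (by omega) a rfl
        have m2 := ih _ (by omega) (b⁻¹ * x) rfl
        have : x = a * (a⁻¹ * b) * (b⁻¹ * x) := by group
        rw [this]
        exact S.mul_mem (S.mul_mem m1 hab) m2
      · apply hA
        rw [hW.mem_RA_iff]
        push Not at hex
        intro C hC
        constructor
        · intro h1
          by_contra h2
          exact hex Cᶜ (hW.compl C hC) (fun h' => h' h1) h2
        · intro h1
          by_contra h2
          exact hex C hC h2 h1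
  exact main _ x rfl

theorem Adj.closure_eq : Subgroup.closure ((RA (WO D) : Set F) ∪ {s}) = ⊤ := by
  rw [eq_top_iff]
  intro x _
  exact h.gen x

/-- right invariance of the walls under the base group -/
theorem Adj.sees : Sees (WO D) 1 D := by
  refine ⟨h.one_notMem, fun B hB h1 hDB => h.uniq hB h1 (hDB h.mem)⟩

theorem Adj.s_smul_subset : s • D ⊆ D := by
  have hW := h.cut.ws
  have hss : s ∉ s • D := by
    rw [mem_smul_iff, inv_mul_cancel]
    exact h.one_notMem
  rcases hW.nst (s • D) (mem_WO_smul D s) D (mem_WO_self D) with h1 | h1 | h1 | h1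
  · exact h1
  · exact absurd (h1 h.mem) hss
  · -- s D is disjoint from D : D separates s from s D
    exfalso
    have hsee : Sees (WO D) s (s • D) := by
      have := h.sees.smul hW s
      rwa [mul_one] at this
    have := hsee.2 Dᶜ (hW.compl D (mem_WO_self D)) (fun h' => h' h.mem) h1
    exact h.cut.inv s this.symm
  · exfalso
    have h2 : (1 : F) ∈ s • D := by
      by_contra h2
      exact h.one_notMem (h1 h2)
    have := h.uniq (C := (s • D)ᶜ) (mem_WO_compl D s) (fun h' => h' h2) hss
    exact h.cut.inv s (by rw [← compl_compl (s • D), this])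

/-- the ping-pong set of s -/
def Xs (D : Set F) (s : F) : Set F := D ∪ s⁻¹ • Dᶜ

omit h in
theorem RA_notMem {D : Set F} {a x : F} (ha : a ∈ RA (WO D)) {C : Set F} (hC : C ∈ WO D) :
    x * a ∈ C ↔ x ∈ C := ha C hC x

/-- the inner ends of D and of the inverse edge: both are seen from 1 -/
theorem Adj.sees' : Sees (WO D) 1 (s⁻¹ • Dᶜ) := by
  have hW := h.cut.ws
  have h1 : (1 : F) ∉ s⁻¹ • Dᶜ := by
    rw [mem_smul_iff, inv_inv, mul_one]
    exact fun h' => h' h.mem
  refine ⟨h1, fun B hB hB1 hsub => ?_⟩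
  -- s⁻¹ is in B, 1 is not: the edge from 1 to s⁻¹
  have hsB : s⁻¹ ∈ B := by
    apply hsub
    rw [mem_smul_iff, inv_inv, mul_inv_cancel]
    exact h.one_notMem
  have := h.uniq (C := (s • B)ᶜ) (hW.compl _ (hW.smul s B hB)) (by
    rw [mem_compl_iff, not_not, mem_smul_iff, mul_one]
    exact hsB) (by
    rw [mem_compl_iff, mem_smul_iff, inv_mul_cancel]
    exact hB1)
  rw [← this, compl_compl, inv_smul_smul]

/-- a nontrivial element of the base group moves a seen wall off every seen wall -/
theorem Adj.disj {a : F} (ha : a ∈ RA (WO D)) {C B : Set F} (hC : C ∈ WO D) (hB : B ∈ WO D)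
    (hCs : Sees (WO D) 1 C) (hBs : Sees (WO D) 1 B) (hne : a • C ≠ B) : a • C ⊆ Bᶜ := by
  have hW := h.cut.ws
  have haC : a • C ∈ WO D := hW.smul a C hC
  have e1 : Sees (WO D) a (a • C) := by
    have := hCs.smul hW a
    rwa [mul_one] at this
  have h1 : (1 : F) ∉ a • C := by
    intro h'
    exact e1.1 ((hW.mem_RA_iff.mp ha _ haC).mp h')
  have hsee : Sees (WO D) 1 (a • C) := by
    refine ⟨h1, fun B' hB' h1' hs => ?_⟩
    exact e1.2 B' hB' (fun h' => h1' ((hW.mem_RA_iff.mp ha _ hB').mpr h')) hs
  rcases hW.nst (a • C) haC B hB with h2 | h2 | h2 | h2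
  · exact absurd (hsee.2 B hB hBs.1 h2).symm hne
  · exact absurd (hBs.2 _ haC h1 h2) hne
  · exact h2
  · exact absurd (h2 h1) hBs.1

theorem Adj.pong_A {a : F} (ha : a ∈ RA (WO D)) (hne : a ≠ 1) :
    a • Xs D s ⊆ (Xs D s)ᶜ := by
  have hD := h.cut
  have hW := hD.ws
  have m1 := mem_WO_self D
  have m2 : s⁻¹ • Dᶜ ∈ WO D := hW.smul _ _ (hW.compl D m1)
  have hs : s ∉ RA (WO D) := by
    intro hs
    exact h.one_notMem ((hW.mem_RA_iff.mp hs _ m1).mpr h.mem)
  have k1 : a • D ⊆ Dᶜ := h.disj ha m1 m1 h.sees h.sees (fun e => hne (hD.stab a e))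
  have k2 : a • D ⊆ (s⁻¹ • Dᶜ)ᶜ := h.disj ha m1 m2 h.sees h.sees' (fun e => by
    apply hD.smul_ne a s⁻¹
    rw [e, smul_set_compl])
  have k3 : a • (s⁻¹ • Dᶜ) ⊆ Dᶜ := h.disj ha m2 m1 h.sees' h.sees (fun e => by
    apply hD.smul_ne 1 (a * s⁻¹)
    rw [mul_smul, one_smul, ← smul_set_compl, ← smul_set_compl]
    exact e.symm)
  have k4 : a • (s⁻¹ • Dᶜ) ⊆ (s⁻¹ • Dᶜ)ᶜ := h.disj ha m2 m2 h.sees' h.sees' (fun e => by
    rw [smul_set_compl, smul_set_compl] at e
    have := hD.smul_inj (h := a * s⁻¹) (k := s⁻¹) (by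
      rw [mul_smul]
      exact compl_injective e)
    rw [mul_eq_right] at this
    exact hne this)
  unfold Xs
  rw [smul_set_union, compl_union]
  exact union_subset (subset_inter k1 k2) (subset_inter k3 k4)

theorem Adj.pong_s {n : ℤ} (hn : n ≠ 0) : (s ^ n) • (Xs D s)ᶜ ⊆ Xs D s := by
  have hsub := h.s_smul_subset
  have hpos : ∀ m : ℕ, (s ^ (m + 1)) • (Xs D s)ᶜ ⊆ D := by
    intro m
    induction m with
    | zero =>
      rintro x ⟨y, hy, rfl⟩
      have hy2 : y ∉ s⁻¹ • Dᶜ := fun h' => hy (Or.inr h')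
      rw [mem_smul_iff, inv_inv] at hy2
      simpa using hy2
    | succ m ih =>
      rw [pow_succ', mul_smul]
      exact (smul_set_mono ih).trans hsub
  have hneg : ∀ m : ℕ, ((s⁻¹) ^ (m + 1)) • (Xs D s)ᶜ ⊆ s⁻¹ • Dᶜ := by
    have hsub' : s⁻¹ • (s⁻¹ • Dᶜ) ⊆ s⁻¹ • Dᶜ := by
      apply smul_set_mono
      rw [smul_set_subset_iff_subset_inv_smul_set, inv_inv, ← compl_subset_compl,
        ← smul_set_compl, compl_compl]
      exact hsub
    intro m
    induction m with
    | zero =>
      rw [zero_add, pow_one]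
      apply smul_set_mono
      exact fun y hy h' => hy (Or.inl h')
    | succ m ih =>
      rw [pow_succ', mul_smul]
      exact (smul_set_mono ih).trans hsub'
  rcases lt_or_gt_of_ne hn with h1 | h1
  · obtain ⟨m, hm⟩ : ∃ m : ℕ, n = -((m : ℤ) + 1) := ⟨(-n - 1).toNat, by omega⟩
    have : s ^ n = (s⁻¹) ^ (m + 1) := by
      rw [hm, zpow_neg, inv_pow]
      norm_cast
    rw [this]
    exact (hneg m).trans subset_union_right
  · obtain ⟨m, hm⟩ : ∃ m : ℕ, n = (m : ℤ) + 1 := ⟨(n - 1).toNat, by omega⟩
    have : s ^ n = s ^ (m + 1) := by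
      rw [hm]
      norm_cast
    rw [this]
    exact (hpos m).trans subset_union_left

end adj

/-! ### the free product decomposition -/

universe u

/-- the two factors -/
def Fac {F : Type u} [Group F] (D : Set F) : Bool → Type u
  | true => ULift.{u} (Multiplicative ℤ)
  | false => RA (WO D)

instance facGroup {F : Type u} [Group F] (D : Set F) : ∀ i : Bool, Group (Fac D i)
  | true => inferInstanceAs (Group (ULift.{u} (Multiplicative ℤ)))
  | false => inferInstanceAs (Group (RA (WO D)))

/-- homomorphisms out of the factors -/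
def facHom {F : Type u} [Group F] (D : Set F) {H : Type*} [Group H] (f : RA (WO D) →* H) (t : H) :
    ∀ i : Bool, Fac D i →* H
  | true => (zpowersHom H t).comp (MulEquiv.ulift : ULift.{u} (Multiplicative ℤ) ≃* _).toMonoidHom
  | false => f

theorem facHom_true {F : Type u} [Group F] (D : Set F) {H : Type*} [Group H]
    (f : RA (WO D) →* H) (t : H) (n : ULift.{u} (Multiplicative ℤ)) :
    facHom D f t true n = t ^ (Multiplicative.toAdd n.down) := rfl

theorem facHom_false {F : Type u} [Group F] (D : Set F) {H : Type*} [Group H]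
    (f : RA (WO D) →* H) (t : H) (a : RA (WO D)) : facHom D f t false a = f a := rfl

theorem Adj.lift_bij {F : Type u} [Group F] {D : Set F} {s : F} (h : Adj D s) :
    Function.Bijective
      (Monoid.CoprodI.lift (facHom D (RA (WO D)).subtype s) : Monoid.CoprodI (Fac D) →* F) := by
  constructor
  · refine Monoid.CoprodI.lift_injective_of_ping_pong (facHom D (RA (WO D)).subtype s) ?_
      (α := F) (fun i => match i with
        | true => Xs D s
        | false => (Xs D s)ᶜ) ?_ ?_ ?_
    · right
      refine ⟨true, ?_⟩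
      have : Infinite (Fac D true) := by
        show Infinite (ULift.{u} (Multiplicative ℤ))
        infer_instance
      exact (Cardinal.natCast_lt_aleph0 (n := 3)).le.trans (Cardinal.infinite_iff.mp this)
    · intro i
      cases i with
      | true => exact ⟨s, Or.inl h.mem⟩
      | false =>
        refine ⟨1, fun h' => ?_⟩
        rcases h' with h' | h'
        · exact h.one_notMem h'
        · exact h.sees'.1 h'
    · intro i j hij
      cases i <;> cases j
      · exact absurd rfl hij
      · exact disjoint_compl_left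
      · exact disjoint_compl_right
      · exact absurd rfl hij
    · intro i j hij x hx
      cases i <;> cases j
      · exact absurd rfl hij
      · exact h.pong_A x.2 (fun e => hx (Subtype.ext e))
      · have hn : Multiplicative.toAdd x.down ≠ 0 := by
          intro e
          apply hx
          exact ULift.ext _ _ (by
            show x.down = 1
            rw [← ofAdd_toAdd x.down, e]
            rfl)
        exact h.pong_s hn
      · exact absurd rfl hij
  · rw [← MonoidHom.range_eq_top, eq_top_iff, ← h.closure_eq, Subgroup.closure_le]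
    rintro x (hx | hx)
    · refine ⟨Monoid.CoprodI.of (i := false) (⟨x, hx⟩ : RA (WO D)), ?_⟩
      rw [Monoid.CoprodI.lift_of]
      rfl
    · rw [mem_singleton_iff] at hx
      refine ⟨Monoid.CoprodI.of (i := true) (ULift.up (Multiplicative.ofAdd 1) :
        ULift.{u} (Multiplicative ℤ)), ?_⟩
      rw [Monoid.CoprodI.lift_of, facHom_true, hx]
      exact zpow_one s

/-- the universal property of F = A * s -/
theorem Adj.up {F : Type u} [Group F] {D : Set F} {s : F} (h : Adj D s) {H : Type*} [Group H]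
    (f : RA (WO D) →* H) (t : H) :
    ∃ Φ : F →* H, (∀ a : RA (WO D), Φ a = f a) ∧ Φ s = t := by
  let e : Monoid.CoprodI (Fac D) ≃* F := MulEquiv.ofBijective _ h.lift_bij
  have he : ∀ y, e y = Monoid.CoprodI.lift (facHom D (RA (WO D)).subtype s) y := fun y => rfl
  refine ⟨(Monoid.CoprodI.lift (facHom D f t)).comp e.symm.toMonoidHom, fun a => ?_, ?_⟩
  · have : e.symm (a : F) = Monoid.CoprodI.of (i := false) a := by
      rw [MulEquiv.symm_apply_eq, he, Monoid.CoprodI.lift_of]
      rfl
    show Monoid.CoprodI.lift (facHom D f t) (e.symm (a : F)) = f a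
    rw [this, Monoid.CoprodI.lift_of]
    rfl
  · have : e.symm s = Monoid.CoprodI.of (i := true)
        (ULift.up (Multiplicative.ofAdd 1) : ULift.{u} (Multiplicative ℤ)) := by
      rw [MulEquiv.symm_apply_eq, he, Monoid.CoprodI.lift_of, facHom_true]
      exact (zpow_one s).symm
    show Monoid.CoprodI.lift (facHom D f t) (e.symm s) = t
    rw [this, Monoid.CoprodI.lift_of, facHom_true]
    exact zpow_one t

/-- two homomorphisms which agree on A and s are equal -/
theorem Adj.hom_ext {D : Set F} {s : F} (h : Adj D s) {H : Type*} [Group H]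
    {Φ Ψ : F →* H} (hA : ∀ a ∈ RA (WO D), Φ a = Ψ a) (hs : Φ s = Ψ s) : Φ = Ψ := by
  apply MonoidHom.eq_of_eqOn_top
  rw [← h.closure_eq]
  apply MonoidHom.eqOn_closure
  rintro x (hx | hx)
  · exact hA x hx
  · rw [mem_singleton_iff] at hx
    rw [hx]
    exact hs

end Pool.Agent.TOR.H76
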