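import Mathlib
import Pool.Agent.Helper76_TOR.Str

/-! T2-stab, structural part 3: slides. -/

set_option autoImplicit false

namespace Pool.Agent.TOR.H76

open Pointwise Set Pool.Agent.TOR.H58

universe u

variable {F : Type u} [Group F] {D : Set F} {s : F}

theorem WO_subset {W : Set (Set F)} (hW : WS W) (hD : D ∈ W) : WO D ⊆ W := by
  rintro C ⟨h, hC | hC⟩ <;> rw [hC]
  · exact hW.smul h D hD
  · exact hW.compl _ (hW.smul h D hD)

theorem RA_anti {W W' : Set (Set F)} (h : W' ⊆ W) : RA W ≤ RA W' :=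
  fun _ ha C hC x => ha C (h hC) x

/-- existence of slides -/
theorem Adj.exists_slide (h : Adj D s) {μ : F} (hμ : μ ∈ RA (WO D)) :
    ∃ S : F ≃* F, (∀ a ∈ RA (WO D), S a = a) ∧ S s = μ * s := by
  obtain ⟨P, hP1, hP2⟩ := h.up (RA (WO D)).subtype (μ * s)
  obtain ⟨Q, hQ1, hQ2⟩ := h.up (RA (WO D)).subtype (μ⁻¹ * s)
  have p1 : ∀ a ∈ RA (WO D), P a = a := fun a ha => hP1 ⟨a, ha⟩
  have q1 : ∀ a ∈ RA (WO D), Q a = a := fun a ha => hQ1 ⟨a, ha⟩
  have e1 : Q.comp P = MonoidHom.id F := by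
    apply h.hom_ext
    · intro a ha
      simp [p1 a ha, q1 a ha]
    · simp [hP2, hQ2, q1 μ hμ]
  have e2 : P.comp Q = MonoidHom.id F := by
    apply h.hom_ext
    · intro a ha
      simp [p1 a ha, q1 a ha]
    · simp [hP2, hQ2, p1 μ hμ]
  refine ⟨MonoidHom.toMulEquiv P Q e1 e2, p1, hP2⟩

/-- two predicates with the same coboundaries -/
theorem Adj.induct (h : Adj D s) {P : F → Prop} (h1 : P 1)
    (hA : ∀ x : F, ∀ a ∈ RA (WO D), P x ↔ P (x * a)) (hs : ∀ x : F, P x ↔ P (x * s)) (x : F) :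
    P x := by
  have hx : x ∈ Subgroup.closure ((RA (WO D) : Set F) ∪ {s}) := h.gen x
  induction hx using Subgroup.closure_induction_right with
  | one => exact h1
  | mul_right x _ y hy hx =>
    rcases hy with hy | hy
    · exact (hA x y hy).mp hx
    · rw [mem_singleton_iff] at hy
      rw [hy]
      exact (hs x).mp hx
  | mul_inv_cancel x _ y hy hx =>
    rcases hy with hy | hy
    · exact (hA x y⁻¹ ((RA (WO D)).inv_mem hy)).mp hx
    · rw [mem_singleton_iff] at hy
      rw [hy]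
      have := hs (x * s⁻¹)
      rw [inv_mul_cancel_right] at this
      exact this.mpr hx

/-- D is changed by s only at the identity -/
theorem Adj.delta (h : Adj D s) {y : F} (hy : y ≠ 1) : y * s ∈ D ↔ y ∈ D := by
  have key : ∀ C ∈ WO D, C ≠ D → C ≠ Dᶜ → ((1 : F) ∈ C ↔ s ∈ C) := by
    intro C hC h1 h2
    constructor
    · intro h3
      by_contra h4
      have := h.uniq (C := Cᶜ) (h.cut.ws.compl C hC) (fun h' => h' h3) h4
      apply h2
      rw [← this, compl_compl]
    · intro h3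
      by_contra h4
      exact h1 (h.uniq hC h4 h3)
  have := key (y⁻¹ • D) (mem_WO_smul D _) (fun e => hy (by
    have := h.cut.stab _ e
    rwa [inv_eq_one] at this)) (h.cut.inv _)
  rw [mem_smul_iff, mem_smul_iff, inv_inv, mul_one] at this
  exact this.symm

variable {S : F ≃* F} {μ : F}

theorem Adj.slide_self (h : Adj D s) (hμ : μ ∈ RA (WO D)) (hA : ∀ a ∈ RA (WO D), S a = a)
    (hs : S s = μ * s) : S '' D = μ • D := by
  have hDm := mem_WO_self D
  have key : ∀ x : F, (μ⁻¹ * S x ∈ D ↔ x ∈ D) := by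
    apply h.induct (P := fun x => (μ⁻¹ * S x ∈ D ↔ x ∈ D))
    · rw [map_one, mul_one]
      have := (RA (WO D)).inv_mem hμ D hDm 1
      rwa [one_mul] at this
    · intro x a ha
      rw [map_mul, hA a ha, ← mul_assoc, ha D hDm, ha D hDm]
    · intro x
      have e : μ⁻¹ * S (x * s) = (μ⁻¹ * S x * μ) * s := by
        rw [map_mul, hs]
        group
      have e2 : μ⁻¹ * S x * μ ∈ D ↔ μ⁻¹ * S x ∈ D := hμ D hDm _
      by_cases hx : x = 1
      · subst hx
        rw [map_one, mul_one, one_mul, hs, inv_mul_cancel_left]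
        have := (RA (WO D)).inv_mem hμ D hDm 1
        rw [one_mul] at this
        rw [this]
        simp
      · have hy : μ⁻¹ * S x * μ ≠ 1 := by
          intro e3
          apply hx
          have : S x = 1 := by
            have e4 : S x = μ * (μ⁻¹ * S x * μ) * μ⁻¹ := by group
            rw [e4, e3]
            group
          exact (map_eq_one_iff S S.injective).mp this
        rw [e, h.delta hy, h.delta hx, e2]
  ext x
  rw [mem_smul_iff]
  constructor
  · rintro ⟨y, hy, rfl⟩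
    exact (key y).mpr hy
  · intro hx
    refine ⟨S.symm x, ?_, S.apply_symm_apply x⟩
    have := key (S.symm x)
    rw [S.apply_symm_apply] at this
    exact this.mp hx

/-- the wall B touches the D-vertex of y -/
def Tch (D : Set F) (s : F) (B : Set F) (y : F) : Prop :=
  (∃ a ∈ RA (WO D), ¬ (y ∈ B ↔ y * a ∈ B)) ∨ ¬ (y * s⁻¹ ∈ B ↔ y ∈ B)

variable {W : Set (Set F)}

theorem Adj.meets (h : Adj D s) (hW : WS W) (h1 : Sees W 1 D) {B : Set F}
    (hB : B ∈ W) (hBD : B ∉ WO D) {y : F} (ht : Tch D s B y) {C : Set F} (hC : C ∈ WO D)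
    (hy : y ∈ C) : (∃ p ∈ C, p ∈ B) ∧ (∃ p ∈ C, p ∉ B) := by
  rcases ht with ⟨a, ha, h2⟩ | h2
  · have hya : y * a ∈ C := (ha C hC y).mpr hy
    by_cases hyB : y ∈ B
    · have : y * a ∉ B := fun h' => h2 ⟨fun _ => h', fun _ => hyB⟩
      exact ⟨⟨y, hy, hyB⟩, ⟨y * a, hya, this⟩⟩
    · have : y * a ∈ B := by
        by_contra h'
        exact h2 ⟨fun h3 => absurd h3 hyB, fun h3 => absurd h3 h'⟩
      exact ⟨⟨y * a, hya, this⟩, ⟨y, hy, hyB⟩⟩
  · by_cases hys : y * s⁻¹ ∈ C
    · by_cases hyB : y ∈ B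
      · have : y * s⁻¹ ∉ B := fun h' => h2 ⟨fun _ => hyB, fun _ => h'⟩
        exact ⟨⟨y, hy, hyB⟩, ⟨y * s⁻¹, hys, this⟩⟩
      · have : y * s⁻¹ ∈ B := by
          by_contra h'
          exact h2 ⟨fun h3 => absurd h3 h', fun h3 => absurd h3 hyB⟩
        exact ⟨⟨y * s⁻¹, hys, this⟩, ⟨y, hy, hyB⟩⟩
    · -- C = y s⁻¹ D
      have hC' : (s * y⁻¹) • C = D := by
        apply h.uniq (h.cut.ws.smul _ C hC)
        · rw [mem_smul_iff, mul_inv_rev, inv_inv, mul_one]
          exact hys
        · rw [mem_smul_iff, mul_inv_rev, inv_inv, inv_mul_cancel_right]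
          exact hy
      -- a wall with y inside, y s⁻¹ outside
      have main : ∀ B : Set F, B ∈ W → B ∉ WO D → y ∈ B → y * s⁻¹ ∉ B → ∃ p ∈ C, p ∉ B := by
        intro B hB hBD hyB hyB'
        by_contra hno
        push Not at hno
        have hsub : C ⊆ B := hno
        have h3 := h1.2 ((s * y⁻¹) • B) (hW.smul _ B hB) (by
          rw [mem_smul_iff, mul_inv_rev, inv_inv, mul_one]
          exact hyB') (by
          rw [← hC']
          exact smul_set_mono hsub)
        apply hBD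
        rw [← hC', smul_left_cancel_iff] at h3
        rw [h3]
        exact hC
      by_cases hyB : y ∈ B
      · have : y * s⁻¹ ∉ B := fun h' => h2 ⟨fun _ => hyB, fun _ => h'⟩
        exact ⟨⟨y, hy, hyB⟩, main B hB hBD hyB this⟩
      · have : y * s⁻¹ ∈ B := by
          by_contra h'
          exact h2 ⟨fun h3 => absurd h3 h', fun h3 => absurd h3 hyB⟩
        obtain ⟨p, hp, hpB⟩ := main Bᶜ (hW.compl B hB) (fun h' => hBD (by
          have := h.cut.ws.compl _ h'
          rwa [compl_compl] at this)) hyB (fun h' => h' this)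
        refine ⟨⟨p, hp, ?_⟩, ⟨y, hy, hyB⟩⟩
        by_contra h'
        exact hpB h'

theorem Adj.tch_uniq (h : Adj D s) (hW : WS W) (hD : D ∈ W) (h1 : Sees W 1 D) {B : Set F}
    (hB : B ∈ W) (hBD : B ∉ WO D) {y₁ y₂ : F} (ht₁ : Tch D s B y₁) (ht₂ : Tch D s B y₂) :
    y₁⁻¹ * y₂ ∈ RA (WO D) := by
  have hWD := WO_subset hW hD
  rw [h.cut.ws.mem_RA_iff]
  by_contra hno
  push Not at hno
  obtain ⟨C, hC, hC2⟩ := hno
  -- a wall which contains y₁ and not y₂
  have key : ∀ C ∈ WO D, y₁ ∈ C → y₂ ∉ C → False := by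
    intro C hC hy1 hy2
    have m1 := h.meets hW h1 hB hBD ht₁ hC hy1
    have m2 := h.meets hW h1 hB hBD ht₂ (h.cut.ws.compl C hC) hy2
    obtain ⟨⟨p1, hp1, hp1'⟩, ⟨p2, hp2, hp2'⟩⟩ := m1
    obtain ⟨⟨p3, hp3, hp3'⟩, ⟨p4, hp4, hp4'⟩⟩ := m2
    rcases hW.nst B hB C (hWD hC) with h2 | h2 | h2 | h2
    · exact hp3 (h2 hp3')
    · exact hp2' (h2 hp2)
    · exact h2 hp1' hp1
    · exact hp4 (h2 hp4')
  have e1 : ∀ x : F, x ∈ y₁ • C ↔ y₁⁻¹ * x ∈ C := fun x => mem_smul_iff
  rcases hC2 with ⟨h3, h4⟩ | ⟨h3, h4⟩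
  · exact key (y₁ • C) (h.cut.ws.smul _ C hC) (by rw [e1, inv_mul_cancel]; exact h3)
      (by rw [e1]; exact h4)
  · exact key (y₁ • C)ᶜ (h.cut.ws.compl _ (h.cut.ws.smul _ C hC))
      (by rw [mem_compl_iff, e1, inv_mul_cancel]; exact h3)
      (by rw [mem_compl_iff, not_not, e1]; exact h4)

theorem Adj.slide_at_one (h : Adj D s) (hW : WS W) (hD : D ∈ W) (h1 : Sees W 1 D)
    (hμ : μ ∈ RA W) (hA : ∀ a ∈ RA (WO D), S a = a) (hs : S s = μ * s)
    {B : Set F} (hB : B ∈ W) (hBD : B ∉ WO D) (ht : Tch D s B 1) (x : F) : S x ∈ B ↔ x ∈ B := by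
  have hWD := WO_subset hW hD
  have hμ' : μ ∈ RA (WO D) := RA_anti hWD hμ
  have hloc : ∀ y : F, Tch D s B y → y ∈ RA (WO D) := by
    intro y hy
    have := h.tch_uniq hW hD h1 hB hBD ht hy
    rwa [inv_one, one_mul] at this
  have hfix : ∀ y : F, S y ∈ RA (WO D) → y ∈ RA (WO D) := by
    intro y hy
    have := hA _ hy
    have := S.injective this
    rwa [this] at hy
  apply h.induct (P := fun x => (S x ∈ B ↔ x ∈ B))
  · rw [map_one]
  · intro x a ha
    by_cases hx : x ∈ RA (WO D)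
    · rw [hA x hx, hA (x * a) ((RA (WO D)).mul_mem hx ha)]
      simp
    · have c1 : (x ∈ B ↔ x * a ∈ B) := by
        by_contra h'
        exact hx (hloc x (Or.inl ⟨a, ha, h'⟩))
      have c2 : (S x ∈ B ↔ S x * a ∈ B) := by
        by_contra h'
        exact hx (hfix x (hloc _ (Or.inl ⟨a, ha, h'⟩)))
      rw [map_mul, hA a ha, ← c1, ← c2]
  · intro x
    by_cases hx : x * s ∈ RA (WO D)
    · have e1 : S (x * s) = x * s := hA _ hx
      have e2 : S x = x * μ⁻¹ := by
        have : S (x * s) = S x * (μ * s) := by rw [map_mul, hs]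
        rw [e1] at this
        have : x * s = (S x * μ) * s := by rw [mul_assoc]; exact this
        exact eq_mul_inv_of_mul_eq (mul_right_cancel this).symm
      rw [e1, e2, (RA W).inv_mem hμ B hB x]
      simp
    · have c1 : (x ∈ B ↔ x * s ∈ B) := by
        by_contra h'
        apply hx
        apply hloc
        right
        rw [mul_inv_cancel_right]
        exact h'
      have c2 : (S x * μ ∈ B ↔ S x * μ * s ∈ B) := by
        by_contra h'
        apply hx
        apply hfix
        apply hloc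
        right
        rw [map_mul, hs, ← mul_assoc, mul_inv_cancel_right]
        exact h'
      have e : S (x * s) = S x * μ * s := by rw [map_mul, hs, mul_assoc]
      rw [e, ← c1, ← c2, hμ B hB]

theorem Tch.translate {B : Set F} {y : F} (ht : Tch D s B y) : Tch D s (y⁻¹ • B) 1 := by
  rcases ht with ⟨a, ha, h2⟩ | h2
  · left
    refine ⟨a, ha, ?_⟩
    rw [mem_smul_iff, mem_smul_iff, inv_inv, mul_one, one_mul]
    exact h2
  · right
    rw [mem_smul_iff, mem_smul_iff, inv_inv, one_mul, mul_one]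
    exact h2

theorem image_smul' (S : F ≃* F) (g : F) (B : Set F) : S '' (g • B) = S g • (S '' B) := by
  ext x
  rw [mem_smul_iff]
  constructor
  · rintro ⟨y, hy, rfl⟩
    rw [mem_smul_iff] at hy
    exact ⟨g⁻¹ * y, hy, by rw [map_mul, map_inv]⟩
  · rintro ⟨y, hy, he⟩
    refine ⟨g * y, ?_, ?_⟩
    · rw [mul_mem_smul]
      exact hy
    · rw [map_mul, he, mul_inv_cancel_left]

/-- slides preserve all orbits of walls -/
theorem Adj.slide_wall (h : Adj D s) (hW : WS W) (hD : D ∈ W) (h1 : Sees W 1 D)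
    (hμ : μ ∈ RA W) (hA : ∀ a ∈ RA (WO D), S a = a) (hs : S s = μ * s)
    {E : Set F} (hE : E ∈ W) : ∃ g : F, S '' E = g • E := by
  have hWD := WO_subset hW hD
  have hμ' : μ ∈ RA (WO D) := RA_anti hWD hμ
  have hself := h.slide_self hμ' hA hs
  have hcompl : ∀ B : Set F, S '' Bᶜ = (S '' B)ᶜ := fun B => image_compl_eq S.bijective
  by_cases hED : E ∈ WO D
  · obtain ⟨k, hk | hk⟩ := hED
    · refine ⟨S k * μ * k⁻¹, ?_⟩
      rw [hk, image_smul', hself, ← mul_smul, ← mul_smul, inv_mul_cancel_right]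
    · refine ⟨S k * μ * k⁻¹, ?_⟩
      rw [hk, hcompl, smul_set_compl, image_smul', hself, ← mul_smul, ← mul_smul,
        inv_mul_cancel_right]
  · by_cases hex : ∃ y : F, Tch D s E y
    · obtain ⟨y, hy⟩ := hex
      have hB : y⁻¹ • E ∈ W := hW.smul _ E hE
      have hBD : y⁻¹ • E ∉ WO D := by
        intro h'
        apply hED
        have := h.cut.ws.smul y _ h'
        rwa [smul_inv_smul] at this
      have key := h.slide_at_one hW hD h1 hμ hA hs hB hBD hy.translate
      have e1 : S '' (y⁻¹ • E) = y⁻¹ • E := by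
        ext x
        constructor
        · rintro ⟨z, hz, rfl⟩
          exact (key z).mpr hz
        · intro hx
          refine ⟨S.symm x, ?_, S.apply_symm_apply x⟩
          have := key (S.symm x)
          rw [S.apply_symm_apply] at this
          exact this.mp hx
      refine ⟨S y * y⁻¹, ?_⟩
      have e2 : E = y • (y⁻¹ • E) := (smul_inv_smul y E).symm
      conv_lhs => rw [e2]
      rw [image_smul', e1, mul_smul]
    · push Not at hex
      have inv1 : ∀ x : F, ∀ a ∈ RA (WO D), x ∈ E ↔ x * a ∈ E := by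
        intro x a ha
        by_contra h'
        exact hex x (Or.inl ⟨a, ha, h'⟩)
      have inv2 : ∀ x : F, x ∈ E ↔ x * s ∈ E := by
        intro x
        by_contra h'
        apply hex (x * s)
        right
        rw [mul_inv_cancel_right]
        exact h'
      have key : ∀ x : F, (x ∈ E ↔ (1 : F) ∈ E) := by
        apply h.induct (P := fun x => (x ∈ E ↔ (1 : F) ∈ E)) Iff.rfl
        · intro x a ha
          rw [inv1 x a ha]
        · intro x
          rw [inv2 x]
      refine ⟨1, ?_⟩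
      rw [one_smul]
      by_cases he : (1 : F) ∈ E
      · have : E = univ := eq_univ_of_forall fun x => (key x).mpr he
        rw [this, image_univ, S.surjective.range_eq]
      · have : E = ∅ := eq_empty_of_forall_notMem fun x hx => he ((key x).mp hx)
        rw [this, image_empty]

end Pool.Agent.TOR.H76
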