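import Mathlib
import Pool.Agent.Helper76_TOR.Sld
import Pool.Agent.Helper58_TOR.Fr2

/-! T2-stab: the passage F -> F * T in abstract form. -/

set_option autoImplicit false

namespace Pool.Agent.TOR.H76

open Pointwise Set Pool.Agent.TOR.H58

section cls

variable {F : Type*} [Group F]

/-- an active set: almost invariant, nested, nonzero class -/
structure Act (D : Set F) : Prop where
  ai : AI D
  sn : SN F D
  ne : cl D ≠ 0

theorem Pp_finite {D : Set F} (hD : AI D) (p q : F) : (Pp D p q).Finite := by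
  have : Pp D p q ⊆ (fun a => p * a⁻¹) '' Dl (p⁻¹ * q) D := by
    rintro h ⟨h1, h2⟩
    rw [mem_smul_iff] at h1 h2
    refine ⟨h⁻¹ * p, fun h' => ?_, by group⟩
    rw [mul_assoc, mul_inv_cancel_left] at h'
    exact h1 (h'.mp h2)
  exact ((hD _).image _).subset this

theorem Act.cut [IsMulTorsionFree F] {D : Set F} (h : Act D) : Cut D where
  sn := h.sn
  fin := Pp_finite h.ai
  stab := fun g hg => stab_trivial (S := univ) Subgroup.closure_univ h.ai (ne_of_cl h.ne).1
    (ne_of_cl h.ne).2 (Or.inl hg)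
  inv := fun g hg => by
    have h1 : g = 1 := stab_trivial (S := univ) Subgroup.closure_univ h.ai (ne_of_cl h.ne).1
      (ne_of_cl h.ne).2 (Or.inr hg)
    rw [h1, one_smul] at hg
    obtain ⟨x, hx⟩ := (ne_of_cl h.ne).1
    have : x ∈ Dᶜ := by rw [← hg]; exact hx
    exact this hx

theorem cl_eq_ncard {D : Set F} (hD : AI D) (x : F) :
    cl D x = ((Pp D 1 x).ncard : ℤ) - ((Pp D x 1).ncard : ℤ) := by
  classical
  have hf := hD x
  have e1 : cl D x = ∑ a ∈ hf.toFinset, (ind D (a * x) - ind D a) := by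
    unfold cl
    apply finsum_eq_sum_of_support_subset
    rw [Finite.coe_toFinset]
    exact supp_cl D x
  have e2 : ∀ a ∈ hf.toFinset, (ind D (a * x) - ind D a) = if a ∈ D then (-1 : ℤ) else 1 := by
    intro a ha
    rw [Finite.mem_toFinset] at ha
    by_cases h : a ∈ D
    · have h2 : a * x ∉ D := fun h' => ha ⟨fun _ => h, fun _ => h'⟩
      rw [if_pos h]
      unfold ind
      rw [Set.indicator_of_mem h, Set.indicator_of_notMem h2]
      norm_num
    · have h2 : a * x ∈ D := by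
        by_contra h'
        exact ha ⟨fun h3 => absurd h3 h', fun h3 => absurd h3 h⟩
      rw [if_neg h]
      unfold ind
      rw [Set.indicator_of_mem h2, Set.indicator_of_notMem h]
      norm_num
  rw [e1, Finset.sum_congr rfl e2, Finset.sum_ite]
  have e3 : Pp D x 1 = (fun a => a⁻¹) '' (hf.toFinset.filter (fun a => a ∈ D) : Set F) := by
    ext h
    constructor
    · rintro ⟨h1, h2⟩
      rw [mem_smul_iff] at h1 h2
      rw [mul_one] at h2
      refine ⟨h⁻¹, ?_, inv_inv h⟩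
      rw [Finset.mem_coe, Finset.mem_filter, Finite.mem_toFinset]
      exact ⟨fun h' => h1 (h'.mpr h2), h2⟩
    · rintro ⟨a, ha, rfl⟩
      rw [Finset.mem_coe, Finset.mem_filter, Finite.mem_toFinset] at ha
      refine ⟨?_, ?_⟩
      · rw [mem_smul_iff, inv_inv]
        exact fun h' => ha.1 ⟨fun _ => ha.2, fun _ => h'⟩
      · rw [mem_smul_iff, inv_inv, mul_one]
        exact ha.2
  have e4 : Pp D 1 x = (fun a => a⁻¹) '' (hf.toFinset.filter (fun a => ¬ a ∈ D) : Set F) := by
    ext h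
    constructor
    · rintro ⟨h1, h2⟩
      rw [mem_smul_iff] at h1 h2
      rw [mul_one] at h1
      refine ⟨h⁻¹, ?_, inv_inv h⟩
      rw [Finset.mem_coe, Finset.mem_filter, Finite.mem_toFinset]
      exact ⟨fun h' => h1 (h'.mp h2), h1⟩
    · rintro ⟨a, ha, rfl⟩
      rw [Finset.mem_coe, Finset.mem_filter, Finite.mem_toFinset] at ha
      refine ⟨?_, ?_⟩
      · rw [mem_smul_iff, inv_inv, mul_one]
        exact ha.2
      · rw [mem_smul_iff, inv_inv]
        by_contra h'
        exact ha.1 ⟨fun h3 => absurd h3 h', fun h3 => absurd h3 ha.2⟩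
  have c3 : (Pp D x 1).ncard = (hf.toFinset.filter (fun a => a ∈ D)).card := by
    rw [e3, ncard_image_of_injective _ inv_injective, ncard_coe_finset]
  have c4 : (Pp D 1 x).ncard = (hf.toFinset.filter (fun a => ¬ a ∈ D)).card := by
    rw [e4, ncard_image_of_injective _ inv_injective, ncard_coe_finset]
  rw [c3, c4, Finset.sum_const, Finset.sum_const]
  simp only [nsmul_eq_mul, mul_neg, mul_one]
  ring

theorem Act.exists_ne {D : Set F} (h : Act D) :
    ∃ x : F, (Pp D 1 x).ncard ≠ (Pp D x 1).ncard := by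
  by_contra hno
  push Not at hno
  apply h.ne
  funext x
  rw [cl_eq_ncard h.ai x, hno x, sub_self]
  rfl

/-- class on the base group and on s -/
theorem Adj.cl_s {D : Set F} {s : F} (h : Adj D s) (hD : AI D) : cl D s = 1 := by
  rw [cl_eq_ncard hD, h.pos, h.neg, ncard_singleton, ncard_empty]
  norm_num

theorem cl_RA {D : Set F} {a : F} (ha : a ∈ RA (WO D)) : cl D a = 0 := by
  unfold cl
  have : ∀ x : F, ind D (x * a) - ind D x = 0 := by
    intro x
    have := ha D (mem_WO_self D) x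
    unfold ind
    by_cases h : x ∈ D
    · rw [Set.indicator_of_mem h, Set.indicator_of_mem (this.mpr h), sub_self]
    · rw [Set.indicator_of_notMem h, Set.indicator_of_notMem (fun h' => h (this.mp h')), sub_self]
  simp [this]

end cls

/-- the data of a free extension F * T -/
structure Ext (F Fp J : Type*) [Group F] [Group Fp] where
  i : F →* Fp
  hd : Fp → F
  t : J → Fp
  hd_i_mul : ∀ x g, hd (i x * g) = x * hd g
  hd_one : hd 1 = 1
  hd_mul_t : ∀ g j, hd (g * t j) = hd g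
  hd_mul_i : ∀ g, g ∉ i.range → ∀ x, hd (g * i x) = hd g
  hd_alt : ∀ g, g ∉ i.range → ∀ u, hd u = hd g ∨ hd (g⁻¹ * u) = hd g⁻¹
  gen : Subgroup.closure ((i.range : Set Fp) ∪ range t) = ⊤
  up : ∀ (α : F →* Fp) (τ : J → Fp), ∃ Φ : Fp →* Fp, (∀ x, Φ (i x) = α x) ∧ ∀ j, Φ (t j) = τ j

namespace Ext

variable {F Fp J : Type*} [Group F] [Group Fp] (e : Ext F Fp J)

theorem hd_i (x : F) : e.hd (e.i x) = x := by
  have := e.hd_i_mul x 1
  rwa [mul_one, e.hd_one, mul_one] at this

theorem i_inj : Function.Injective e.i := fun x y h => by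
  rw [← e.hd_i x, h, e.hd_i]

theorem hd_mul_t_inv (g : Fp) (j : J) : e.hd (g * (e.t j)⁻¹) = e.hd g := by
  have := e.hd_mul_t (g * (e.t j)⁻¹) j
  rw [inv_mul_cancel_right] at this
  exact this.symm

/-- the extension of a set -/
def ex (E : Set F) : Set Fp := e.hd ⁻¹' E

theorem mem_ex {E : Set F} {g : Fp} : g ∈ e.ex E ↔ e.hd g ∈ E := Iff.rfl

theorem i_mem_ex {E : Set F} {x : F} : e.i x ∈ e.ex E ↔ x ∈ E := by
  rw [mem_ex, e.hd_i]

theorem ex_smul (x : F) (E : Set F) : e.i x • e.ex E = e.ex (x • E) := by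
  ext g
  rw [mem_smul_iff, mem_ex, mem_ex, mem_smul_iff, ← map_inv, e.hd_i_mul]

theorem ex_compl (E : Set F) : e.ex Eᶜ = (e.ex E)ᶜ := rfl

theorem ex_inj {E B : Set F} (h : e.ex E = e.ex B) : E = B := by
  ext x
  rw [← e.i_mem_ex, h, e.i_mem_ex]

theorem nst_out {g : Fp} (hg : g ∉ e.i.range) (E B : Set F) : Nst (g • e.ex E) (e.ex B) := by
  have key : ∀ u : Fp, e.hd u ≠ e.hd g → e.hd (g⁻¹ * u) = e.hd g⁻¹ := fun u hu =>
    (e.hd_alt g hg u).resolve_left hu
  have m : ∀ u : Fp, u ∈ g • e.ex E ↔ e.hd (g⁻¹ * u) ∈ E := fun u => mem_smul_iff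
  by_cases ha : e.hd g ∈ B <;> by_cases hb : e.hd g⁻¹ ∈ E
  · refine Or.inr (Or.inr (Or.inr fun u hu => ?_))
    by_contra h
    apply hu
    rw [m, key u (fun h' => h (by rw [mem_ex, h']; exact ha))]
    exact hb
  · refine Or.inl fun u hu => ?_
    by_contra h
    rw [m, key u (fun h' => h (by rw [mem_ex, h']; exact ha))] at hu
    exact hb hu
  · refine Or.inr (Or.inl fun u hu => ?_)
    rw [m, key u (fun h' => ha (by rw [← h']; exact hu))]
    exact hb
  · refine Or.inr (Or.inr (Or.inl fun u hu h => ?_))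
    rw [m, key u (fun h' => ha (by rw [← h']; exact h))] at hu
    exact hb hu

theorem nst_ex {E B : Set F} (h : ∀ x : F, Nst (x • E) B) (g : Fp) :
    Nst (g • e.ex E) (e.ex B) := by
  by_cases hg : g ∈ e.i.range
  · obtain ⟨x, rfl⟩ := hg
    rw [e.ex_smul]
    rcases h x with h1 | h1 | h1 | h1
    · exact Or.inl fun u hu => h1 hu
    · exact Or.inr (Or.inl fun u hu => h1 hu)
    · exact Or.inr (Or.inr (Or.inl fun u hu => h1 hu))
    · exact Or.inr (Or.inr (Or.inr fun u hu => h1 hu))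
  · exact e.nst_out hg E B

theorem sn_ex {E : Set F} (h : SN F E) : SN Fp (e.ex E) := fun g => e.nst_ex h g

/-- the extended wall system -/
def wex (W : Set (Set F)) : Set (Set Fp) := {B | ∃ C ∈ W, ∃ g : Fp, B = g • e.ex C}

theorem ex_mem_wex {W : Set (Set F)} {C : Set F} (hC : C ∈ W) : e.ex C ∈ e.wex W :=
  ⟨C, hC, 1, (one_smul _ _).symm⟩

/-- a wall of the extended system which changes between g and g (i x) -/
theorem step {W : Set (Set F)} (hW : WS W) {B : Set Fp} (hB : B ∈ e.wex W) {p : Fp} {x : F}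
    (h : ¬ (p ∈ B ↔ p * e.i x ∈ B)) : ∃ C ∈ W, B = p • e.ex C ∧ ((1 : F) ∈ C ↔ p ∈ B) ∧
      (x ∈ C ↔ p * e.i x ∈ B) := by
  obtain ⟨C, hC, g, rfl⟩ := hB
  have m : ∀ u : Fp, u ∈ g • e.ex C ↔ e.hd (g⁻¹ * u) ∈ C := fun u => mem_smul_iff
  have hr : g⁻¹ * p ∈ e.i.range := by
    by_contra hr
    apply h
    rw [m, m, ← mul_assoc, e.hd_mul_i _ hr]
  obtain ⟨y, hy⟩ := hr
  have hp : p = g * e.i y := by rw [hy, mul_inv_cancel_left]
  refine ⟨y⁻¹ • C, hW.smul _ C hC, ?_, ?_, ?_⟩
  · rw [hp, mul_smul, e.ex_smul, smul_inv_smul]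
  · rw [m, ← hy, e.hd_i, mem_smul_iff, inv_inv, mul_one]
  · rw [m, ← mul_assoc, ← hy, ← map_mul, e.hd_i, mem_smul_iff, inv_inv]

theorem t_inv {W : Set (Set F)} {B : Set Fp} (hB : B ∈ e.wex W) (p : Fp) (j : J) :
    p * e.t j ∈ B ↔ p ∈ B := by
  obtain ⟨C, hC, g, rfl⟩ := hB
  rw [mem_smul_iff, mem_smul_iff, e.mem_ex, e.mem_ex, ← mul_assoc, e.hd_mul_t]

theorem ws_wex {W : Set (Set F)} (hW : WS W) : WS (e.wex W) where
  smul := by
    rintro h B ⟨C, hC, g, rfl⟩
    exact ⟨C, hC, h * g, by rw [mul_smul]⟩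
  compl := by
    rintro B ⟨C, hC, g, rfl⟩
    exact ⟨Cᶜ, hW.compl C hC, g, by rw [e.ex_compl, smul_set_compl]⟩
  nst := by
    rintro B ⟨C, hC, g, rfl⟩ B' ⟨C', hC', g', rfl⟩
    rw [← nst_smul g'⁻¹, inv_smul_smul, ← mul_smul]
    exact e.nst_ex (fun x => hW.nst _ (hW.smul x C hC) _ hC') _
  fin := by
    have key : ∀ u : Fp, ∀ p : Fp, {B ∈ e.wex W | p ∉ B ∧ p * u ∈ B}.Finite ∧
        {B ∈ e.wex W | p * u ∉ B ∧ p ∈ B}.Finite := by
      intro u
      have hu : u ∈ Subgroup.closure ((e.i.range : Set Fp) ∪ range e.t) := by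
        rw [e.gen]; trivial
      induction hu using Subgroup.closure_induction with
      | mem u hu =>
        intro p
        rcases hu with ⟨x, rfl⟩ | ⟨j, rfl⟩
        · constructor
          · apply ((hW.fin 1 x).image (fun C => p • e.ex C)).subset
            rintro B ⟨hB, h1, h2⟩
            obtain ⟨C, hC, e1, e2, e3⟩ := e.step hW hB (fun h => h1 (h.mpr h2))
            exact ⟨C, ⟨hC, fun h => h1 (e2.mp h), e3.mpr h2⟩, e1.symm⟩
          · apply ((hW.fin x 1).image (fun C => p • e.ex C)).subset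
            rintro B ⟨hB, h1, h2⟩
            obtain ⟨C, hC, e1, e2, e3⟩ := e.step hW hB (fun h => h1 (h.mp h2))
            exact ⟨C, ⟨hC, fun h => h1 (e3.mp h), e2.mpr h2⟩, e1.symm⟩
        · constructor
          · apply Set.finite_empty.subset
            rintro B ⟨hB, h1, h2⟩
            exact h1 ((e.t_inv hB p j).mp h2)
          · apply Set.finite_empty.subset
            rintro B ⟨hB, h1, h2⟩
            exact h1 ((e.t_inv hB p j).mpr h2)
      | one =>
        intro p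
        constructor
        · apply Set.finite_empty.subset
          rintro B ⟨hB, h1, h2⟩
          rw [mul_one] at h2
          exact h1 h2
        · apply Set.finite_empty.subset
          rintro B ⟨hB, h1, h2⟩
          rw [mul_one] at h1
          exact h1 h2
      | mul x y _ _ hx hy =>
        intro p
        constructor
        · apply ((hx p).1.union (hy (p * x)).1).subset
          rintro B ⟨hB, h1, h2⟩
          by_cases h3 : p * x ∈ B
          · exact Or.inl ⟨hB, h1, h3⟩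
          · exact Or.inr ⟨hB, h3, by rw [mul_assoc]; exact h2⟩
        · apply ((hx p).2.union (hy (p * x)).2).subset
          rintro B ⟨hB, h1, h2⟩
          by_cases h3 : p * x ∈ B
          · exact Or.inr ⟨hB, by rw [mul_assoc]; exact h1, h3⟩
          · exact Or.inl ⟨hB, h3, h2⟩
      | inv x _ hx =>
        intro p
        have := hx (p * x⁻¹)
        rw [inv_mul_cancel_right] at this
        exact ⟨this.2, this.1⟩
    intro p q
    have := (key (p⁻¹ * q) p).1
    rwa [mul_inv_cancel_left] at this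

theorem i_mem_RA {W : Set (Set F)} (hW : WS W) {a : F} (ha : a ∈ RA W) :
    e.i a ∈ RA (e.wex W) := by
  intro B hB p
  by_contra h
  obtain ⟨C, hC, e1, e2, e3⟩ := e.step hW hB (p := p) (x := a) (fun h' => h h'.symm)
  apply h
  rw [← e3, ← e2]
  exact (hW.mem_RA_iff.mp ha C hC).symm

theorem t_mem_RA {W : Set (Set F)} (j : J) : e.t j ∈ RA (e.wex W) :=
  fun _ hB p => e.t_inv hB p j

theorem sees_ex {W : Set (Set F)} (hW : WS W) {D : Set F} (hne : D.Nonempty)
    (h : Sees W 1 D) : Sees (e.wex W) 1 (e.ex D) := by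
  refine ⟨?_, fun B hB h1 hs => ?_⟩
  · rw [e.mem_ex, e.hd_one]
    exact h.1
  · obtain ⟨s, hs'⟩ := hne
    have h2 : (1 : Fp) * e.i s ∈ B := by
      rw [one_mul]
      exact hs (e.i_mem_ex.mpr hs')
    obtain ⟨C, hC, e1, e2, e3⟩ := e.step hW hB (p := 1) (x := s) (fun h => h1 (h.mpr h2))
    rw [one_smul] at e1
    have : C = D := by
      apply h.2 C hC (fun h' => h1 (e2.mp h'))
      intro x hx
      have := hs (e.i_mem_ex.mpr hx)
      rw [e1] at this
      exact e.i_mem_ex.mp this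
    rw [e1, this]

theorem ai_ex {E : Set F} (hE : AI E) : AI (e.ex E) := by
  apply ai_of_closure e.gen
  rintro u (⟨x, rfl⟩ | ⟨j, rfl⟩)
  · apply ((hE x).image e.i).subset
    intro g hg
    have hr : g ∈ e.i.range := by
      by_contra hr
      apply hg
      rw [e.mem_ex, e.mem_ex, e.hd_mul_i _ hr]
    obtain ⟨y, rfl⟩ := hr
    refine ⟨y, fun h => hg ?_, rfl⟩
    rw [← map_mul, e.i_mem_ex, e.i_mem_ex]
    exact h
  · apply Set.finite_empty.subset
    intro g hg
    apply hg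
    rw [e.mem_ex, e.mem_ex, e.hd_mul_t]

theorem ind_ex (E : Set F) (g : Fp) : ind (e.ex E) g = ind E (e.hd g) := by
  classical
  unfold ind
  rw [Set.indicator_apply, Set.indicator_apply]
  rfl

theorem cl_ex_i (E : Set F) (x : F) : cl (e.ex E) (e.i x) = cl E x := by
  unfold cl
  rw [← finsum_mem_univ]
  have h1 : ∑ᶠ (a : Fp) (_ : a ∈ (univ : Set Fp)), (ind (e.ex E) (a * e.i x) - ind (e.ex E) a) =
      ∑ᶠ (a : Fp) (_ : a ∈ range e.i), (ind (e.ex E) (a * e.i x) - ind (e.ex E) a) := by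
    apply finsum_mem_inter_support_eq'
    intro a h
    refine ⟨fun _ => ?_, fun _ => trivial⟩
    by_contra hr
    apply h
    show ind (e.ex E) (a * e.i x) - ind (e.ex E) a = 0
    rw [e.ind_ex, e.ind_ex, e.hd_mul_i a hr, sub_self]
  rw [h1, finsum_mem_range e.i_inj]
  apply finsum_congr
  intro y
  rw [← map_mul, e.ind_ex, e.ind_ex, e.hd_i, e.hd_i]

theorem cl_ex_t (E : Set F) (j : J) : cl (e.ex E) (e.t j) = 0 := by
  unfold cl
  simp [e.ind_ex, e.hd_mul_t]

theorem act_ex {E : Set F} (h : Act E) : Act (e.ex E) where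
  ai := e.ai_ex h.ai
  sn := e.sn_ex h.sn
  ne := by
    intro h'
    apply h.ne
    funext x
    rw [← e.cl_ex_i, h']
    rfl

theorem adj_ex [IsMulTorsionFree Fp] {D : Set F} {s : F} (hD : Act D) (h : Adj D s) :
    Adj (e.ex D) (e.i s) where
  cut := (e.act_ex hD).cut
  pos := by
    ext g
    rw [mem_singleton_iff]
    constructor
    · rintro ⟨h1, h2⟩
      have hB : g • e.ex D ∈ e.wex (WO D) := ⟨D, mem_WO_self D, g, rfl⟩
      obtain ⟨C, hC, e1, e2, e3⟩ := e.step h.cut.ws hB (p := 1) (x := s)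
        (fun h' => h1 (h'.mpr (by rw [one_mul]; exact h2)))
      rw [one_mul] at e3
      have hCD : C = D := h.uniq hC (fun h' => h1 (e2.mp h')) (e3.mpr h2)
      rw [one_smul, hCD] at e1
      exact (e.act_ex hD).cut.stab g e1
    · rintro rfl
      refine ⟨?_, ?_⟩
      · rw [one_smul, e.mem_ex, e.hd_one]
        exact h.one_notMem
      · rw [one_smul, e.i_mem_ex]
        exact h.mem
  neg := by
    ext g
    simp only [mem_empty_iff_false, iff_false]
    rintro ⟨h1, h2⟩
    have hB : (g • e.ex D)ᶜ ∈ e.wex (WO D) := ⟨Dᶜ, h.cut.ws.compl D (mem_WO_self D), g, by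
      rw [e.ex_compl, smul_set_compl]⟩
    obtain ⟨C, hC, e1, e2, e3⟩ := e.step h.cut.ws hB (p := 1) (x := s)
      (fun h' => (h'.mpr (by rw [one_mul]; exact h1)) h2)
    rw [one_mul] at e3
    have hCD : C = D := h.uniq hC (fun h' => (e2.mp h') h2) (e3.mpr h1)
    rw [one_smul, hCD] at e1
    exact (e.act_ex hD).cut.smul_ne 1 g (by rw [one_smul]; exact e1.symm)

/-- automorphisms of the extension -/
theorem ex_image {φ : F ≃* F} {ψ : Fp ≃* Fp} (hψ : ∀ x, ψ (e.i x) = e.i (φ x))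
    {a b : J → F} (hψt : ∀ j, ψ (e.t j) = e.i (a j) * e.t j * e.i (b j)) {W : Set (Set F)}
    (hW : WS W) (ha : ∀ j, a j ∈ RA W) (hb : ∀ j, b j ∈ RA W) {C : Set F} (hC : φ '' C ∈ W) :
    ψ '' (e.ex C) = e.ex (φ '' C) := by
  have hCm : e.ex (φ '' C) ∈ e.wex W := e.ex_mem_wex hC
  have hφ : ∀ x : F, φ x ∈ φ '' C ↔ x ∈ C := fun x => φ.injective.mem_set_image
  have hr : ∀ g : Fp, g ∉ e.i.range → ψ g ∉ e.i.range := by
    rintro g hg ⟨y, hy⟩
    apply hg
    refine ⟨φ.symm y, ?_⟩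
    apply ψ.injective
    rw [hψ, MulEquiv.apply_symm_apply, hy]
  have key : ∀ g : Fp, (ψ g ∈ e.ex (φ '' C) ↔ g ∈ e.ex C) := by
    have st : ∀ u ∈ ((e.i.range : Set Fp) ∪ range e.t), ∀ g : Fp,
        ((ψ g ∈ e.ex (φ '' C) ↔ g ∈ e.ex C) ↔
          (ψ (g * u) ∈ e.ex (φ '' C) ↔ g * u ∈ e.ex C)) := by
      rintro u (⟨x, rfl⟩ | ⟨j, rfl⟩) g
      · by_cases hg : g ∈ e.i.range
        · obtain ⟨y, rfl⟩ := hg
          rw [← map_mul, hψ, hψ, e.i_mem_ex, e.i_mem_ex, e.i_mem_ex, e.i_mem_ex, hφ, hφ]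
          simp
        · rw [map_mul, hψ, e.mem_ex, e.mem_ex, e.mem_ex, e.mem_ex, e.hd_mul_i _ (hr g hg),
            e.hd_mul_i _ hg]
      · have e1 : g * e.t j ∈ e.ex C ↔ g ∈ e.ex C := by
          rw [e.mem_ex, e.mem_ex, e.hd_mul_t]
        have e2 : ψ (g * e.t j) ∈ e.ex (φ '' C) ↔ ψ g ∈ e.ex (φ '' C) := by
          rw [map_mul, hψt, ← mul_assoc, ← mul_assoc, e.i_mem_RA hW (hb j) _ hCm,
            e.t_inv hCm, e.i_mem_RA hW (ha j) _ hCm]
        rw [e1, e2]
    intro g
    have hg : g ∈ Subgroup.closure ((e.i.range : Set Fp) ∪ range e.t) := by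
      rw [e.gen]; trivial
    induction hg using Subgroup.closure_induction_right with
    | one =>
      rw [map_one, e.mem_ex, e.mem_ex, e.hd_one]
      have := hφ 1
      rwa [map_one] at this
    | mul_right x _ y hy hx => exact (st y hy x).mp hx
    | mul_inv_cancel x _ y hy hx =>
      have := st y hy (x * y⁻¹)
      rw [inv_mul_cancel_right] at this
      exact this.mpr hx
  ext g
  constructor
  · rintro ⟨x, hx, rfl⟩
    exact (key x).mpr hx
  · intro hg
    refine ⟨ψ.symm g, ?_, ψ.apply_symm_apply g⟩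
    have := key (ψ.symm g)
    rw [ψ.apply_symm_apply] at this
    exact this.mp hg

/-- homomorphisms out of the extension are determined on F and T -/
theorem hom_ext {H : Type*} [Group H] {Φ Ψ : Fp →* H} (h1 : ∀ x, Φ (e.i x) = Ψ (e.i x))
    (h2 : ∀ j, Φ (e.t j) = Ψ (e.t j)) : Φ = Ψ := by
  apply MonoidHom.eq_of_eqOn_top
  rw [← e.gen]
  apply MonoidHom.eqOn_closure
  rintro u (⟨x, rfl⟩ | ⟨j, rfl⟩)
  · exact h1 x
  · exact h2 j

end Ext

end Pool.Agent.TOR.H76
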