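import Mathlib
import Pool.Agent.Helper76_TOR.Ext

/-! The extension FreeGroup α -> FreeGroup (α ⊕ J). -/

set_option autoImplicit false

namespace Pool.Agent.TOR.H76

open Pool.Agent.TOR.H58 FreeGroup

variable {α J : Type*}

/-- the initial near part of a word -/
def pre : List ((α ⊕ J) × Bool) → List (α × Bool)
  | [] => []
  | (Sum.inl a, b) :: L => (a, b) :: pre L
  | (Sum.inr _, _) :: _ => []

/-- the word contains a far letter -/
def HasFar (L : List ((α ⊕ J) × Bool)) : Prop := ∃ j : J, ∃ b : Bool, (Sum.inr j, b) ∈ L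

theorem pre_append_far : ∀ {L : List ((α ⊕ J) × Bool)}, HasFar L →
    ∀ L' : List ((α ⊕ J) × Bool), pre (L ++ L') = pre L
  | [], h, _ => by
    obtain ⟨j, b, h⟩ := h
    exact absurd h List.not_mem_nil
  | (Sum.inl a, b) :: L, h, L' => by
    have h' : HasFar L := by
      obtain ⟨j, c, h⟩ := h
      rcases List.mem_cons.mp h with h | h
      · have := congrArg Prod.fst h
        simp at this
      · exact ⟨j, c, h⟩
    show (a, b) :: pre (L ++ L') = (a, b) :: pre L
    rw [pre_append_far h']
  | (Sum.inr j, b) :: L, _, _ => rfl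

theorem pre_append_inr : ∀ (L : List ((α ⊕ J) × Bool)) (j : J) (b : Bool),
    pre (L ++ [(Sum.inr j, b)]) = pre L
  | [], _, _ => rfl
  | (Sum.inl a, c) :: L, j, b => by
    show (a, c) :: pre (L ++ [(Sum.inr j, b)]) = (a, c) :: pre L
    rw [pre_append_inr]
  | (Sum.inr _, _) :: _, _, _ => rfl

theorem near_eq_map : ∀ {L : List ((α ⊕ J) × Bool)}, ¬ HasFar L →
    ∃ M : List (α × Bool), L = M.map (fun p => (Sum.inl p.1, p.2))
  | [], _ => ⟨[], rfl⟩
  | (Sum.inl a, b) :: L, h => by
    obtain ⟨M, hM⟩ := near_eq_map (L := L) (fun ⟨j, c, h'⟩ => h ⟨j, c, List.mem_cons_of_mem _ h'⟩)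
    exact ⟨(a, b) :: M, by rw [hM]; rfl⟩
  | (Sum.inr j, b) :: L, h => absurd ⟨j, b, List.mem_cons_self⟩ h

theorem isReduced_pre : ∀ {L : List ((α ⊕ J) × Bool)}, IsReduced L → IsReduced (pre L)
  | [], _ => IsReduced.nil
  | [(Sum.inl a, b)], _ => IsReduced.singleton
  | (Sum.inl a, b) :: (Sum.inl a', b') :: L, h => by
    show IsReduced ((a, b) :: (a', b') :: pre L)
    rw [isReduced_cons_cons] at h ⊢
    refine ⟨fun e => h.1 (congrArg Sum.inl e), ?_⟩
    exact isReduced_pre (L := (Sum.inl a', b') :: L) h.2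
  | (Sum.inl a, b) :: (Sum.inr j, b') :: L, _ => IsReduced.singleton
  | (Sum.inr j, b) :: L, _ => IsReduced.nil

variable [DecidableEq α] [DecidableEq J]

theorem right_letter {X : Type*} [DecidableEq X] (g : FreeGroup X) (l : X × Bool) :
    (g * mk [l]).toWord = g.toWord ++ [l] ∨
      ∃ L, g.toWord = L ++ [li l] ∧ (g * mk [l]).toWord = L := by
  by_cases h : IsReduced (g.toWord ++ [l])
  · left
    have : g * mk [l] = mk (g.toWord ++ [l]) := by rw [mk_append, mk_toWord]
    rw [this, toWord_mk_of h]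
  · right
    obtain ⟨L, hL⟩ := not_red_append isReduced_toWord h
    refine ⟨L, hL, ?_⟩
    have hL' : IsReduced L := by
      have h1 : IsReduced (L ++ [li l]) := hL ▸ isReduced_toWord
      exact (List.isChain_append.mp h1).1
    have : g * mk [l] = mk L := by
      conv_lhs => rw [← mk_toWord (x := g), hL, mk_append, mul_assoc]
      have : mk [li l] * mk [l] = 1 := by
        rw [← mk_append]
        have : Red.Step ([li l] ++ [l]) [] := by
          obtain ⟨x, b⟩ := l
          have := @Red.Step.not_rev X [] [] x b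
          simpa [li] using this
        exact Quot.sound this
      rw [this, mul_one]
    rw [this, toWord_mk_of hL']

theorem left_letter {X : Type*} [DecidableEq X] (g : FreeGroup X) (l : X × Bool) :
    (mk [l] * g).toWord = l :: g.toWord ∨
      ∃ L, g.toWord = li l :: L ∧ (mk [l] * g).toWord = L := by
  have hg : mk [l] * g = mk (l :: g.toWord) := by
    conv_lhs => rw [← mk_toWord (x := g)]
    rw [← mk_append]
    rfl
  by_cases h : IsReduced (l :: g.toWord)
  · left
    rw [hg, toWord_mk_of h]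
  · right
    rcases hw : g.toWord with _ | ⟨m, L⟩
    · rw [hw] at h
      exact absurd IsReduced.singleton h
    · have hr : IsReduced (m :: L) := hw ▸ isReduced_toWord
      have hm : m = li l := by
        rw [hw, isReduced_cons_cons] at h
        by_contra hm
        apply h
        refine ⟨fun e => ?_, hr⟩
        by_contra h2
        apply hm
        refine Prod.ext e.symm ?_
        show m.2 = !l.2
        rcases hm2 : m.2 <;> rcases hl2 : l.2 <;> simp_all
      refine ⟨L, by rw [hm], ?_⟩
      have hL' : IsReduced L := (List.isChain_cons.mp hr).2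
      have : mk [l] * g = mk L := by
        rw [hg, hw, hm]
        obtain ⟨x, b⟩ := l
        have := @Red.Step.not X [] L x b
        exact Quot.sound (by simpa [li] using this)
      rw [this, toWord_mk_of hL']

/-- the first near syllable -/
def hdF (g : FreeGroup (α ⊕ J)) : FreeGroup α := mk (pre g.toWord)

theorem hdF_letter (a : α) (b : Bool) (g : FreeGroup (α ⊕ J)) :
    hdF (mk [(Sum.inl a, b)] * g) = mk [(a, b)] * hdF g := by
  unfold hdF
  rcases left_letter g (Sum.inl a, b) with h | ⟨L, h1, h2⟩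
  · rw [h]
    show mk ((a, b) :: pre g.toWord) = _
    rw [← mk_append]
    rfl
  · rw [h2, h1]
    show mk (pre L) = mk [(a, b)] * mk ((a, !b) :: pre L)
    rw [← mk_append]
    symm
    exact Quot.sound (by simp)

theorem hdF_i_mul (x : FreeGroup α) (g : FreeGroup (α ⊕ J)) :
    hdF (FreeGroup.map Sum.inl x * g) = x * hdF g := by
  induction x using FreeGroup.induction_on generalizing g with
  | C1 => rw [_root_.map_one, one_mul, one_mul]
  | of a =>
    rw [FreeGroup.map.of]
    exact hdF_letter a true g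
  | inv_of a _ =>
    rw [_root_.map_inv, FreeGroup.map.of]
    exact hdF_letter a false g
  | mul x y hx hy => rw [_root_.map_mul, mul_assoc, hx, hy, mul_assoc]

theorem hasFar_of_notMem {g : FreeGroup (α ⊕ J)}
    (h : g ∉ (FreeGroup.map (Sum.inl : α → α ⊕ J)).range) : HasFar g.toWord := by
  by_contra hf
  obtain ⟨M, hM⟩ := near_eq_map hf
  apply h
  refine ⟨mk M, ?_⟩
  rw [FreeGroup.map.mk, ← hM, mk_toWord]

theorem HasFar.inv {g : FreeGroup (α ⊕ J)} (h : HasFar g.toWord) : HasFar g⁻¹.toWord := by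
  obtain ⟨j, b, h⟩ := h
  refine ⟨j, !b, ?_⟩
  rw [toWord_inv, invRev, List.mem_reverse, List.mem_map]
  exact ⟨_, h, rfl⟩

theorem hdF_mul_t (g : FreeGroup (α ⊕ J)) (j : J) : hdF (g * of (Sum.inr j)) = hdF g := by
  unfold hdF
  rcases right_letter g (Sum.inr j, true) with h | ⟨L, h1, h2⟩
  · have : g * of (Sum.inr j) = g * mk [(Sum.inr j, true)] := rfl
    rw [this, h, pre_append_inr]
  · have : g * of (Sum.inr j) = g * mk [(Sum.inr j, true)] := rfl
    rw [this, h2, h1]
    show mk (pre L) = mk (pre (L ++ [(Sum.inr j, !true)]))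
    rw [pre_append_inr]

theorem hdF_mul_letter {g : FreeGroup (α ⊕ J)} (hg : HasFar g.toWord) (a : α) (b : Bool) :
    hdF (g * mk [(Sum.inl a, b)]) = hdF g := by
  unfold hdF
  rcases right_letter g (Sum.inl a, b) with h | ⟨L, h1, h2⟩
  · rw [h, pre_append_far hg]
  · have hL : HasFar L := by
      obtain ⟨j, c, h⟩ := hg
      rw [h1, List.mem_append] at h
      rcases h with h | h
      · exact ⟨j, c, h⟩
      · exfalso
        rw [List.mem_singleton] at h
        have := congrArg Prod.fst h
        simp [li] at this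
    rw [h2, h1, pre_append_far hL]

theorem hdF_mul_i (g : FreeGroup (α ⊕ J))
    (hg : g ∉ (FreeGroup.map (Sum.inl : α → α ⊕ J)).range) (x : FreeGroup α) :
    hdF (g * FreeGroup.map Sum.inl x) = hdF g := by
  induction x using FreeGroup.induction_on generalizing g with
  | C1 => rw [_root_.map_one, mul_one]
  | of a =>
    rw [FreeGroup.map.of]
    exact hdF_mul_letter (hasFar_of_notMem hg) a true
  | inv_of a _ =>
    rw [_root_.map_inv, FreeGroup.map.of]
    exact hdF_mul_letter (hasFar_of_notMem hg) a false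
  | mul x y hx hy =>
    rw [_root_.map_mul, ← mul_assoc, hy, hx g hg]
    intro h
    apply hg
    have := Subgroup.mul_mem _ h (Subgroup.inv_mem _ (MonoidHom.mem_range.mpr ⟨x, rfl⟩))
    rwa [mul_inv_cancel_right] at this

theorem hdF_one : hdF (1 : FreeGroup (α ⊕ J)) = 1 := by
  unfold hdF
  rw [toWord_one]
  rfl

theorem hdF_alt_one {g : FreeGroup (α ⊕ J)}
    (hg : g ∉ (FreeGroup.map (Sum.inl : α → α ⊕ J)).range) (h1 : hdF g = 1)
    (u : FreeGroup (α ⊕ J)) : hdF u = 1 ∨ hdF (g⁻¹ * u) = hdF g⁻¹ := by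
  by_cases hu : hdF u = 1
  · exact Or.inl hu
  · right
    have hf := hasFar_of_notMem hg
    have hpre : pre g.toWord = [] := by
      have hr : IsReduced (pre g.toWord) := isReduced_pre isReduced_toWord
      have : (mk (pre g.toWord)).toWord = ([] : List (α × Bool)) := by
        have : mk (pre g.toWord) = (1 : FreeGroup α) := h1
        rw [this, toWord_one]
      rwa [toWord_mk_of hr] at this
    have hred : IsReduced (g⁻¹.toWord ++ u.toWord) := by
      have r1 : IsReduced g⁻¹.toWord := isReduced_toWord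
      have r2 : IsReduced u.toWord := isReduced_toWord
      unfold FreeGroup.IsReduced at r1 r2 ⊢
      rw [List.isChain_append]
      refine ⟨r1, r2, ?_⟩
      intro x hx y hy hxy
      exfalso
      -- x is far, y is near
      rcases hgw : g.toWord with _ | ⟨m, L⟩
      · rw [hgw] at hf
        obtain ⟨j, b, h⟩ := hf
        exact List.not_mem_nil h
      rcases huw : u.toWord with _ | ⟨n, L'⟩
      · rw [huw] at hy
        simp at hy
      rw [huw] at hy
      have hyn : y = n := by simpa using hy.symm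
      have hx2 : x = (m.1, !m.2) := by
        rw [toWord_inv, hgw, invRev] at hx
        simp at hx
        exact hx.symm
      rw [hgw] at hpre
      obtain ⟨m1, m2⟩ := m
      obtain ⟨n1, n2⟩ := n
      rcases m1 with m1 | m1
      · exact List.cons_ne_nil _ _ hpre
      · rcases n1 with n1 | n1
        · rw [hx2, hyn] at hxy
          simp at hxy
        · apply hu
          unfold hdF
          rw [huw]
          rfl
    have : g⁻¹ * u = mk (g⁻¹.toWord ++ u.toWord) := by
      rw [mk_append, mk_toWord, mk_toWord]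
    unfold hdF
    rw [this, toWord_mk_of hred, pre_append_far hf.inv]

theorem hdF_alt (g : FreeGroup (α ⊕ J))
    (hg : g ∉ (FreeGroup.map (Sum.inl : α → α ⊕ J)).range) (u : FreeGroup (α ⊕ J)) :
    hdF u = hdF g ∨ hdF (g⁻¹ * u) = hdF g⁻¹ := by
  set x := hdF g with hx
  let ix : FreeGroup (α ⊕ J) := FreeGroup.map Sum.inl x
  have hmem : ix ∈ (FreeGroup.map (Sum.inl : α → α ⊕ J)).range := ⟨x, rfl⟩
  have hinv : ix⁻¹ = FreeGroup.map Sum.inl x⁻¹ := (_root_.map_inv _ _).symm
  have h1 : hdF (ix⁻¹ * g) = 1 := by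
    rw [hinv, hdF_i_mul, ← hx, inv_mul_cancel]
  have hg' : ix⁻¹ * g ∉ (FreeGroup.map (Sum.inl : α → α ⊕ J)).range := by
    intro h
    apply hg
    have := Subgroup.mul_mem _ hmem h
    rwa [mul_inv_cancel_left] at this
  rcases hdF_alt_one hg' h1 (ix⁻¹ * u) with h | h
  · left
    rw [hinv, hdF_i_mul, inv_mul_eq_one] at h
    exact h.symm
  · right
    have e1 : (ix⁻¹ * g)⁻¹ * (ix⁻¹ * u) = g⁻¹ * u := by group
    have e2 : (ix⁻¹ * g)⁻¹ = g⁻¹ * ix := by group
    have hgi : g⁻¹ ∉ (FreeGroup.map (Sum.inl : α → α ⊕ J)).range := fun h =>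
      hg (by have := Subgroup.inv_mem _ h; rwa [inv_inv] at this)
    rw [e1, e2, hdF_mul_i _ hgi] at h
    exact h

/-- the extension by free letters -/
def extF (α J : Type*) [DecidableEq α] [DecidableEq J] :
    Ext (FreeGroup α) (FreeGroup (α ⊕ J)) J where
  i := FreeGroup.map Sum.inl
  hd := hdF
  t := fun j => of (Sum.inr j)
  hd_i_mul := hdF_i_mul
  hd_one := hdF_one
  hd_mul_t := hdF_mul_t
  hd_mul_i := hdF_mul_i
  hd_alt := hdF_alt
  gen := by
    rw [eq_top_iff, ← FreeGroup.closure_range_of, Subgroup.closure_le]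
    rintro _ ⟨a | j, rfl⟩
    · exact Subgroup.subset_closure (Or.inl ⟨of a, by rw [FreeGroup.map.of]⟩)
    · exact Subgroup.subset_closure (Or.inr ⟨j, rfl⟩)
  up := by
    intro A τ
    refine ⟨FreeGroup.lift (Sum.elim (fun a => A (of a)) τ), fun x => ?_, fun j => ?_⟩
    · have : (FreeGroup.lift (Sum.elim (fun a => A (of a)) τ)).comp (FreeGroup.map Sum.inl) = A := by
        ext a
        simp
      exact DFunLike.congr_fun this x
    · simp

/-- transport of an extension along an isomorphism of the big group -/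
def Ext.trans {F Fp Fq J : Type*} [Group F] [Group Fp] [Group Fq] (e : Ext F Fp J)
    (θ : Fp ≃* Fq) : Ext F Fq J where
  i := θ.toMonoidHom.comp e.i
  hd := fun g => e.hd (θ.symm g)
  t := fun j => θ (e.t j)
  hd_i_mul := by
    intro x g
    rw [_root_.map_mul]
    simp [e.hd_i_mul]
  hd_one := by rw [_root_.map_one, e.hd_one]
  hd_mul_t := by
    intro g j
    rw [_root_.map_mul, MulEquiv.symm_apply_apply, e.hd_mul_t]
  hd_mul_i := by
    intro g hg x
    rw [_root_.map_mul]
    simp only [MonoidHom.coe_comp, MulEquiv.coe_toMonoidHom, Function.comp_apply,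
      MulEquiv.symm_apply_apply]
    apply e.hd_mul_i
    rintro ⟨y, hy⟩
    exact hg ⟨y, by
      show θ (e.i y) = g
      rw [hy, MulEquiv.apply_symm_apply]⟩
  hd_alt := by
    intro g hg u
    have hg' : θ.symm g ∉ e.i.range := by
      rintro ⟨y, hy⟩
      exact hg ⟨y, by
        show θ (e.i y) = g
        rw [hy, MulEquiv.apply_symm_apply]⟩
    have := e.hd_alt _ hg' (θ.symm u)
    rwa [_root_.map_mul, _root_.map_inv]
  gen := by
    have h := congrArg (Subgroup.map θ.toMonoidHom) e.gen
    rw [MonoidHom.map_closure, Set.image_union] at h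
    rw [Subgroup.map_top_of_surjective _ θ.surjective] at h
    rw [← h]
    congr 1
    congr 1
    · ext y
      constructor
      · rintro ⟨x, rfl⟩
        exact ⟨e.i x, ⟨x, rfl⟩, rfl⟩
      · rintro ⟨_, ⟨x, rfl⟩, rfl⟩
        exact ⟨x, rfl⟩
    · ext y
      constructor
      · rintro ⟨j, rfl⟩
        exact ⟨e.t j, ⟨j, rfl⟩, rfl⟩
      · rintro ⟨_, ⟨j, rfl⟩, rfl⟩
        exact ⟨j, rfl⟩
  up := by
    intro A τ
    obtain ⟨Φ, h1, h2⟩ := e.up (θ.symm.toMonoidHom.comp A) (fun j => θ.symm (τ j))
    refine ⟨θ.toMonoidHom.comp (Φ.comp θ.symm.toMonoidHom), fun x => ?_, fun j => ?_⟩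
    · simp [h1]
    · simp [h2]

end Pool.Agent.TOR.H76
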