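import Mathlib
import Pool.Agent.Helper76_TOR.Ext
import Pool.Agent.Helper79_TOR.Stmts

/-! T2-STAB: the modules LEG, STR, GAM, SLD of helper79. -/

set_option autoImplicit false

namespace Pool.Agent.TOR.H76

open Pointwise Set Pool.Agent.TOR.H58

section bridge

variable {F : Type} [Group F]

theorem ai_iff {E : Set F} : TST.AI E ↔ H58.AI E := by
  unfold TST.AI H58.AI Dl
  refine forall_congr' fun x => ?_
  have : {y : F | ¬ (y ∈ E ↔ y * x ∈ E)} = {a | ¬ (a * x ∈ E ↔ a ∈ E)} := by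
    ext y
    simp only [mem_ofPred_eq]
    exact not_congr ⟨fun h => h.symm, fun h => h.symm⟩
  rw [this]

theorem ind_eq (E : Set F) (y : F) : TST.ind E y = H58.ind E y := by
  classical
  unfold TST.ind H58.ind
  rw [Set.indicator_apply]

theorem cl_eq (E : Set F) : TST.cl E = H58.cl E := by
  funext x
  unfold TST.cl H58.cl
  exact finsum_congr fun y => by rw [ind_eq, ind_eq]

theorem ra_WO (D : Set F) : RA (WO D) = TST.RSt D := by
  ext a
  rw [mem_RA, TST.mem_RSt]
  constructor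
  · intro h y
    exact h D (mem_WO_self D) y
  · rintro h C ⟨g, rfl | rfl⟩ x
    · rw [mem_smul_iff, mem_smul_iff, ← mul_assoc]
      exact h _
    · rw [mem_compl_iff, mem_compl_iff, mem_smul_iff, mem_smul_iff, ← mul_assoc]
      exact not_congr (h _)

theorem ra_HS {κ : Type} (E : κ → Set F) : RA (TST.HS E) = TST.A0 E := by
  ext a
  rw [mem_RA, TST.mem_A0]
  constructor
  · intro h j y
    exact h (E j) ⟨j, 1, Or.inl (one_smul _ _).symm⟩ y
  · rintro h C ⟨j, g, rfl | rfl⟩ x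
    · rw [mem_smul_iff, mem_smul_iff, ← mul_assoc]
      exact h j _
    · rw [mem_compl_iff, mem_compl_iff, mem_smul_iff, mem_smul_iff, ← mul_assoc]
      exact not_congr (h j _)

theorem act_smul {D : Set F} (h : Act D) (g : F) : Act (g • D) where
  ai := fun x => by
    rw [Dl_smul]
    exact (h.ai x).smul_set
  sn := fun k => by
    have := h.sn (g⁻¹ * k * g)
    have e : k • g • D = g • (g⁻¹ * k * g) • D := by
      rw [smul_smul, smul_smul]
      congr 1
      group
    rw [e, nst_smul]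
    exact this
  ne := by
    rw [cl_smul]
    exact h.ne

theorem act_compl {D : Set F} (h : Act D) : Act Dᶜ where
  ai := fun x => by
    rw [Dl_compl]
    exact h.ai x
  sn := fun k => by
    rw [smul_set_compl, nst_compl_left, nst_compl_right]
    exact h.sn k
  ne := by
    rw [cl_compl]
    intro h'
    exact h.ne (neg_eq_zero.mp h')

variable {κ : Type} {E : κ → Set F}

theorem fam_act (h : TST.IsFam E) (j : κ) : Act (E j) where
  ai := ai_iff.mp (h.ai j)
  sn := fun g => h.nest j j g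
  ne := by
    obtain ⟨x, hx⟩ := h.cls j
    rw [cl_eq] at hx
    intro h'
    rw [h'] at hx
    exact hx rfl

theorem fam_act_hs (h : TST.IsFam E) {D : Set F} (hD : D ∈ TST.HS E) : Act D := by
  obtain ⟨j, g, rfl | rfl⟩ := hD
  · exact act_smul (fam_act h j) g
  · exact act_compl (act_smul (fam_act h j) g)

theorem nst_symm' {A B : Set F} (h : Nst A B) : Nst B A := by
  rcases h with h | h | h | h
  · exact Or.inr (Or.inl h)
  · exact Or.inl h
  · exact Or.inr (Or.inr (Or.inl fun x hx hx' => h hx' hx))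
  · refine Or.inr (Or.inr (Or.inr fun x hx => ?_))
    by_contra hx'
    exact hx (h hx')

theorem fam_nst (h : TST.IsFam E) (i j : κ) (g k : F) : Nst (g • E i) (k • E j) := by
  have e : g • E i = k • (k⁻¹ * g) • E i := by rw [smul_smul, mul_inv_cancel_left]
  rw [e, nst_smul]
  exact h.nest i j _

theorem fam_ws [Finite κ] (h : TST.IsFam E) : WS (TST.HS E) where
  smul := by
    rintro k C ⟨j, g, rfl | rfl⟩
    · exact ⟨j, k * g, Or.inl (smul_smul _ _ _)⟩
    · exact ⟨j, k * g, Or.inr (by rw [← smul_smul, smul_set_compl])⟩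
  compl := by
    rintro C ⟨j, g, rfl | rfl⟩
    · exact ⟨j, g, Or.inr rfl⟩
    · exact ⟨j, g, Or.inl (compl_compl _)⟩
  nst := by
    rintro C ⟨j, g, rfl | rfl⟩ C' ⟨j', g', rfl | rfl⟩
    · exact fam_nst h j j' g g'
    · rw [nst_compl_right]
      exact fam_nst h j j' g g'
    · rw [nst_compl_left]
      exact fam_nst h j j' g g'
    · rw [nst_compl_left, nst_compl_right]
      exact fam_nst h j j' g g'
  fin := by
    intro p q
    have hf : (⋃ j : κ, ((fun k : F => k • E j) '' Pp (E j) p q ∪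
        (fun k : F => (k • E j)ᶜ) '' Pp (E j) q p)).Finite := by
      apply Set.finite_iUnion
      intro j
      exact ((Pp_finite (fam_act h j).ai p q).image _).union
        ((Pp_finite (fam_act h j).ai q p).image _)
    refine hf.subset ?_
    rintro C ⟨⟨j, g, rfl | rfl⟩, hp, hq⟩
    · exact mem_iUnion.mpr ⟨j, Or.inl ⟨g, ⟨hp, hq⟩, rfl⟩⟩
    · exact mem_iUnion.mpr ⟨j, Or.inr ⟨g, ⟨hq, by simpa using hp⟩, rfl⟩⟩

theorem leg_sees {D : Set F} {s : F} (h : TST.IsLeg E D s) : Sees (TST.HS E) 1 D :=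
  ⟨h.one, fun B hB h1 hs => h.vis B hB h1 hs⟩

theorem leg_adj [IsMulTorsionFree F] {D : Set F} {s : F} (hE : TST.IsFam E)
    (h : TST.IsLeg E D s) : Adj D s where
  cut := (fam_act_hs hE h.mem).cut
  pos := by
    ext k
    rw [mem_singleton_iff]
    constructor
    · rintro ⟨h1, h2⟩
      exact h.only k fun h' => h1 (h'.mpr h2)
    · rintro rfl
      exact ⟨by rw [one_smul]; exact h.one, by rw [one_smul]; exact h.hs⟩
  neg := by
    ext k
    simp only [mem_empty_iff_false, iff_false]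
    rintro ⟨h1, h2⟩
    have := h.only k fun h' => h1 (h'.mp h2)
    rw [this, one_smul] at h2
    exact h.one h2

theorem adj_leg {D : Set F} {s : F} (hD : D ∈ TST.HS E) (h1 : Sees (TST.HS E) 1 D)
    (h : Adj D s) : TST.IsLeg E D s where
  mem := hD
  one := h1.1
  hs := h.mem
  vis := fun C hC h2 h3 => h1.2 C hC h2 h3
  only := by
    intro k hk
    by_cases h2 : (1 : F) ∈ k • D
    · have h3 : s ∉ k • D := fun h3 => hk ⟨fun _ => h3, fun _ => h2⟩
      have : k ∈ Pp D s 1 := ⟨h3, h2⟩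
      rw [h.neg] at this
      exact absurd this (notMem_empty _)
    · have h3 : s ∈ k • D := by
        by_contra h3
        exact hk ⟨fun h4 => absurd h4 h2, fun h4 => absurd h4 h3⟩
      have : k ∈ Pp D 1 s := ⟨h2, h3⟩
      rw [h.pos] at this
      exact this

theorem wo_sub_hs {D : Set F} (hE : TST.IsFam E) [Finite κ] (hD : D ∈ TST.HS E) :
    WO D ⊆ TST.HS E := WO_subset (fam_ws hE) hD

end bridge

/-- LEG -/
theorem leg : TST.LEG := by
  intro F _ _ κ _ _ E hE
  have hW := fam_ws hE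
  obtain ⟨j⟩ := (inferInstance : Nonempty κ)
  have hj := fam_act hE j
  obtain ⟨hne, hnu⟩ := ne_of_cl hj.ne
  have hjm : E j ∈ TST.HS E := ⟨j, 1, Or.inl (one_smul _ _).symm⟩
  have hex : ∃ q : F, ∃ C ∈ TST.HS E, (1 : F) ∉ C ∧ q ∈ C := by
    by_cases h1 : (1 : F) ∈ E j
    · obtain ⟨q, hq⟩ := (Set.ne_univ_iff_exists_notMem _).mp hnu
      exact ⟨q, (E j)ᶜ, hW.compl _ hjm, fun h => h h1, hq⟩
    · obtain ⟨q, hq⟩ := hne
      exact ⟨q, E j, hjm, h1, hq⟩
  obtain ⟨q, hq⟩ := hex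
  obtain ⟨D, hD, h1, _⟩ := exists_sees hW hq
  have hDa := fam_act_hs hE hD
  obtain ⟨x, hx⟩ := hDa.exists_ne
  have h2 : Sees (WO D) 1 D :=
    ⟨h1.1, fun B hB h3 h4 => h1.2 B (WO_subset hW hD hB) h3 h4⟩
  obtain ⟨s, hs⟩ := exists_adj hDa.cut h2 hx
  exact ⟨D, s, adj_leg hD h1 hs⟩

/-- STR -/
theorem str : TST.STR := by
  intro F _ _ κ _ E D s hE hL
  have hA := leg_adj hE hL
  have hR := ra_WO D
  refine ⟨?_, ?_⟩
  · rw [← hR]
    exact hA.closure_eq
  · rw [← hR]
    intro H _ f h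
    obtain ⟨Φ, h1, h2⟩ := hA.up f h
    exact ⟨Φ, h1, h2⟩

theorem phi_RSt {F : Type} [Group F] {φ : MulAut F} {C : Set F} {g : F} (h : φ '' C = g • C)
    {a : F} (ha : a ∈ TST.RSt C) : φ a ∈ TST.RSt C := by
  have key : ∀ x : F, x ∈ C ↔ φ⁻¹ (g * x) ∈ C := by
    intro x
    have e : g * x ∈ g • C ↔ x ∈ C := mul_mem_smul
    rw [← e, ← h]
    constructor
    · rintro ⟨y, hy, hy2⟩
      rw [← hy2, MulAut.inv_apply_self]
      exact hy
    · intro hx
      exact ⟨φ⁻¹ (g * x), hx, MulAut.apply_inv_self _ _ _⟩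
  intro y
  rw [key, key y, ← mul_assoc, map_mul, MulAut.inv_apply_self]
  exact ha _

theorem img_smul {F : Type} [Group F] {φ : MulAut F} {C : Set F} {g : F} (h : φ '' C = g • C)
    (k : F) : φ '' (k • C) = (φ k * g * k⁻¹) • k • C := by
  rw [image_smul', h, smul_smul, smul_smul, inv_mul_cancel_right]

theorem img_compl {F : Type} [Group F] {φ : MulAut F} {C : Set F} {g : F} (h : φ '' C = g • C) :
    φ '' Cᶜ = g • Cᶜ := by
  rw [image_compl_eq φ.bijective, h, smul_set_compl]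

theorem img_perm {F : Type} [Group F] {φ : MulAut F} {W : Set (Set F)} (hW : WS W)
    (himg : ∀ C ∈ W, ∃ c : F, φ '' C = c • C) (B : Set F) : φ '' B ∈ W ↔ B ∈ W := by
  constructor
  · intro hB
    obtain ⟨c, hc⟩ := himg _ hB
    set C := φ '' B with hC
    have h1 : φ '' B = φ '' ((φ⁻¹ c)⁻¹ • C) := by
      rw [image_smul', hc, map_inv, MulAut.apply_inv_self, inv_smul_smul, ← hC]
    have h2 : B = (φ⁻¹ c)⁻¹ • C := (image_injective.mpr φ.injective) h1
    rw [h2]
    exact hW.smul _ _ hB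
  · intro hB
    obtain ⟨c, hc⟩ := himg B hB
    rw [hc]
    exact hW.smul c B hB

theorem img_WO {F : Type} [Group F] {φ : MulAut F} {D : Set F} {g : F} (h : φ '' D = g • D) :
    ∀ C ∈ WO D, ∃ c : F, φ '' C = c • C := by
  rintro C ⟨k, rfl | rfl⟩
  · exact ⟨_, img_smul h k⟩
  · exact ⟨_, img_compl (img_smul h k)⟩

theorem s_RSt {F : Type} [Group F] {D : Set F} {s : F} (hA : Adj D s) {φ : MulAut F} {c : F}
    (hc : φ '' D = c • D) (hcA : c ∈ RA (WO D)) : (c * s)⁻¹ * φ s ∈ RA (WO D) := by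
  have hws := hA.cut.ws
  have hperm := img_perm hws (img_WO hc)
  have hDm := mem_WO_self D
  -- (A)
  have fA : ∀ C ∈ WO D, (1 : F) ∉ C → φ s ∈ C → C = c • D := by
    intro C hC h1 h2
    have h3 : φ '' (φ ⁻¹' C) = C := image_preimage_eq C φ.surjective
    have h4 : φ ⁻¹' C ∈ WO D := by
      rw [← hperm, h3]
      exact hC
    have h5 := hA.uniq h4 (fun h => h1 (by
      have : φ 1 ∈ C := h
      rwa [map_one] at this)) h2
    rw [← hc, ← h5, h3]
  -- (B)
  have fB : ∀ C ∈ WO D, c ∉ C → c * s ∈ C → C = c • D := by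
    intro C hC h1 h2
    have h4 : c⁻¹ • C ∈ WO D := hws.smul _ _ hC
    have h5 := hA.uniq h4 (fun h => h1 (by
      rw [mem_smul_iff, inv_inv, mul_one] at h
      exact h)) (by rw [mem_smul_iff, inv_inv]; exact h2)
    rw [← h5, smul_inv_smul]
  have key : ∀ C ∈ WO D, c * s ∈ C → φ s ∈ C := by
    intro C hC h1
    by_contra h2
    by_cases h3 : c ∈ C
    · have h4 : (1 : F) ∈ C := by
        have := hcA C hC 1
        rw [one_mul] at this
        exact this.mp h3
      have h5 := fA Cᶜ (hws.compl C hC) (fun h => h h4) h2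
      have h6 : c * s ∈ c • D := mul_mem_smul.mpr hA.mem
      rw [← h5] at h6
      exact h6 h1
    · have h4 := fB C hC h3 h1
      apply h2
      rw [h4, ← hc]
      exact mem_image_of_mem φ hA.mem
  have key2 : ∀ C ∈ WO D, c * s ∈ C ↔ φ s ∈ C := by
    intro C hC
    refine ⟨key C hC, fun h => ?_⟩
    by_contra h2
    exact key Cᶜ (hws.compl C hC) h2 h
  rw [hws.mem_RA_iff]
  intro C hC
  have := key2 ((c * s) • C) (hws.smul _ _ hC)
  rw [mem_smul_iff, mem_smul_iff, inv_mul_cancel] at this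
  exact this

/-- GAM -/
theorem gam : TST.GAM := by
  intro F _ _ κ _ E D s hE hL φ hφ
  have hW := fam_ws hE
  have hA := leg_adj hE hL
  have hcut := hA.cut
  have hS := leg_sees hL
  -- images of the half-spaces
  have himg : ∀ C ∈ TST.HS E, ∃ c : F, φ '' C = c • C := by
    rintro C ⟨j, h, rfl | rfl⟩
    · obtain ⟨g, hg⟩ := hφ j
      exact ⟨_, img_smul hg h⟩
    · obtain ⟨g, hg⟩ := hφ j
      exact ⟨_, img_compl (img_smul hg h)⟩
  have hperm : ∀ B : Set F, φ '' B ∈ TST.HS E ↔ B ∈ TST.HS E := img_perm hW himg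
  obtain ⟨c, hc⟩ := himg D hL.mem
  have hcA : c ∈ RA (TST.HS E) := gamma_mem hW hL.mem hS φ hperm hc
  have hcA' : c ∈ TST.A0 E := by rw [← ra_HS]; exact hcA
  refine ⟨c, hcA', hc, ?_, ?_, ?_, ?_⟩
  · rw [← ra_WO]
    exact s_RSt hA hc (RA_anti (WO_subset hW hL.mem) hcA)
  · intro c' hc'
    rw [hc] at hc'
    exact (hcut.smul_inj hc').symm
  · intro a ha
    rw [TST.mem_A0] at ha ⊢
    intro j
    obtain ⟨g, hg⟩ := hφ j
    exact phi_RSt hg (ha j)
  · intro a ha
    exact phi_RSt hc ha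

/-- SLD -/
theorem sld : TST.SLD := by
  intro F _ _ κ _ E D s hE hL μ hμ Y B hB hgen hYB hYs j
  have hW := fam_ws hE
  have hA := leg_adj hE hL
  have hS := leg_sees hL
  have hμ' : μ ∈ RA (TST.HS E) := by rw [ra_HS]; exact hμ
  have hμ'' : μ ∈ RA (WO D) := RA_anti (WO_subset hW hL.mem) hμ'
  obtain ⟨S, hS1, hS2⟩ := hA.exists_slide hμ''
  have hYS : Y.toMonoidHom = S.toMonoidHom := by
    apply MonoidHom.eq_of_eqOn_top
    rw [← hgen]
    apply MonoidHom.eqOn_closure
    rintro u (hu | hu)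
    · show Y u = S u
      rw [hYB u hu, hS1 u (by rw [ra_WO]; exact hB hu)]
    · rw [mem_singleton_iff] at hu
      show Y u = S u
      rw [hu, hYs, hS2]
  have hYS' : ∀ x, Y x = S x := fun x => DFunLike.congr_fun hYS x
  have hjm : E j ∈ TST.HS E := ⟨j, 1, Or.inl (one_smul _ _).symm⟩
  obtain ⟨g, hg⟩ := hA.slide_wall hW hL.mem hS hμ' hS1 hS2 hjm
  refine ⟨g, ?_⟩
  rw [← hg]
  exact image_congr fun x _ => hYS' x

end Pool.Agent.TOR.H76
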