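import Pool.Agent.Helper76_TOR.TwI
import Pool.Agent.Helper58_TOW.Homq
import Pool.Agent.Helper98_TOW.Gen0
import Pool.Agent.Helper79_TOW.Frm
import Pool.Agent.Helper20_TOW.The
import Pool.Agent.Helper18_TNF.Nu

/-! TOW: the tower, final form without hypotheses. -/

set_option autoImplicit false

namespace Pool.Agent.TOW

/-- TOWQ without hypotheses -/
theorem towq_final : TOWQ :=
  towq Pool.Agent.TOR.H98.birm Pool.Agent.TOW.H20.the Pool.Agent.TOW.H98.gen0
    (Pool.Agent.TOW.H58.homq Pool.Agent.TOW.H79.frm Pool.Agent.TOW.H20.the)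

/-- near quasi-unipotence without hypotheses -/
theorem nu_final : ∀ q, ∃ M K c, 1 ≤ M ∧ Pool.Agent.TOR.SA.NU q M K c :=
  Pool.Agent.TNF.nu_of_towq towq_final

end Pool.Agent.TOW
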